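import Mathlib

set_option autoImplicit false

/-!
Real inequalities for the choice of the parameters.
-/

namespace H542.RK

open Finset

theorem lines_ineq (a k M N n h0 t h S : ℕ) (τ κ g : ℝ) (hτ : 0 < τ) (hM : 1 ≤ M) (hκ0 : 0 < κ)
    (hg : g = τ / (4 * κ * (a + 1))) (hn1 : 1 ≤ n) (hN2 : N ≤ 2 * n * M)
    (hh0 : h0 = N / 4 ^ k + 1) (f8 : 2 * (k + 1) * 2 ^ t ≤ 4 ^ k)
    (n5 : 2 * (k + 1) * 2 ^ t ≤ N) (d8 : 80 * M / g ≤ 2 ^ t) (n4 : 4 * M * (τ + 2) / g ≤ N)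
    (hhR2 : (n : ℝ) / (4 * κ * (a + 1)) < h + 1)
    (hS : (S : ℝ) < (2 : ℝ) ^ (g / (16 * M) * N)) :
    (S : ℝ) * (2 ^ N * Real.exp (g * n / 4 + τ)) <
        1 / 4 * (2 : ℝ) ^ ((N : ℝ) - (k + 1) * h0 - 4 * N / 2 ^ t) *
          Real.exp (τ * (h + 1)) := by
  have hMR : (1 : ℝ) ≤ M := by exact_mod_cast hM
  have hg0 : 0 < g := by rw [hg]; positivity
  have hnR : (0 : ℝ) < n := by exact_mod_cast hn1
  have hN2R : (N : ℝ) ≤ 2 * n * M := by exact_mod_cast hN2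
  -- the number of lines
  have e2e : (2 : ℝ) ≤ Real.exp 1 := by
    have := Real.add_one_le_exp (1 : ℝ)
    linarith
  have hS1 : (S : ℝ) < Real.exp (g * n / 8) := by
    refine hS.trans_le ?_
    have h3 : (0 : ℝ) ≤ g / (16 * M) * N := by positivity
    have h4 : g / (16 * M) * N ≤ g * n / 8 := by
      rw [div_mul_eq_mul_div, div_le_div_iff₀ (by positivity) (by norm_num)]
      nlinarith
    calc (2 : ℝ) ^ (g / (16 * M) * N) ≤ (Real.exp 1) ^ (g / (16 * M) * N) :=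
          Real.rpow_le_rpow (by norm_num) e2e h3
      _ = Real.exp (g / (16 * M) * N) := Real.exp_one_rpow _
      _ ≤ Real.exp (g * n / 8) := Real.exp_le_exp.mpr h4
  have hE1 : (k + 1 : ℝ) * h0 ≤ N / 2 ^ t := by
    have h3 : (h0 : ℝ) ≤ N / 4 ^ k + 1 := by
      rw [hh0]
      push_cast
      have : ((N / 4 ^ k : ℕ) : ℝ) ≤ (N : ℝ) / ((4 ^ k : ℕ) : ℝ) := Nat.cast_div_le
      push_cast at this
      linarith
    have h4 : (2 * (k + 1) * 2 ^ t : ℝ) ≤ 4 ^ k := by exact_mod_cast f8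
    have h5 : (2 * (k + 1) * 2 ^ t : ℝ) ≤ N := by exact_mod_cast n5
    have h6 : (0 : ℝ) < 2 ^ t := by positivity
    rw [le_div_iff₀ h6]
    calc (k + 1 : ℝ) * h0 * 2 ^ t ≤ (k + 1 : ℝ) * (N / 4 ^ k + 1) * 2 ^ t := by gcongr
      _ = (2 * (k + 1) * 2 ^ t) / 4 ^ k * (N / 2) + (2 * (k + 1) * 2 ^ t) / 2 := by
          field_simp
      _ ≤ 1 * (N / 2) + N / 2 := by
          have : (2 * (k + 1) * 2 ^ t : ℝ) / 4 ^ k ≤ 1 := by
            rw [div_le_one (by positivity)]; exact h4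
          have h7 : (2 * (k + 1) * 2 ^ t : ℝ) / 4 ^ k * (N / 2) ≤ 1 * (N / 2) :=
            mul_le_mul_of_nonneg_right this (by positivity)
          linarith
      _ = N := by ring
  have hE2 : 5 * (N : ℝ) / 2 ^ t ≤ g * n / 8 := by
    rw [div_le_iff₀ hg0] at d8
    rw [div_le_div_iff₀ (by positivity) (by norm_num)]
    calc 5 * (N : ℝ) * 8 ≤ 5 * (2 * n * M) * 8 := by linarith
      _ = 80 * M * n := by ring
      _ ≤ (2 ^ t * g) * n := mul_le_mul_of_nonneg_right d8 hnR.le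
      _ = g * n * 2 ^ t := by ring
  have hE3 : (2 : ℝ) ^ N * Real.exp (-(g * n / 8)) ≤
      (2 : ℝ) ^ ((N : ℝ) - (k + 1) * h0 - 4 * N / 2 ^ t) := by
    have h3 : (N : ℝ) - 5 * N / 2 ^ t ≤ (N : ℝ) - (k + 1) * h0 - 4 * N / 2 ^ t := by
      have : 5 * (N : ℝ) / 2 ^ t = N / 2 ^ t + 4 * N / 2 ^ t := by ring
      linarith
    refine le_trans ?_ (Real.rpow_le_rpow_of_exponent_le (by norm_num) h3)
    rw [Real.rpow_sub (by norm_num), Real.rpow_natCast, div_eq_mul_inv]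
    apply mul_le_mul_of_nonneg_left _ (by positivity)
    rw [Real.exp_neg]
    apply inv_anti₀ (by positivity)
    calc (2 : ℝ) ^ (5 * (N : ℝ) / 2 ^ t) ≤ (Real.exp 1) ^ (5 * (N : ℝ) / 2 ^ t) :=
          Real.rpow_le_rpow (by norm_num) e2e (by positivity)
      _ = Real.exp (5 * (N : ℝ) / 2 ^ t) := Real.exp_one_rpow _
      _ ≤ Real.exp (g * n / 8) := Real.exp_le_exp.mpr hE2
  have hE4 : Real.exp (g * n) ≤ Real.exp (τ * (h + 1)) := by
    apply Real.exp_le_exp.mpr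
    rw [hg]
    calc τ / (4 * κ * (a + 1)) * n = τ * (n / (4 * κ * (a + 1))) := by ring
      _ ≤ τ * (h + 1) := mul_le_mul_of_nonneg_left hhR2.le hτ.le
  have hn4 : 2 * (τ + 2) ≤ g * n := by
    rw [div_le_iff₀ hg0] at n4
    have h3 : 4 * M * (τ + 2) ≤ (2 * n * M) * g :=
      n4.trans (mul_le_mul_of_nonneg_right hN2R hg0.le)
    have h4 : (0 : ℝ) < M := by linarith
    nlinarith
  have h4e : (4 : ℝ) < Real.exp 2 := by
    have h3 : Real.exp 2 = Real.exp 1 * Real.exp 1 := by rw [← Real.exp_add]; norm_num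
    have h4 := Real.exp_one_gt_d9
    rw [h3]
    nlinarith
  have hfin : Real.exp (g * n / 8) * Real.exp (g * n / 4 + τ) * 4 ≤
      Real.exp (-(g * n / 8)) * Real.exp (g * n) := by
    calc Real.exp (g * n / 8) * Real.exp (g * n / 4 + τ) * 4
        ≤ Real.exp (g * n / 8) * Real.exp (g * n / 4 + τ) * Real.exp 2 := by
          apply mul_le_mul_of_nonneg_left h4e.le (by positivity)
      _ = Real.exp (g * n / 8 + (g * n / 4 + τ) + 2) := by
          rw [← Real.exp_add, ← Real.exp_add]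
      _ ≤ Real.exp (-(g * n / 8) + g * n) := by
          apply Real.exp_le_exp.mpr
          linarith
      _ = Real.exp (-(g * n / 8)) * Real.exp (g * n) := by rw [Real.exp_add]
  calc (S : ℝ) * (2 ^ N * Real.exp (g * n / 4 + τ))
      < Real.exp (g * n / 8) * (2 ^ N * Real.exp (g * n / 4 + τ)) := by
        apply mul_lt_mul_of_pos_right hS1 (by positivity)
    _ = 1 / 4 * 2 ^ N * (Real.exp (g * n / 8) * Real.exp (g * n / 4 + τ) * 4) := by ring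
    _ ≤ 1 / 4 * 2 ^ N * (Real.exp (-(g * n / 8)) * Real.exp (g * n)) :=
        mul_le_mul_of_nonneg_left hfin (by positivity)
    _ = 1 / 4 * (2 ^ N * Real.exp (-(g * n / 8))) * Real.exp (g * n) := by ring
    _ ≤ 1 / 4 * (2 : ℝ) ^ ((N : ℝ) - (k + 1) * h0 - 4 * N / 2 ^ t) *
      Real.exp (τ * (h + 1)) := by
        apply mul_le_mul _ hE4 (by positivity) (by positivity)
        exact mul_le_mul_of_nonneg_left hE3 (by norm_num)

theorem eta_ineq (k M N n h0 d : ℕ) (κ ε : ℝ) (hε : 0 < ε) (hκ0 : 0 < κ) (hM : 1 ≤ M)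
    (hn1 : 1 ≤ n) (hN1 : 1 ≤ N) (hN2 : N ≤ 2 * n * M) (h01 : 1 ≤ h0) (hW : N ≤ h0 * 4 ^ k)
    (n6 : (2 * k + 4 * (4 ^ k + 1 + 2 * M * κ * d)) / ε ≤ N) :
    2 * (k : ℝ) / N + 4 * ((1 / 2) ^ h0 + (1 / 2) ^ N + κ * d / n) ≤ ε := by
  have hnR : (0 : ℝ) < n := by exact_mod_cast hn1
  have hNR : (0 : ℝ) < N := by exact_mod_cast hN1
  have hN2R : (N : ℝ) ≤ 2 * n * M := by exact_mod_cast hN2
  have hhalf : ∀ e : ℕ, 1 ≤ e → ((1 : ℝ) / 2) ^ e ≤ 1 / e := by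
    intro e he
    have h3 : ((e : ℕ) : ℝ) ≤ 2 ^ e := by exact_mod_cast Nat.lt_two_pow_self.le
    have h4 : (0 : ℝ) < e := by exact_mod_cast he
    rw [one_div, inv_pow, ← one_div]
    exact one_div_le_one_div_of_le h4 h3
  have h3 : ((1 : ℝ) / 2) ^ h0 ≤ 4 ^ k / N := by
    refine (hhalf h0 h01).trans ?_
    have h4 : (0 : ℝ) < h0 := by
      have : 0 < h0 := h01
      exact_mod_cast this
    rw [div_le_div_iff₀ h4 hNR]
    have : (N : ℝ) ≤ h0 * 4 ^ k := by exact_mod_cast hW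
    linarith
  have h4 := hhalf N hN1
  have h5 : κ * d / n ≤ 2 * M * κ * d / N := by
    rw [div_le_div_iff₀ hnR hNR]
    have h6 : 0 ≤ κ * d := by positivity
    nlinarith
  rw [div_le_iff₀ hε] at n6
  have h7 : (2 * (k : ℝ) + 4 * (4 ^ k + 1 + 2 * M * κ * d)) / N ≤ ε := by
    rw [div_le_iff₀ hNR]
    linarith
  calc 2 * (k : ℝ) / N + 4 * ((1 / 2) ^ h0 + (1 / 2) ^ N + κ * d / n)
      ≤ 2 * (k : ℝ) / N + 4 * (4 ^ k / N + 1 / N + 2 * M * κ * d / N) := by linarith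
    _ = (2 * (k : ℝ) + 4 * (4 ^ k + 1 + 2 * M * κ * d)) / N := by ring
    _ ≤ ε := h7

end H542.RK
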