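import Mathlib

set_option autoImplicit false

/-!
Choice of the parameters.
-/

namespace H542.RK

open Filter

theorem ev_sq (A : ℝ) : ∀ᶠ d : ℕ in atTop, A * (d : ℝ) ^ 2 ≤ 2 ^ (d - 2) := by
  have h1 : Tendsto (fun d : ℕ => (d : ℝ) ^ 2 / (2 : ℝ) ^ d) atTop (nhds 0) :=
    tendsto_pow_const_div_const_pow_of_one_lt 2 (by norm_num)
  have h2 : ∀ᶠ d : ℕ in atTop, (d : ℝ) ^ 2 / (2 : ℝ) ^ d < 1 / (4 * (|A| + 1)) :=
    h1.eventually (gt_mem_nhds (by positivity))
  filter_upwards [h2, eventually_ge_atTop 2] with d hd hd2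
  have h3 : (0 : ℝ) < 2 ^ d := by positivity
  rw [div_lt_div_iff₀ h3 (by positivity)] at hd
  have h4 : (2 : ℝ) ^ d = 4 * 2 ^ (d - 2) := by
    obtain ⟨e, rfl⟩ := Nat.exists_eq_add_of_le hd2
    rw [show 2 + e - 2 = e by omega, pow_add]
    norm_num
  rw [h4] at hd
  have h5 : A * (d : ℝ) ^ 2 ≤ (|A| + 1) * (d : ℝ) ^ 2 :=
    mul_le_mul_of_nonneg_right (by have := le_abs_self A; linarith) (by positivity)
  nlinarith

theorem dcond (K M : ℕ) (κ g : ℝ) (hM : 1 ≤ M) (hκ : 0 < κ) (hg : 0 < g) :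
    ∃ d0 : ℕ, ∀ d ≥ d0, 3 ≤ d ∧ 4 * (800 * M * d) ^ 2 ≤ 2 ^ (4 * d) ∧
      2 * Real.exp 1 * K * (800 * M * d) * (2 : ℝ) ^ (2400 * M * d) ≤
        2 ^ (1000 * M * (4 * d - 2)) ∧
      2 * Real.exp 1 * K * (800 * M * d) * (2 : ℝ) ^ (24 * d) * Real.exp (1 - 100 * d) ≤ 1 ∧
      1600 * M * d + 3 ≤ 2 ^ (200 * M * d) ∧
      2 * (2 : ℝ) ^ (4 * d) * Real.exp (1 - 100 * d) ≤ 1 ∧
      8 * Real.exp 1 * K * M * κ * d ≤ 2 ^ (d - 2) ∧
      80 * M / g ≤ 2 ^ (4 * d) := by
  have hMR : (1 : ℝ) ≤ M := by exact_mod_cast hM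
  have he2 : (2 : ℝ) ≤ Real.exp 1 := by
    have := Real.add_one_le_exp (1 : ℝ)
    linarith
  have he3 : Real.exp 1 ≤ 3 := by
    have := Real.exp_one_lt_d9
    linarith
  have hexp : ∀ d : ℕ, 1 ≤ d → (2 : ℝ) ^ (24 * d) * Real.exp (1 - 100 * d) ≤
      3 / 2 ^ (76 * d) := by
    intro d _
    have h1 : Real.exp (1 - 100 * d) = Real.exp 1 / (Real.exp 1) ^ (100 * d) := by
      rw [Real.exp_sub, ← Real.exp_nat_mul]
      push_cast
      ring_nf
    have h2 : (2 : ℝ) ^ (100 * d) ≤ Real.exp 1 ^ (100 * d) :=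
      pow_le_pow_left₀ (by norm_num) he2 _
    have h3 : (0 : ℝ) < 2 ^ (100 * d) := by positivity
    rw [h1]
    calc (2 : ℝ) ^ (24 * d) * (Real.exp 1 / Real.exp 1 ^ (100 * d))
        ≤ (2 : ℝ) ^ (24 * d) * (3 / 2 ^ (100 * d)) := by
          apply mul_le_mul_of_nonneg_left _ (by positivity)
          exact div_le_div₀ (by norm_num) he3 h3 h2
      _ = 3 / 2 ^ (76 * d) := by
          have : (2 : ℝ) ^ (100 * d) = 2 ^ (24 * d) * 2 ^ (76 * d) := by
            rw [← pow_add]; congr 1; ring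
          rw [this]
          field_simp
  have hall : ∀ᶠ d : ℕ in atTop, 3 ≤ d ∧ 4 * (800 * M * d) ^ 2 ≤ 2 ^ (4 * d) ∧
      2 * Real.exp 1 * K * (800 * M * d) * (2 : ℝ) ^ (2400 * M * d) ≤
        2 ^ (1000 * M * (4 * d - 2)) ∧
      2 * Real.exp 1 * K * (800 * M * d) * (2 : ℝ) ^ (24 * d) * Real.exp (1 - 100 * d) ≤ 1 ∧
      1600 * M * d + 3 ≤ 2 ^ (200 * M * d) ∧
      2 * (2 : ℝ) ^ (4 * d) * Real.exp (1 - 100 * d) ≤ 1 ∧
      8 * Real.exp 1 * K * M * κ * d ≤ 2 ^ (d - 2) ∧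
      80 * M / g ≤ 2 ^ (4 * d) := by
    filter_upwards [eventually_ge_atTop 3, ev_sq (4 * (800 * M) ^ 2),
      ev_sq (2 * 3 * K * (800 * M) * 2 ^ (2000 * M)), ev_sq (2 * 3 * K * (800 * M) * 3),
      ev_sq 1603, ev_sq (8 * 3 * K * M * κ), ev_sq (80 * M / g)]
      with d h3 e2 e3 e4 e5 e7 e8
    have hd1 : (1 : ℝ) ≤ d := by exact_mod_cast (by omega : 1 ≤ d)
    have hdd : (d : ℝ) ≤ (d : ℝ) ^ 2 := by nlinarith
    have hpow : ∀ e : ℕ, d - 2 ≤ e → (2 : ℝ) ^ (d - 2) ≤ 2 ^ e := fun e he =>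
      pow_le_pow_right₀ (by norm_num) he
    have hMd : d ≤ M * d := Nat.le_mul_of_pos_left d hM
    refine ⟨h3, ?_, ?_, ?_, ?_, ?_, ?_, ?_⟩
    · have : (4 * (800 * M * d) ^ 2 : ℝ) ≤ 2 ^ (4 * d) := by
        refine le_trans ?_ (e2.trans (hpow _ (by omega)))
        nlinarith
      exact_mod_cast this
    · have h1 : (2 : ℝ) ^ (1000 * M * (4 * d - 2)) * 2 ^ (2000 * M) =
          2 ^ (2400 * M * d) * 2 ^ (1600 * M * d) := by
        rw [← pow_add, ← pow_add]
        congr 1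
        obtain ⟨e, rfl⟩ : ∃ e, d = e + 1 := ⟨d - 1, by omega⟩
        have : 4 * (e + 1) - 2 = 4 * e + 2 := by omega
        rw [this]; ring
      have h2 : (0 : ℝ) < 2 ^ (2000 * M) := by positivity
      have h3' : 2 * Real.exp 1 * K * (800 * M * d) * 2 ^ (2000 * M) ≤
          (2 : ℝ) ^ (1600 * M * d) := by
        refine le_trans ?_ (e3.trans (hpow _ (by
          have : 1600 * M * d = 1600 * (M * d) := by ring
          omega)))
        calc 2 * Real.exp 1 * K * (800 * M * d) * 2 ^ (2000 * M)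
            ≤ 2 * 3 * K * (800 * M * d) * 2 ^ (2000 * M) := by
              gcongr
          _ = 2 * 3 * K * (800 * M) * 2 ^ (2000 * M) * d := by ring
          _ ≤ 2 * 3 * K * (800 * M) * 2 ^ (2000 * M) * (d : ℝ) ^ 2 := by
              apply mul_le_mul_of_nonneg_left hdd (by positivity)
      have h4 : (2 * Real.exp 1 * K * (800 * M * d) * (2 : ℝ) ^ (2400 * M * d)) *
          2 ^ (2000 * M) ≤ 2 ^ (1000 * M * (4 * d - 2)) * 2 ^ (2000 * M) := by
        rw [h1]
        calc (2 * Real.exp 1 * K * (800 * M * d) * (2 : ℝ) ^ (2400 * M * d)) * 2 ^ (2000 * M)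
            = 2 ^ (2400 * M * d) *
              (2 * Real.exp 1 * K * (800 * M * d) * 2 ^ (2000 * M)) := by ring
          _ ≤ 2 ^ (2400 * M * d) * 2 ^ (1600 * M * d) :=
              mul_le_mul_of_nonneg_left h3' (by positivity)
      exact le_of_mul_le_mul_right h4 h2
    · have h1 := hexp d (by omega)
      have h2 : (2 : ℝ) * 3 * K * (800 * M) * 3 * d ≤ 2 ^ (76 * d) := by
        refine le_trans ?_ (e4.trans (hpow _ (by omega)))
        exact mul_le_mul_of_nonneg_left hdd (by positivity)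
      calc 2 * Real.exp 1 * K * (800 * M * d) * (2 : ℝ) ^ (24 * d) * Real.exp (1 - 100 * d)
          = (2 * Real.exp 1 * K * (800 * M * d)) *
            ((2 : ℝ) ^ (24 * d) * Real.exp (1 - 100 * d)) := by ring
        _ ≤ (2 * 3 * K * (800 * M * d)) * (3 / 2 ^ (76 * d)) := by
            gcongr
        _ = (2 * 3 * K * (800 * M) * 3 * d) / 2 ^ (76 * d) := by ring
        _ ≤ 1 := by rw [div_le_one (by positivity)]; exact h2
    · have h1 : (1600 * M * d + 3 : ℝ) ≤ 2 ^ (200 * M * d) := by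
        have h2 : ((M * d : ℕ) : ℝ) ≥ 1 := by exact_mod_cast Nat.mul_pos hM (by omega)
        have h3' : ∀ x : ℕ, (8 * (200 * (x + 1)) + 3 : ℝ) ≤ 2 ^ (200 * (x + 1)) := by
          intro x
          induction x with
          | zero => norm_num
          | succ x ih =>
            have e1 : (2 : ℝ) ^ (200 * (x + 1 + 1)) = 2 ^ (200 * (x + 1)) * 2 ^ 200 := by
              rw [← pow_add]; congr 1
            have e2' : (2 : ℝ) ≤ 2 ^ 200 := by norm_num
            have e3' : (1603 : ℝ) ≤ 2 ^ (200 * (x + 1)) := by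
              have : (0 : ℝ) ≤ x := by positivity
              linarith
            have e4' : (0 : ℝ) < 2 ^ (200 * (x + 1)) := by positivity
            rw [e1]
            push_cast at ih ⊢
            nlinarith
        obtain ⟨y, hy⟩ : ∃ y, M * d = y + 1 := ⟨M * d - 1, by
          have := Nat.mul_pos hM (show 0 < d by omega); omega⟩
        have h4 := h3' y
        have h5 : 200 * (y + 1) = 200 * M * d := by rw [← hy]; ring
        rw [h5] at h4
        have h6 : ((y : ℝ) + 1) = M * d := by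
          have : ((y + 1 : ℕ) : ℝ) = ((M * d : ℕ) : ℝ) := by rw [hy]
          push_cast at this
          exact this
        rw [h6] at h4
        linarith
      exact_mod_cast h1
    · have h1 := hexp d (by omega)
      have h2 : (2 : ℝ) ^ (4 * d) ≤ 2 ^ (24 * d) := pow_le_pow_right₀ (by norm_num) (by omega)
      have h3' : (6 : ℝ) ≤ 2 ^ (76 * d) := by
        calc (6 : ℝ) ≤ 2 ^ 3 := by norm_num
          _ ≤ 2 ^ (76 * d) := pow_le_pow_right₀ (by norm_num) (by omega)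
      calc 2 * (2 : ℝ) ^ (4 * d) * Real.exp (1 - 100 * d)
          ≤ 2 * (2 ^ (24 * d) * Real.exp (1 - 100 * d)) := by
            have := mul_le_mul_of_nonneg_right h2 (Real.exp_pos (1 - 100 * (d : ℝ))).le
            linarith
        _ ≤ 2 * (3 / 2 ^ (76 * d)) := by linarith
        _ = 6 / 2 ^ (76 * d) := by ring
        _ ≤ 1 := by rw [div_le_one (by positivity)]; exact h3'
    · refine le_trans ?_ e7
      calc 8 * Real.exp 1 * K * M * κ * d ≤ 8 * 3 * K * M * κ * d := by gcongr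
        _ ≤ 8 * 3 * K * M * κ * (d : ℝ) ^ 2 := mul_le_mul_of_nonneg_left hdd (by positivity)
    · refine le_trans ?_ (e8.trans (hpow _ (by omega)))
      have h0 : 0 ≤ 80 * M / g := by positivity
      nlinarith
  rw [eventually_atTop] at hall
  exact hall

end H542.RK
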