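import Mathlib
import Pool.Agent.H542R2.RK.Param

set_option autoImplicit false

/-!
Consequences of the choice of the parameters.
-/

namespace H542.RK

theorem two_mul_le_pow (k : ℕ) : k + 1 ≤ 2 ^ k := Nat.lt_two_pow_self

theorem kfacts (K M k d : ℕ) (hM : 1 ≤ M) (d1 : 3 ≤ d)
    (d2 : 4 * (800 * M * d) ^ 2 ≤ 2 ^ (4 * d))
    (d3 : 2 * Real.exp 1 * K * (800 * M * d) * (2 : ℝ) ^ (2400 * M * d) ≤
        2 ^ (1000 * M * (4 * d - 2)))
    (d4 : 2 * Real.exp 1 * K * (800 * M * d) * (2 : ℝ) ^ (24 * d) * Real.exp (1 - 100 * d) ≤ 1)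
    (d5 : 1600 * M * d + 3 ≤ 2 ^ (200 * M * d))
    (d6 : 2 * (2 : ℝ) ^ (4 * d) * Real.exp (1 - 100 * d) ≤ 1)
    (h1 : 400 * M * d ≤ k) (h2 : k ≤ 800 * M * d) :
    5 * (4 * d) ≤ k ∧ 4 * k ^ 2 ≤ 2 ^ (4 * d) ∧
    2 * Real.exp 1 * K * k * (2 * Real.exp 1) ^ k ≤ ((2 : ℝ) ^ (1000 * M)) ^ (4 * d - 2) ∧
    (∀ N n : ℕ, 1 ≤ N → N ≤ 2 * n * M → n ≤ N →
      2 * Real.exp 1 * K * k * 2 ^ k * 2 ^ (4 * d) * (1 - (n : ℝ) / (2 * N)) ^ (k - 1) ≤
        ((2 ^ (k - 5 * (4 * d)) : ℕ) : ℝ)) ∧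
    2 * Real.exp 1 * ((4 ^ k : ℕ) : ℝ) ≤ 2 ^ (2 ^ (k - 5 * (4 * d))) ∧
    (∀ N n : ℕ, 1 ≤ N → N ≤ 2 * n * M → n ≤ N →
      2 * ((2 : ℝ) ^ (4 * d) * (2 * N - n) ^ k) ≤ (2 * N) ^ k) ∧
    2 * (k * 2 ^ (1000 * M)) ≤ 4 ^ k ∧
    2 * (k + 1) * 2 ^ (4 * d) ≤ 4 ^ k := by
  have hMd : d ≤ M * d := Nat.le_mul_of_pos_left d hM
  have hMR : (1 : ℝ) ≤ M := by exact_mod_cast hM
  have e400 : 400 * M * d = 400 * (M * d) := by ring
  have hk400 : 400 * d ≤ k := by omega
  have hk1 : 1 ≤ k := by omega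
  have hkR : (k : ℝ) ≤ 800 * M * d := by exact_mod_cast h2
  have he3 : Real.exp 1 ≤ 3 := by
    have := Real.exp_one_lt_d9
    linarith
  have hdecay : ∀ N n : ℕ, 1 ≤ N → N ≤ 2 * n * M → n ≤ N → ∀ e : ℕ, k - 1 ≤ e →
      (1 - (n : ℝ) / (2 * N)) ^ e ≤ Real.exp (1 - 100 * d) := by
    intro N n hN hnM hnN e he
    have hNR : (0 : ℝ) < N := by exact_mod_cast hN
    have hnR : (n : ℝ) ≤ N := by exact_mod_cast hnN
    have hq : 1 / (4 * M) ≤ (n : ℝ) / (2 * N) := by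
      rw [div_le_div_iff₀ (by positivity) (by positivity)]
      have : (N : ℝ) ≤ 2 * n * M := by exact_mod_cast hnM
      nlinarith
    have hq1 : (n : ℝ) / (2 * N) ≤ 1 := by
      rw [div_le_one (by positivity)]
      linarith
    have hstep : 1 - (n : ℝ) / (2 * N) ≤ Real.exp (-(1 / (4 * M))) := by
      have := Real.add_one_le_exp (-(1 / (4 * (M : ℝ))))
      linarith
    calc (1 - (n : ℝ) / (2 * N)) ^ e ≤ (Real.exp (-(1 / (4 * M)))) ^ e :=
          pow_le_pow_left₀ (by linarith) hstep _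
      _ = Real.exp (-(e / (4 * M))) := by
          rw [← Real.exp_nat_mul]
          congr 1
          ring
      _ ≤ Real.exp (1 - 100 * d) := by
          apply Real.exp_le_exp.mpr
          have h3 : (400 * M * d : ℝ) ≤ e + 1 := by
            have : 400 * M * d ≤ e + 1 := by omega
            exact_mod_cast this
          have h4 : (100 * d - 1 : ℝ) * (4 * M) ≤ e := by nlinarith
          have h5 : (100 * d - 1 : ℝ) ≤ e / (4 * M) := by
            rw [le_div_iff₀ (by positivity)]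
            exact h4
          linarith
  refine ⟨by omega, ?_, ?_, ?_, ?_, ?_, ?_, ?_⟩
  · refine le_trans ?_ d2
    exact Nat.mul_le_mul_left 4 (Nat.pow_le_pow_left h2 2)
  · rw [← pow_mul]
    refine le_trans ?_ d3
    have h3 : (2 * Real.exp 1) ^ k ≤ (2 : ℝ) ^ (2400 * M * d) := by
      calc (2 * Real.exp 1) ^ k ≤ ((2 : ℝ) ^ 3) ^ k :=
            pow_le_pow_left₀ (by positivity) (by linarith) _
        _ = (2 : ℝ) ^ (3 * k) := by rw [← pow_mul]
        _ ≤ (2 : ℝ) ^ (2400 * M * d) := by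
            apply pow_le_pow_right₀ (by norm_num)
            have : 2400 * M * d = 3 * (800 * M * d) := by ring
            omega
    have h4 : 2 * Real.exp 1 * K * k ≤ 2 * Real.exp 1 * K * (800 * M * d) :=
      mul_le_mul_of_nonneg_left hkR (by positivity)
    exact mul_le_mul h4 h3 (by positivity) (by positivity)
  · intro N n hN hnM hnN
    have h3 := hdecay N n hN hnM hnN (k - 1) le_rfl
    have h5 : (2 : ℝ) ^ k * 2 ^ (4 * d) = 2 ^ (k - 5 * (4 * d)) * 2 ^ (24 * d) := by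
      rw [← pow_add, ← pow_add]
      congr 1
      omega
    push_cast
    calc 2 * Real.exp 1 * K * k * 2 ^ k * 2 ^ (4 * d) * (1 - (n : ℝ) / (2 * N)) ^ (k - 1)
        ≤ 2 * Real.exp 1 * K * k * 2 ^ k * 2 ^ (4 * d) * Real.exp (1 - 100 * d) :=
          mul_le_mul_of_nonneg_left h3 (by positivity)
      _ = 2 * Real.exp 1 * K * k * (2 ^ k * 2 ^ (4 * d)) * Real.exp (1 - 100 * d) := by ring
      _ = 2 ^ (k - 5 * (4 * d)) *
          (2 * Real.exp 1 * K * k * 2 ^ (24 * d) * Real.exp (1 - 100 * d)) := by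
          rw [h5]; ring
      _ ≤ 2 ^ (k - 5 * (4 * d)) * (2 * Real.exp 1 * K * (800 * M * d) * 2 ^ (24 * d) *
          Real.exp (1 - 100 * d)) := by
          gcongr
      _ ≤ 2 ^ (k - 5 * (4 * d)) * 1 := mul_le_mul_of_nonneg_left d4 (by positivity)
      _ = 2 ^ (k - 5 * (4 * d)) := mul_one _
  · have h3 : 2 * k + 3 ≤ 2 ^ (k - 5 * (4 * d)) := by
      calc 2 * k + 3 ≤ 1600 * M * d + 3 := by
            have : 1600 * M * d = 2 * (800 * M * d) := by ring
            omega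
        _ ≤ 2 ^ (200 * M * d) := d5
        _ ≤ 2 ^ (k - 5 * (4 * d)) := by
            apply Nat.pow_le_pow_right (by norm_num)
            have : 200 * M * d = 200 * (M * d) := by ring
            omega
    calc 2 * Real.exp 1 * ((4 ^ k : ℕ) : ℝ) ≤ 2 ^ 3 * ((4 ^ k : ℕ) : ℝ) := by
          apply mul_le_mul_of_nonneg_right _ (by positivity)
          linarith
      _ = (2 : ℝ) ^ (2 * k + 3) := by
          push_cast
          rw [pow_add, pow_mul]
          norm_num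
          ring
      _ ≤ 2 ^ (2 ^ (k - 5 * (4 * d))) := pow_le_pow_right₀ (by norm_num) h3
  · intro N n hN hnM hnN
    have hNR : (0 : ℝ) < N := by exact_mod_cast hN
    have h3 := hdecay N n hN hnM hnN k (by omega)
    have h4 : (2 * (N : ℝ) - n) ^ k = (2 * N) ^ k * (1 - (n : ℝ) / (2 * N)) ^ k := by
      rw [← mul_pow]
      congr 1
      field_simp
    rw [h4]
    calc 2 * ((2 : ℝ) ^ (4 * d) * ((2 * N) ^ k * (1 - (n : ℝ) / (2 * N)) ^ k))
        = (2 * N) ^ k * (2 * (2 : ℝ) ^ (4 * d) * (1 - (n : ℝ) / (2 * N)) ^ k) := by ring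
      _ ≤ (2 * N) ^ k * (2 * (2 : ℝ) ^ (4 * d) * Real.exp (1 - 100 * d)) := by
          gcongr
      _ ≤ (2 * N) ^ k * 1 := mul_le_mul_of_nonneg_left d6 (by positivity)
      _ = (2 * N) ^ k := mul_one _
  · have h3 : 2 ^ (1000 * M) ≤ 2 ^ (k - 1) := by
      apply Nat.pow_le_pow_right (by norm_num)
      have : 400 * M * 3 ≤ 400 * M * d := Nat.mul_le_mul_left _ d1
      omega
    have h4 := two_mul_le_pow k
    calc 2 * (k * 2 ^ (1000 * M)) ≤ 2 * (2 ^ k * 2 ^ (k - 1)) := by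
          apply Nat.mul_le_mul_left
          exact Nat.mul_le_mul (by omega) h3
      _ = 2 ^ k * (2 * 2 ^ (k - 1)) := by ring
      _ = 2 ^ k * 2 ^ k := by
          congr 1
          rw [← pow_succ', show k - 1 + 1 = k by omega]
      _ = 4 ^ k := by rw [← mul_pow]; norm_num
  · have h4 := two_mul_le_pow k
    calc 2 * (k + 1) * 2 ^ (4 * d) ≤ 2 * 2 ^ k * 2 ^ (4 * d) := by
          apply Nat.mul_le_mul_right
          exact Nat.mul_le_mul_left 2 h4
      _ = 2 ^ k * 2 ^ (4 * d + 1) := by rw [pow_succ]; ring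
      _ ≤ 2 ^ k * 2 ^ k := by
          apply Nat.mul_le_mul_left
          apply Nat.pow_le_pow_right (by norm_num)
          omega
      _ = 4 ^ k := by rw [← mul_pow]; norm_num

end H542.RK
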