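import Pool.Agent.H542R2.RK.Defs

set_option autoImplicit false

namespace H542.RK.P

open Finset H542.RK

variable {k N m n : ℕ}

/-- ALC -/
theorem al_card {M : ℕ} (hM : 1 ≤ M) (hnM : n * M ≤ N) (J : Fin n → Fin M) :
    (al J : Finset (Fin N)).card = n := by
  have hlt : ∀ i : Fin n, i.val * M + (J i).val < N := by
    intro i
    have h1 := (J i).isLt
    have h2 : (i.val + 1) * M ≤ n * M := Nat.mul_le_mul_right M i.isLt
    rw [add_mul, one_mul] at h2
    omega
  have hdiv : ∀ i : Fin n, (i.val * M + (J i).val) / M = i.val := by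
    intro i
    rw [mul_comm, Nat.mul_add_div (by omega), Nat.div_eq_of_lt (J i).isLt, add_zero]
  have hmod : ∀ i : Fin n, (i.val * M + (J i).val) % M = (J i).val := by
    intro i
    rw [mul_comm, Nat.mul_add_mod, Nat.mod_eq_of_lt (J i).isLt]
  have heq : (al J : Finset (Fin N)) = univ.image (fun i : Fin n => (⟨i.val * M + (J i).val, hlt i⟩ : Fin N)) := by
    ext v
    rw [al, mem_filter, mem_image]
    constructor
    · rintro ⟨_, h, hv⟩
      refine ⟨⟨v.val / M, h⟩, mem_univ _, ?_⟩
      apply Fin.ext
      have := Nat.div_add_mod v.val M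
      rw [mul_comm] at this
      simp only
      rw [← hv]; exact this
    · rintro ⟨i, _, rfl⟩
      refine ⟨mem_univ _, ?_⟩
      have h1 := hdiv i
      have h2 := hmod i
      refine ⟨by simp only [h1]; exact i.isLt, ?_⟩
      simp only [h1, h2]
  rw [heq, card_image_of_injective, card_univ, Fintype.card_fin]
  intro i j hij
  have h1 := congrArg Fin.val hij
  simp only at h1
  have h2 := hdiv i
  rw [h1, hdiv j] at h2
  exact Fin.ext h2.symm

end H542.RK.P
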