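import Mathlib

set_option autoImplicit false

/-!
Random k-CNF formulas: definitions used in the lower bound for refutations with lines of
linear size.
-/

namespace H542.RK

open Finset

/-- clauses with `k` literals over `N` variables; the literal `(x, s)` says that `x` has the
value `s` -/
abbrev Cl (k N : ℕ) := Fin k → Fin N × Bool

variable {k N m : ℕ}

/-- number of positions of the clause whose variable is alive (lies in `A`) -/
def na (A : Finset (Fin N)) (c : Cl k N) : ℕ := (univ.filter fun i => (c i).1 ∈ A).card

/-- every clause with fewer than `t` alive positions is satisfied by `x` in a dead position -/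
def G1 (A : Finset (Fin N)) (t : ℕ) (x : Fin N → Bool) (φ : Fin m → Cl k N) : Prop :=
  ∀ c, na A (φ c) < t → ∃ i, (φ c i).1 ∉ A ∧ x (φ c i).1 = (φ c i).2

/-- residual clauses: at least `t` alive positions and not satisfied by `x` in a dead position -/
def Res (A : Finset (Fin N)) (t : ℕ) (x : Fin N → Bool) (c : Cl k N) : Prop :=
  t ≤ na A c ∧ ∀ i, (c i).1 ∉ A → x (c i).1 ≠ (c i).2

/-- `t` chosen alive positions -/
noncomputable def pos (A : Finset (Fin N)) (t : ℕ) (c : Cl k N) : Finset (Fin k) :=
  if h : t ≤ (univ.filter fun i => (c i).1 ∈ A).card then (exists_subset_card_eq h).choose else ∅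

/-- the variables in the chosen alive positions -/
noncomputable def vs (A : Finset (Fin N)) (t : ℕ) (c : Cl k N) : Finset (Fin N) :=
  (pos A t c).image fun i => (c i).1

/-- expansion of the residual clauses -/
def G2 (A : Finset (Fin N)) (t d u0 : ℕ) (x : Fin N → Bool) (φ : Fin m → Cl k N) : Prop :=
  ∀ S : Finset (Fin m), S.card ≤ u0 → (∀ c ∈ S, Res A t x (φ c)) →
    3 * d * S.card ≤ (S.biUnion fun c => vs A t (φ c)).card

/-- variables of a clause -/
def vars (c : Cl k N) : Finset (Fin N) := univ.image fun i => (c i).1

/-- expansion of the whole formula -/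
def Ex (r smax : ℕ) (φ : Fin m → Cl k N) : Prop :=
  ∀ S : Finset (Fin m), S.card ≤ smax → (k - r) * S.card ≤ (S.biUnion fun c => vars (φ c)).card

/-- no set of `h` variables meets `h * D` clauses with fewer than `t` alive positions -/
def Dg (A : Finset (Fin N)) (t h D : ℕ) (φ : Fin m → Cl k N) : Prop :=
  ∀ T : Finset (Fin N), T.card = h →
    (univ.filter fun c => na A (φ c) < t ∧ ∃ i, (φ c i).1 ∈ T).card < h * D

/-- the blocks: block `i` consists of the variables `i * M + j`, `j < M`; the remaining
variables `≥ n * M` are always dead.  `J` chooses the alive variable of every block. -/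
def al {n M : ℕ} (J : Fin n → Fin M) : Finset (Fin N) :=
  univ.filter fun v => ∃ h : v.val / M < n, v.val % M = (J ⟨v.val / M, h⟩).val

/-- the assignment given by the values `y` of the alive variables and the values `x` of the dead
ones -/
def rst {n M : ℕ} (J : Fin n → Fin M) (x : Fin N → Bool) (y : Fin n → Bool) (v : Fin N) : Bool :=
  if h : v.val / M < n then
    (if v.val % M = (J ⟨v.val / M, h⟩).val then y ⟨v.val / M, h⟩ else x v)
  else x v

end H542.RK
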