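import Mathlib
import Pool.Agent.H542R2.DTree

set_option autoImplicit false

/-!
Local consistency for systems with expansion factor `2 * d`, rows indexed by any type, and the
impossibility of semantic refutations whose lines have small decision tree depth.
-/

namespace H542.RK

open Finset

variable {κ : Type} [DecidableEq κ] {n : ℕ}

/-- `0` iff the equation `v` of the system is satisfied by `β` -/
def valk (R : κ → Fin n → ZMod 2) (b : κ → ZMod 2) (β : Fin n → ZMod 2) (v : κ) : ZMod 2 :=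
  b v + ∑ i, R v i * β i

/-- expansion of the supports of sums of few equations -/
def Expk (R : κ → Fin n → ZMod 2) (d u0 : ℕ) : Prop :=
  ∀ U : Finset κ, U.card ≤ u0 →
    2 * d * U.card ≤ (univ.filter fun i => ∑ v ∈ U, R v i ≠ 0).card

/-- local consistency of an assignment on the set `W` -/
def LCk (R : κ → Fin n → ZMod 2) (b : κ → ZMod 2) (u0 : ℕ) (W : Finset (Fin n))
    (β : Fin n → ZMod 2) : Prop :=
  ∀ U : Finset κ, U.card ≤ u0 → (∀ i, i ∉ W → ∑ v ∈ U, R v i = 0) →
    ∑ v ∈ U, valk R b β v = 0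

omit [DecidableEq κ] in
theorem sum_valk (R : κ → Fin n → ZMod 2) (b : κ → ZMod 2) (β : Fin n → ZMod 2)
    (U : Finset κ) :
    ∑ v ∈ U, valk R b β v = ∑ v ∈ U, b v + ∑ i, (∑ v ∈ U, R v i) * β i := by
  unfold valk
  rw [sum_add_distrib, sum_comm]
  congr 1
  exact sum_congr rfl fun i _ => by rw [sum_mul]

omit [DecidableEq κ] in
theorem LCk.mono {R : κ → Fin n → ZMod 2} {b : κ → ZMod 2} {u0 : ℕ}
    {W W' : Finset (Fin n)} {β : Fin n → ZMod 2} (h : LCk R b u0 W β) (hW : W' ⊆ W) :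
    LCk R b u0 W' β :=
  fun U hU hs => h U hU fun i hi => hs i fun hi' => hi (hW hi')

omit [DecidableEq κ] in
theorem LCk_empty {R : κ → Fin n → ZMod 2} {b : κ → ZMod 2} {d u0 : ℕ} (hd : 1 ≤ d)
    (hR : Expk R d u0) (β : Fin n → ZMod 2) : LCk R b u0 ∅ β := by
  intro U hU hs
  have h1 := hR U hU
  have h2 : (univ.filter fun i => ∑ v ∈ U, R v i ≠ 0) = ∅ := by
    ext i
    simp [hs i (notMem_empty i)]
  rw [h2, card_empty] at h1
  have h3 : U = ∅ := by
    apply card_eq_zero.mp
    have : 2 * d * U.card = 0 := by omega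
    rcases Nat.mul_eq_zero.mp this with h | h
    · omega
    · exact h
  simp [h3]

theorem zmod2_ne_zero' {x : ZMod 2} (h : x ≠ 0) : x = 1 := by
  revert h; revert x; decide

theorem sum_symmDiff3 {ι : Type*} [DecidableEq ι] (A B : Finset ι) (f : ι → ZMod 2) :
    ∑ v ∈ symmDiff A B, f v = ∑ v ∈ A, f v + ∑ v ∈ B, f v := by
  have h1 : ∑ v ∈ symmDiff A B, f v = ∑ v ∈ A \ B, f v + ∑ v ∈ B \ A, f v := by
    rw [symmDiff_def, sup_eq_union, sum_union]
    exact disjoint_sdiff_sdiff
  have h2 : ∑ v ∈ A, f v = ∑ v ∈ A \ B, f v + ∑ v ∈ A ∩ B, f v := by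
    rw [← sum_union (disjoint_sdiff_inter A B), sdiff_union_inter]
  have h3 : ∑ v ∈ B, f v = ∑ v ∈ B \ A, f v + ∑ v ∈ A ∩ B, f v := by
    rw [inter_comm, ← sum_union (disjoint_sdiff_inter B A), sdiff_union_inter]
  rw [h1, h2, h3]
  have h4 : ∑ v ∈ A ∩ B, f v + ∑ v ∈ A ∩ B, f v = 0 := CharTwo.add_self_eq_zero _
  linear_combination -h4

theorem LCk.extend {R : κ → Fin n → ZMod 2} {b : κ → ZMod 2} {d u0 : ℕ} (hd : 1 ≤ d)
    (hR : Expk R d u0) {W : Finset (Fin n)} {β : Fin n → ZMod 2} (h : LCk R b u0 W β)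
    (i : Fin n) (hW : W.card + 1 ≤ d * u0) :
    ∃ β' : Fin n → ZMod 2, (∀ j ∈ W, β' j = β j) ∧ LCk R b u0 (insert i W) β' := by
  by_cases hi : i ∈ W
  · exact ⟨β, fun _ _ => rfl, by rwa [insert_eq_of_mem hi]⟩
  by_contra hcon
  push Not at hcon
  have hsmall : ∀ U : Finset κ, U.card ≤ u0 →
      (∀ j, j ∉ insert i W → ∑ v ∈ U, R v j = 0) → 2 * U.card ≤ u0 := by
    intro U hU hs
    have h1 := hR U hU
    have h2 : (univ.filter fun i => ∑ v ∈ U, R v i ≠ 0) ⊆ insert i W := by
      intro j hj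
      by_contra hj'
      exact (mem_filter.mp hj).2 (hs j hj')
    have h3 := card_le_card h2
    rw [card_insert_of_notMem hi] at h3
    have h4 : d * (2 * U.card) ≤ d * u0 := by nlinarith
    exact Nat.le_of_mul_le_mul_left h4 (by omega)
  have c0 := hcon β (fun _ _ => rfl)
  have c1 := hcon (Function.update β i (β i + 1)) (fun j hj => by
    have : j ≠ i := fun e => hi (e ▸ hj)
    simp [this])
  unfold LCk at c0 c1
  push Not at c0 c1
  obtain ⟨U0, hU0, hs0, hv0⟩ := c0
  obtain ⟨U1, hU1, hs1, hv1⟩ := c1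
  have k0 := hsmall U0 hU0 hs0
  have k1 := hsmall U1 hU1 hs1
  have hsup : ∀ U : Finset κ, (∀ j, j ∉ insert i W → ∑ v ∈ U, R v j = 0) →
      ∑ v ∈ U, R v i = 0 → ∀ j, j ∉ W → ∑ v ∈ U, R v j = 0 := by
    intro U hs hi0 j hj
    by_cases hji : j = i
    · rw [hji]; exact hi0
    · exact hs j (by simp [hji, hj])
  have e0 : ∑ v ∈ U0, R v i = 1 := by
    apply zmod2_ne_zero'
    intro h0
    exact hv0 (h U0 hU0 (hsup U0 hs0 h0))
  have hval1 : ∑ v ∈ U1, valk R b (Function.update β i (β i + 1)) v =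
      ∑ v ∈ U1, valk R b β v + ∑ v ∈ U1, R v i := by
    rw [sum_valk, sum_valk]
    have : ∑ j, (∑ v ∈ U1, R v j) * Function.update β i (β i + 1) j =
        ∑ j, ((∑ v ∈ U1, R v j) * β j + if j = i then (∑ v ∈ U1, R v i) else 0) := by
      refine sum_congr rfl fun j _ => ?_
      by_cases hji : j = i
      · subst hji; simp; ring
      · simp [hji]
    rw [this, sum_add_distrib]
    simp
    ring
  have e1 : ∑ v ∈ U1, R v i = 1 := by
    apply zmod2_ne_zero'
    intro h0
    apply hv1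
    rw [hval1, h0, add_zero]
    exact h U1 hU1 (hsup U1 hs1 h0)
  have f0 := zmod2_ne_zero' hv0
  have f1 := zmod2_ne_zero' hv1
  rw [hval1, e1] at f1
  have f1' : ∑ v ∈ U1, valk R b β v = 0 := by
    have : ∑ v ∈ U1, valk R b β v + 1 - 1 = 0 := by rw [f1]; ring
    simpa using this
  have hcard : (symmDiff U0 U1).card ≤ u0 := by
    have : (symmDiff U0 U1) ⊆ U0 ∪ U1 := by
      intro v hv
      rw [mem_symmDiff] at hv
      rw [mem_union]
      tauto
    have h1 := card_le_card this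
    have h2 := card_union_le U0 U1
    omega
  have hfin := h (symmDiff U0 U1) hcard (by
    intro j hj
    rw [sum_symmDiff3]
    by_cases hji : j = i
    · subst hji; rw [e0, e1]; exact CharTwo.add_self_eq_zero _
    · rw [hs0 j (by simp [hji, hj]), hs1 j (by simp [hji, hj]), add_zero])
  rw [sum_symmDiff3, f0, f1'] at hfin
  simp at hfin

theorem LCk.extend_set {R : κ → Fin n → ZMod 2} {b : κ → ZMod 2} {d u0 : ℕ} (hd : 1 ≤ d)
    (hR : Expk R d u0) {W : Finset (Fin n)} {β : Fin n → ZMod 2} (h : LCk R b u0 W β)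
    (Q : Finset (Fin n)) (hW : (W ∪ Q).card ≤ d * u0) :
    ∃ β' : Fin n → ZMod 2, (∀ j ∈ W, β' j = β j) ∧ LCk R b u0 (W ∪ Q) β' := by
  induction Q using Finset.induction_on with
  | empty => exact ⟨β, fun _ _ => rfl, by simpa using h⟩
  | insert i Q hi ih =>
    have h1 : (W ∪ Q).card ≤ d * u0 :=
      (card_le_card (union_subset_union_right (subset_insert i Q))).trans hW
    obtain ⟨β1, hb1, hl1⟩ := ih h1
    by_cases hi' : i ∈ W ∪ Q
    · refine ⟨β1, hb1, ?_⟩
      rw [union_insert, insert_eq_of_mem hi']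
      exact hl1
    · rw [union_insert, card_insert_of_notMem hi'] at hW
      obtain ⟨β2, hb2, hl2⟩ := hl1.extend hd hR i hW
      refine ⟨β2, fun j hj => (hb2 j (mem_union_left _ hj)).trans (hb1 j hj), ?_⟩
      rwa [union_insert]

/-- Boolean assignment of a `ZMod 2` assignment -/
def bbk (β : Fin n → ZMod 2) (i : Fin n) : Bool := decide (β i = 1)

/-- bit as an element of `ZMod 2` -/
def bzk (b : Bool) : ZMod 2 := if b then 1 else 0

theorem bzk_decide (a : ZMod 2) : bzk (decide (a = 1)) = a := by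
  revert a; decide

/-- `g` can be certified by at most `h` coordinates from every locally consistent assignment -/
def CEk (R : κ → Fin n → ZMod 2) (b : κ → ZMod 2) (d u0 : ℕ)
    (g : (Fin n → Bool) → Bool) (h : ℕ) : Prop :=
  ∀ (W : Finset (Fin n)) (β : Fin n → ZMod 2), LCk R b u0 W β → W.card + h ≤ d * u0 →
    ∃ (W' : Finset (Fin n)) (β' : Fin n → ZMod 2), W ⊆ W' ∧ (∀ j ∈ W, β' j = β j) ∧
      LCk R b u0 W' β' ∧ W'.card ≤ W.card + h ∧ ∃ Wp ⊆ W', Wp.card ≤ h ∧
        ∀ y : Fin n → Bool, (∀ i ∈ Wp, y i = bbk β' i) → g y = g (bbk β')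

theorem CEk_of_DTd {R : κ → Fin n → ZMod 2} {b : κ → ZMod 2} {d u0 : ℕ} (hd : 1 ≤ d)
    (hR : Expk R d u0) {h : ℕ} {g : (Fin n → Bool) → Bool} (hg : DTd h g) :
    CEk R b d u0 g h := by
  induction h generalizing g with
  | zero =>
    intro W β hLC _
    exact ⟨W, β, Subset.rfl, fun _ _ => rfl, hLC, by simp, ∅, by simp, by simp,
      fun y _ => hg _ _⟩
  | succ h ih =>
    intro W β hLC hW
    rcases hg with hg | ⟨i, hi⟩
    · obtain ⟨W', β', h1, h2, h3, h4, Wp, h5, h6, h7⟩ := ih hg W β hLC (by omega)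
      exact ⟨W', β', h1, h2, h3, by omega, Wp, h5, by omega, h7⟩
    · obtain ⟨β1, hb1, hl1⟩ := hLC.extend hd hR i (by omega)
      have hc1 : (insert i W).card ≤ W.card + 1 := card_insert_le i W
      obtain ⟨W', β', h1, h2, h3, h4, Wp, h5, h6, h7⟩ := ih (hi (bbk β1 i)) (insert i W) β1 hl1
        (by omega)
      have hi' : bbk β' i = bbk β1 i := by
        unfold bbk
        rw [h2 i (mem_insert_self i W)]
      refine ⟨W', β', (subset_insert i W).trans h1, ?_, h3, by omega, insert i Wp, ?_, ?_, ?_⟩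
      · intro j hj
        rw [h2 j (mem_insert_of_mem hj), hb1 j hj]
      · exact insert_subset (h1 (mem_insert_self i W)) h5
      · exact (card_insert_le i Wp).trans (by omega)
      · intro y hy
        have e1 : ∀ y : Fin n → Bool, y i = bbk β1 i →
            g y = g (Function.update y i (bbk β1 i)) := by
          intro y hyi
          rw [← hyi, Function.update_eq_self]
        rw [e1 y ((hy i (mem_insert_self i Wp)).trans hi'), e1 (bbk β') hi']
        exact h7 y fun j hj => hy j (mem_insert_of_mem hj)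

/-- certifying finitely many functions one after the other -/
theorem CEk_family {R : κ → Fin n → ZMod 2} {b : κ → ZMod 2} {d u0 : ℕ}
    {ι : Type*} [DecidableEq ι] (g : ι → (Fin n → Bool) → Bool) (h : ℕ)
    (hCE : ∀ p, CEk R b d u0 (g p) h) {W : Finset (Fin n)} {β : Fin n → ZMod 2}
    (hLC : LCk R b u0 W β) (P : Finset ι) (hW : W.card + P.card * h ≤ d * u0) :
    ∃ (W' : Finset (Fin n)) (β' : Fin n → ZMod 2), W ⊆ W' ∧ (∀ j ∈ W, β' j = β j) ∧
      LCk R b u0 W' β' ∧ W'.card ≤ W.card + P.card * h ∧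
      (∀ p ∈ P, ∃ Wp ⊆ W', Wp.card ≤ h ∧ ∀ y : Fin n → Bool,
        (∀ i ∈ Wp, y i = bbk β' i) → g p y = g p (bbk β')) := by
  induction P using Finset.induction_on with
  | empty =>
    exact ⟨W, β, Subset.rfl, fun _ _ => rfl, hLC, by simp, by simp⟩
  | insert p P hp ih =>
    rw [card_insert_of_notMem hp] at hW
    obtain ⟨W1, β1, hW1, hb1, hl1, hc1, hq1⟩ := ih (by nlinarith)
    obtain ⟨W2, β2, hW2, hb2, hl2, hc2, Wp, hWp1, hWp2, hWp3⟩ := hCE p W1 β1 hl1 (by nlinarith)
    refine ⟨W2, β2, hW1.trans hW2, ?_, hl2, ?_, ?_⟩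
    · intro j hj
      rw [hb2 j (hW1 hj), hb1 j hj]
    · rw [card_insert_of_notMem hp]; nlinarith
    · intro q hq
      rcases mem_insert.mp hq with rfl | hq
      · exact ⟨Wp, hWp1, hWp2, hWp3⟩
      · obtain ⟨Wq, h1, h2, h3⟩ := hq1 q hq
        have hb : ∀ i ∈ Wq, bbk β2 i = bbk β1 i := by
          intro i hi
          unfold bbk
          rw [hb2 i (h1 hi)]
        refine ⟨Wq, h1.trans hW2, h2, fun y hy => ?_⟩
        rw [h3 y fun i hi => (hy i hi).trans (hb i hi), h3 (bbk β2) hb]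

omit [DecidableEq κ] in
theorem valk_bb (R : κ → Fin n → ZMod 2) (b : κ → ZMod 2) (β : Fin n → ZMod 2)
    (v : κ) : valk R b (fun i => bzk (bbk β i)) v = valk R b β v := by
  unfold valk bbk
  simp only [bzk_decide]

/-- No semantic refutation of an expanding system by lines of small decision tree depth. -/
theorem no_refk {R : κ → Fin n → ZMod 2} {b : κ → ZMod 2} {d u0 : ℕ} (hd : 1 ≤ d)
    (hR : Expk R d u0) (w : ℕ) (hw0 : 1 ≤ w)
    (hw : ∀ v, (univ.filter fun i => R v i ≠ 0).card ≤ w)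
    (a h : ℕ) (hah : (a + 1) * h + w ≤ d * u0) {S : ℕ} (g : Fin S → (Fin n → Bool) → Bool)
    (hdep : ∀ p, dep (g p) ≤ h)
    (hs : ∀ j, (∃ v, ∀ y : Fin n → Bool, ∑ i, R v i * bzk (y i) = b v → g j y = true) ∨
      ∃ P : Finset (Fin S), P.card ≤ a ∧ (∀ p ∈ P, p < j) ∧
        ∀ y, (∀ p ∈ P, g p y = true) → g j y = true) (j : Fin S) :
    ∃ y, g j y = true := by
  have hCE : ∀ p, CEk R b d u0 (g p) h := fun p =>
    CEk_of_DTd hd hR ((DTd_dep _).mono (hdep p))
  have hu0 : 1 ≤ u0 := by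
    by_contra hu
    have : u0 = 0 := by omega
    subst this
    omega
  have key : ∀ m : ℕ, ∀ j : Fin S, j.val = m → ∀ W : Finset (Fin n), ∀ β : Fin n → ZMod 2,
      W.card ≤ h → LCk R b u0 W β → ∃ y : Fin n → Bool, (∀ i ∈ W, y i = bbk β i) ∧
        g j y = true := by
    intro m
    induction m using Nat.strong_induction_on with
    | _ m ih =>
      intro j hj W β hWh hLC
      rcases hs j with ⟨v, hv⟩ | ⟨P, hPa, hPj, hP⟩
      · have hc : (W ∪ univ.filter fun i => R v i ≠ 0).card ≤ d * u0 := by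
          have h1 := card_union_le W (univ.filter fun i => R v i ≠ 0)
          have h2 := hw v
          nlinarith
        obtain ⟨β', hb', hl'⟩ := hLC.extend_set hd hR _ hc
        refine ⟨bbk β', fun i hi => by unfold bbk; rw [hb' i hi], hv (bbk β') ?_⟩
        have := hl' {v} (by rw [card_singleton]; exact hu0) (by
          intro i hi
          rw [sum_singleton]
          by_contra hne
          exact hi (mem_union_right _ (mem_filter.mpr ⟨mem_univ _, hne⟩)))
        rw [sum_singleton, ← valk_bb] at this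
        unfold valk at this
        have h2 : b v + b v = 0 := CharTwo.add_self_eq_zero _
        linear_combination this - h2
      · have hc : W.card + P.card * h ≤ d * u0 := by
          have : P.card * h ≤ a * h := Nat.mul_le_mul_right h hPa
          nlinarith
        obtain ⟨W', β', hWW, hb, hl, _, hq⟩ := CEk_family g h hCE hLC P hc
        refine ⟨bbk β', fun i hi => by unfold bbk; rw [hb i hi], hP (bbk β') ?_⟩
        intro p hp
        obtain ⟨Wp, hWp1, hWp2, hWp3⟩ := hq p hp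
        have hpj : p.val < m := by
          have := hPj p hp
          rw [← hj]; exact this
        obtain ⟨y, hy1, hy2⟩ := ih p.val hpj p rfl Wp β' hWp2 (hl.mono hWp1)
        rw [← hy2]
        exact (hWp3 y hy1).symm
  obtain ⟨y, _, hy⟩ := key j.val j rfl ∅ 0 (by simp) (LCk_empty hd hR 0)
  exact ⟨y, hy⟩

end H542.RK
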