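import Mathlib
import Pool.Agent.H542R2.RK.Defs
import Pool.Agent.H542R2.RK.Loc

set_option autoImplicit false

/-! Task DET (helper640): the deterministic part. -/

namespace H542.RK.P

open Finset

variable {k N m n : ℕ}

/-- the alive variable of block `i` -/
def DET_av {M : ℕ} (J : Fin n → Fin M) (hnM : n * M ≤ N) (i : Fin n) : Fin N :=
  ⟨i.val * M + (J i).val, by
    have h1 : (i.val + 1) * M ≤ n * M := Nat.mul_le_mul_right M i.isLt
    have h2 := (J i).isLt
    have h3 : (i.val + 1) * M = i.val * M + M := by ring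
    omega⟩

theorem DET_av_div {M : ℕ} (J : Fin n → Fin M) (hnM : n * M ≤ N) (i : Fin n) :
    (DET_av J hnM i).val / M = i.val := by
  have h2 := (J i).isLt
  have hM : 0 < M := by omega
  change (i.val * M + (J i).val) / M = i.val
  rw [mul_comm, Nat.mul_add_div hM, Nat.div_eq_of_lt h2, add_zero]

theorem DET_av_mod {M : ℕ} (J : Fin n → Fin M) (hnM : n * M ≤ N) (i : Fin n) :
    (DET_av J hnM i).val % M = (J i).val := by
  have h2 := (J i).isLt
  change (i.val * M + (J i).val) % M = (J i).val
  rw [mul_comm, Nat.mul_add_mod, Nat.mod_eq_of_lt h2]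

theorem DET_av_inj {M : ℕ} (J : Fin n → Fin M) (hnM : n * M ≤ N) :
    Function.Injective (DET_av J hnM) := by
  intro i i' h
  apply Fin.ext
  rw [← DET_av_div J hnM i, ← DET_av_div J hnM i', h]

theorem DET_mem_al {M : ℕ} (J : Fin n → Fin M) (hnM : n * M ≤ N) (v : Fin N) :
    v ∈ al J ↔ ∃ i, v = DET_av J hnM i := by
  unfold al
  rw [mem_filter]
  constructor
  · rintro ⟨_, h, hv⟩
    refine ⟨⟨v.val / M, h⟩, Fin.ext ?_⟩
    change v.val = v.val / M * M + (J ⟨v.val / M, h⟩).val
    rw [← hv, mul_comm]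
    exact (Nat.div_add_mod _ _).symm
  · rintro ⟨i, rfl⟩
    have h1 : (DET_av J hnM i).val / M < n := by rw [DET_av_div]; exact i.isLt
    refine ⟨mem_univ _, h1, ?_⟩
    rw [DET_av_mod]
    have : (⟨(DET_av J hnM i).val / M, h1⟩ : Fin n) = i := Fin.ext (DET_av_div J hnM i)
    rw [this]

theorem DET_rst_av {M : ℕ} (J : Fin n → Fin M) (hnM : n * M ≤ N) (x : Fin N → Bool)
    (y : Fin n → Bool) (i : Fin n) : rst J x y (DET_av J hnM i) = y i := by
  have h1 : (DET_av J hnM i).val / M < n := by rw [DET_av_div]; exact i.isLt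
  have h2 : (⟨(DET_av J hnM i).val / M, h1⟩ : Fin n) = i := Fin.ext (DET_av_div J hnM i)
  unfold rst
  rw [dif_pos h1, h2, if_pos (DET_av_mod J hnM i)]

theorem DET_rst_dead {M : ℕ} (J : Fin n → Fin M) (x : Fin N → Bool) (y : Fin n → Bool)
    (v : Fin N) (hv : v ∉ al J) : rst J x y v = x v := by
  unfold rst
  by_cases h : v.val / M < n
  · rw [dif_pos h, if_neg]
    intro h2
    apply hv
    unfold al
    rw [mem_filter]
    exact ⟨mem_univ _, h, h2⟩
  · rw [dif_neg h]

theorem DET_pos_card (A : Finset (Fin N)) (t : ℕ) (c : Cl k N) : (pos A t c).card ≤ t := by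
  unfold pos
  split_ifs with h
  · exact (exists_subset_card_eq h).choose_spec.2.le
  · simp

theorem DET_pos_alive (A : Finset (Fin N)) (t : ℕ) (c : Cl k N) {i : Fin k}
    (hi : i ∈ pos A t c) : (c i).1 ∈ A := by
  unfold pos at hi
  split_ifs at hi with h
  · exact (mem_filter.1 ((exists_subset_card_eq h).choose_spec.1 hi)).2
  · simp at hi

theorem DET_vs_card (A : Finset (Fin N)) (t : ℕ) (c : Cl k N) : (vs A t c).card ≤ t :=
  card_image_le.trans (DET_pos_card A t c)

theorem DET_vs_sub (A : Finset (Fin N)) (t : ℕ) (c : Cl k N) : vs A t c ⊆ A := by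
  intro v hv
  unfold vs at hv
  rw [mem_image] at hv
  obtain ⟨i, hi, rfl⟩ := hv
  exact DET_pos_alive A t c hi

/-- DET: the deterministic part.  Uses `no_refk` of RK/Loc.lean. -/
theorem det {M : ℕ} (J : Fin n → Fin M) (hM : 1 ≤ M) (hnM : n * M ≤ N) (x : Fin N → Bool)
    (φ : Fin m → Cl k N) (t d u0 a h : ℕ) (hd : 1 ≤ d) (ht : t = 4 * d)
    (hah : (a + 1) * h + t ≤ d * u0) (hG1 : G1 (al J) t x φ) (hG2 : G2 (al J) t d u0 x φ)
    {S : ℕ} (g : Fin S → (Fin N → Bool) → Bool)
    (hdep : ∀ j, dep (fun y => g j (rst J x y)) ≤ h)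
    (hs : ∀ j, (∃ c, ∀ z : Fin N → Bool, (∃ i, z (φ c i).1 = (φ c i).2) → g j z = true) ∨
      ∃ P : Finset (Fin S), P.card ≤ a ∧ (∀ p ∈ P, p < j) ∧
        ∀ z, (∀ p ∈ P, g p z = true) → g j z = true) (j : Fin S) :
    ∃ z, g j z = true := by
  classical
  let K : Type := {c : Fin m // Res (al J) t x (φ c)}
  let R : K → Fin n → ZMod 2 := fun c i =>
    if DET_av J hnM i ∈ vs (al J) t (φ c.1) then 1 else 0
  let Fal : K → (Fin n → Bool) → Prop := fun c y =>
    ∀ i' ∈ pos (al J) t (φ c.1), rst J x y (φ c.1 i').1 ≠ (φ c.1 i').2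
  let b : K → ZMod 2 := fun c =>
    if hc : ∃ y0, Fal c y0 then 1 + ∑ i, R c i * bzk (hc.choose i) else 0
  -- the supports of the rows
  have hRne : ∀ (c : K) (i : Fin n), R c i ≠ 0 ↔ DET_av J hnM i ∈ vs (al J) t (φ c.1) := by
    intro c i
    simp only [R]
    split_ifs with hi <;> simp [hi]
  have hrow : ∀ c : K, (univ.filter fun i => R c i ≠ 0).card ≤ t := by
    intro c
    refine le_trans ?_ (DET_vs_card (al J) t (φ c.1))
    refine card_le_card_of_injOn (DET_av J hnM) ?_ ((DET_av_inj J hnM).injOn)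
    intro i hi
    exact (hRne c i).1 (mem_filter.1 hi).2
  -- expansion
  have hexp : Expk R d u0 := by
    intro U hU
    have hSc : (U.image Subtype.val).card = U.card :=
      card_image_of_injective U Subtype.val_injective
    have h1 := hG2 (U.image Subtype.val) (by rw [hSc]; exact hU) (by
      intro c hc
      rw [mem_image] at hc
      obtain ⟨v, _, rfl⟩ := hc
      exact v.2)
    rw [hSc] at h1
    let D : Fin n → ℕ := fun i => (U.filter fun c => DET_av J hnM i ∈ vs (al J) t (φ c.1)).card
    have hsumD : ∀ i, ∑ v ∈ U, R v i = (D i : ZMod 2) := by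
      intro i
      simp only [R, D]
      rw [sum_boole]
    -- the neighbourhood
    have hG : ((U.image Subtype.val).biUnion fun c => vs (al J) t (φ c)).card ≤
        (univ.filter fun i => 1 ≤ D i).card := by
      have hsub : ((U.image Subtype.val).biUnion fun c => vs (al J) t (φ c)) ⊆
          (univ.filter fun i => 1 ≤ D i).image (DET_av J hnM) := by
        intro v hv
        rw [mem_biUnion] at hv
        obtain ⟨c, hc, hvc⟩ := hv
        rw [mem_image] at hc
        obtain ⟨c', hc', rfl⟩ := hc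
        obtain ⟨i, rfl⟩ := (DET_mem_al J hnM v).1 (DET_vs_sub _ _ _ hvc)
        refine mem_image_of_mem _ (mem_filter.2 ⟨mem_univ _, ?_⟩)
        exact card_pos.2 ⟨c', mem_filter.2 ⟨hc', hvc⟩⟩
      exact (card_le_card hsub).trans card_image_le
    have htot : ∑ i, D i ≤ t * U.card := by
      have e1 : ∑ i, D i = ∑ c ∈ U, (univ.filter fun i => R c i ≠ 0).card := by
        simp only [D]
        simp_rw [card_filter]
        rw [sum_comm]
        refine sum_congr rfl fun c _ => sum_congr rfl fun i _ => ?_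
        simp only [hRne]
      rw [e1]
      calc ∑ c ∈ U, (univ.filter fun i => R c i ≠ 0).card ≤ ∑ c ∈ U, t :=
            sum_le_sum fun c _ => hrow c
        _ = t * U.card := by rw [sum_const, smul_eq_mul, mul_comm]
    have hone : 2 * (univ.filter fun i => 1 ≤ D i).card ≤
        (univ.filter fun i => D i = 1).card + ∑ i, D i := by
      rw [card_filter, card_filter, mul_sum, ← sum_add_distrib]
      refine sum_le_sum fun i _ => ?_
      by_cases h2 : 1 ≤ D i
      · by_cases h3 : D i = 1
        · simp [h3]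
        · rw [if_pos h2, if_neg h3]
          omega
      · rw [if_neg h2]
        omega
    have hodd : (univ.filter fun i => D i = 1).card ≤
        (univ.filter fun i => ∑ v ∈ U, R v i ≠ 0).card := by
      apply card_le_card
      intro i hi
      rw [mem_filter] at hi ⊢
      refine ⟨mem_univ _, ?_⟩
      rw [hsumD, hi.2]
      simp
    rw [ht] at htot
    have e3 : 3 * d * U.card = 3 * (d * U.card) := by ring
    have e4 : 4 * d * U.card = 4 * (d * U.card) := by ring
    have e5 : 2 * d * U.card = 2 * (d * U.card) := by ring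
    rw [e3] at h1
    rw [e4] at htot
    rw [e5]
    omega
  -- rows of residual clauses
  have hsat : ∀ (c : K) (y : Fin n → Bool), ∑ i, R c i * bzk (y i) = b c →
      ∃ i, rst J x y (φ c.1 i).1 = (φ c.1 i).2 := by
    intro c y hy
    by_contra hcon
    push Not at hcon
    have hF : Fal c y := fun i' _ => hcon i'
    have hex : ∃ y0, Fal c y0 := ⟨y, hF⟩
    have hb : b c = 1 + ∑ i, R c i * bzk (hex.choose i) := by
      simp only [b]
      rw [dif_pos hex]
    have hF0 : Fal c hex.choose := hex.choose_spec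
    have heq : ∑ i, R c i * bzk (y i) = ∑ i, R c i * bzk (hex.choose i) := by
      refine sum_congr rfl fun i _ => ?_
      by_cases hi : DET_av J hnM i ∈ vs (al J) t (φ c.1)
      · have hi' := hi
        unfold vs at hi'
        rw [mem_image] at hi'
        obtain ⟨i', hi1, hi2⟩ := hi'
        have h1 := hF i' hi1
        have h2 := hF0 i' hi1
        rw [hi2, DET_rst_av] at h1 h2
        have : y i = hex.choose i := by
          revert h1 h2
          cases y i <;> cases hex.choose i <;> cases (φ c.1 i').2 <;> simp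
        rw [this]
      · have : R c i = 0 := by
          by_contra hne
          exact hi ((hRne c i).1 hne)
        rw [this, zero_mul, zero_mul]
    rw [hb, heq] at hy
    have : (1 : ZMod 2) = 0 := by linear_combination -hy
    exact absurd this (by decide)
  -- the refutation
  have hfin := no_refk hd hexp t (by omega) hrow a h hah (fun j y => g j (rst J x y)) hdep (by
    intro j
    rcases hs j with ⟨c, hc⟩ | ⟨P, hP1, hP2, hP3⟩
    · have hdead : (∃ i, (φ c i).1 ∉ al J ∧ x (φ c i).1 = (φ c i).2) →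
          ∃ P : Finset (Fin S), P.card ≤ a ∧ (∀ p ∈ P, p < j) ∧
            ∀ y, (∀ p ∈ P, g p (rst J x y) = true) → g j (rst J x y) = true := by
        rintro ⟨i, hi1, hi2⟩
        refine ⟨∅, by simp, by simp, fun y _ => hc _ ⟨i, ?_⟩⟩
        rw [DET_rst_dead J x y _ hi1, hi2]
      by_cases hlow : na (al J) (φ c) < t
      · exact Or.inr (hdead (hG1 c hlow))
      · by_cases hd' : ∃ i, (φ c i).1 ∉ al J ∧ x (φ c i).1 = (φ c i).2
        · exact Or.inr (hdead hd')
        · push Not at hd'
          left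
          refine ⟨⟨c, not_lt.1 hlow, fun i hi => hd' i hi⟩, fun y hy => hc _ ?_⟩
          exact hsat _ y hy
    · exact Or.inr ⟨P, hP1, hP2, fun y hy => hP3 _ hy⟩) j
  obtain ⟨y, hy⟩ := hfin
  exact ⟨_, hy⟩

end H542.RK.P
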