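import Pool.Agent.H542R2.RK.Defs

set_option autoImplicit false

/-! Task DGC -/

namespace H542.RK.P

open Finset

variable {k N m n : ℕ}

open Classical in
theorem DGC_card_all (B : Finset (Cl k N)) (S : Finset (Fin m)) :
    ((univ.filter fun φ : Fin m → Cl k N => ∀ c ∈ S, φ c ∈ B).card : ℝ) =
      (B.card : ℝ) ^ S.card * (Fintype.card (Cl k N) : ℝ) ^ (m - S.card) := by
  have h1 : (univ.filter fun φ : Fin m → Cl k N => ∀ c ∈ S, φ c ∈ B) =
      Fintype.piFinset (fun c : Fin m => if c ∈ S then B else univ) := by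
    ext φ
    simp only [mem_filter, mem_univ, true_and, Fintype.mem_piFinset]
    constructor
    · intro h c
      split_ifs with hc
      · exact h c hc
      · exact mem_univ _
    · intro h c hc
      have := h c
      rwa [if_pos hc] at this
  rw [h1, Fintype.card_piFinset]
  push_cast
  have h2 : ∀ c : Fin m, (((if c ∈ S then B else univ : Finset (Cl k N)).card : ℕ) : ℝ) =
      if c ∈ S then (B.card : ℝ) else (Fintype.card (Cl k N) : ℝ) := by
    intro c
    split_ifs <;> simp
  simp only [h2]
  rw [prod_ite, prod_const, prod_const]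
  congr 2
  · congr 1; ext c; simp
  · have : (univ.filter fun c : Fin m => ¬ c ∈ S) = univ \ S := by ext c; simp
    rw [this, card_sdiff_of_subset (subset_univ _)]
    simp

open Classical in
theorem DGC_w (A : Finset (Fin N)) (hA : A.card = n) :
    ∑ ℓ : Fin N × Bool, (if ℓ.1 ∈ A then (1 / 2 : ℝ) else 1) = 2 * N - n := by
  have hnN : n ≤ N := by
    rw [← hA]; simpa using card_le_univ A
  rw [Fintype.sum_prod_type]
  simp only [Fintype.sum_bool]
  rw [sum_add_distrib, sum_ite, sum_const, sum_const]
  have h1 : (univ.filter fun v : Fin N => v ∈ A) = A := by ext v; simp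
  have h2 : (univ.filter fun v : Fin N => ¬ v ∈ A) = univ \ A := by ext v; simp
  rw [h1, h2, card_sdiff_of_subset (subset_univ _), hA, card_univ, Fintype.card_fin,
    nsmul_eq_mul, nsmul_eq_mul, Nat.cast_sub hnN]
  ring

open Classical in
theorem DGC_T (T : Finset (Fin N)) :
    ∑ ℓ : Fin N × Bool, (if ℓ.1 ∈ T then (1 : ℝ) else 0) = 2 * T.card := by
  rw [Fintype.sum_prod_type]
  simp only [Fintype.sum_bool]
  rw [sum_add_distrib, sum_ite, sum_const, sum_const]
  have h1 : (univ.filter fun v : Fin N => v ∈ T) = T := by ext v; simp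
  rw [h1]
  simp
  ring

open Classical in
theorem DGC_one (A : Finset (Fin N)) (hA : A.card = n) (t : ℕ) (T : Finset (Fin N)) (i : Fin k) :
    ((univ.filter fun c : Cl k N => na A c < t ∧ (c i).1 ∈ T).card : ℝ) ≤
      2 ^ t * (2 * T.card * (2 * N - n) ^ (k - 1)) := by
  let f : Fin k → Fin N × Bool → ℝ := fun j ℓ =>
    if j = i then (if ℓ.1 ∈ T then 1 else 0) else (if ℓ.1 ∈ A then 1 / 2 else 1)
  have hf0 : ∀ j ℓ, 0 ≤ f j ℓ := by
    intro j ℓ; simp only [f]; split_ifs <;> norm_num
  have key : ∑ c : Cl k N, ∏ j, f j (c j) = 2 * T.card * (2 * N - n) ^ (k - 1) := by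
    have h1 := (prod_univ_sum (fun _ : Fin k => (univ : Finset (Fin N × Bool))) f).symm
    rw [Fintype.piFinset_univ] at h1
    rw [h1]
    have h2 : ∀ j, ∑ ℓ : Fin N × Bool, f j ℓ =
        if j = i then (2 * T.card : ℝ) else (2 * N - n) := by
      intro j
      by_cases hj : j = i
      · simp only [f, if_pos hj]
        exact DGC_T T
      · simp only [f, if_neg hj]
        exact DGC_w A hA
    simp only [h2]
    rw [prod_ite, prod_const, prod_const]
    have h3 : (univ.filter fun j : Fin k => j = i) = {i} := by ext j; simp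
    have h4 : (univ.filter fun j : Fin k => ¬ j = i) = univ \ {i} := by ext j; simp
    rw [h3, h4, card_sdiff_of_subset (subset_univ _), card_singleton, card_univ,
      Fintype.card_fin, pow_one]
  rw [← key, mul_sum, card_eq_sum_ones]
  push_cast
  rw [sum_filter]
  apply sum_le_sum
  intro c _
  split_ifs with hc
  · obtain ⟨h1, h2⟩ := hc
    have h3 : ∏ j, f j (c j) =
        ∏ j, (if j ∈ (univ.filter fun j => j ≠ i ∧ (c j).1 ∈ A) then (1 / 2 : ℝ) else 1) := by
      apply prod_congr rfl
      intro j _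
      simp only [f, mem_filter, mem_univ, true_and]
      by_cases hj : j = i
      · subst hj; simp [h2]
      · simp [hj]
    rw [h3, prod_ite_mem, univ_inter, prod_const]
    have h4 : (univ.filter fun j => j ≠ i ∧ (c j).1 ∈ A).card ≤ t := by
      apply le_of_lt
      apply lt_of_le_of_lt _ h1
      unfold na
      apply card_le_card
      intro j hj
      simp only [mem_filter, mem_univ, true_and] at hj ⊢
      exact hj.2
    rw [one_div, inv_pow]
    rw [← div_eq_mul_inv, one_le_div (by positivity)]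
    exact pow_le_pow_right₀ (by norm_num) h4
  · exact mul_nonneg (by positivity) (prod_nonneg fun j _ => hf0 j _)

open Classical in
theorem DGC_B (A : Finset (Fin N)) (hA : A.card = n) (t : ℕ) (T : Finset (Fin N)) :
    ((univ.filter fun c : Cl k N => na A c < t ∧ ∃ i, (c i).1 ∈ T).card : ℝ) ≤
      k * (2 * T.card) * (2 ^ t * (2 * N - n) ^ (k - 1)) := by
  have h1 : (univ.filter fun c : Cl k N => na A c < t ∧ ∃ i, (c i).1 ∈ T) ⊆
      univ.biUnion (fun i : Fin k => univ.filter fun c : Cl k N => na A c < t ∧ (c i).1 ∈ T) := by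
    intro c hc
    simp only [mem_filter, mem_univ, true_and, mem_biUnion] at hc ⊢
    obtain ⟨h, i, hi⟩ := hc
    exact ⟨i, h, hi⟩
  have h2 := (card_le_card h1).trans card_biUnion_le
  calc ((univ.filter fun c : Cl k N => na A c < t ∧ ∃ i, (c i).1 ∈ T).card : ℝ)
      ≤ ∑ i : Fin k, ((univ.filter fun c : Cl k N => na A c < t ∧ (c i).1 ∈ T).card : ℝ) := by
        exact_mod_cast h2
    _ ≤ ∑ _i : Fin k, 2 ^ t * (2 * T.card * (2 * (N:ℝ) - n) ^ (k - 1)) :=
        sum_le_sum fun i _ => DGC_one A hA t T i
    _ = _ := by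
        rw [sum_const, card_univ, Fintype.card_fin, nsmul_eq_mul]; ring

open Classical in
/-- DGC: in most formulas the degrees (with respect to clauses with few alive positions) are
bounded on average over sets of `h` variables. -/
theorem dg_count (A : Finset (Fin N)) (hA : A.card = n) (t h D : ℕ) (hk : 1 ≤ k) (hN : 1 ≤ N) :
    ((univ.filter fun φ : Fin m → Cl k N => ¬ Dg A t h D φ).card : ℝ) ≤
      Fintype.card (Fin m → Cl k N) * ((N.choose h : ℝ) * (m.choose (h * D)) *
        ((k * (2 * h) * (2 ^ t * (2 * N - n) ^ (k - 1))) / (2 * N) ^ k) ^ (h * D)) := by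
  have hcard : (Fintype.card (Cl k N) : ℝ) = (2 * N) ^ k := by
    simp [Cl, mul_comm]
  have hN0 : (0:ℝ) < 2 * N := by
    have : (1:ℝ) ≤ N := by exact_mod_cast hN
    linarith
  have hnN : (n:ℝ) ≤ N := by
    rw [← hA]; exact_mod_cast (by simpa using card_le_univ A : A.card ≤ N)
  set bd : ℝ := (k * (2 * h) * (2 ^ t * (2 * N - n) ^ (k - 1))) / (2 * N) ^ k with hbd
  set BB : Finset (Fin N) → Finset (Cl k N) := fun T =>
    univ.filter fun c : Cl k N => na A c < t ∧ ∃ i, (c i).1 ∈ T with hBB
  have h1 : (univ.filter fun φ : Fin m → Cl k N => ¬ Dg A t h D φ) ⊆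
      (powersetCard h (univ : Finset (Fin N))).biUnion (fun T =>
        (powersetCard (h * D) (univ : Finset (Fin m))).biUnion (fun S =>
          univ.filter fun φ : Fin m → Cl k N => ∀ c ∈ S, φ c ∈ BB T)) := by
    intro φ hφ
    rw [mem_filter] at hφ
    have hφ2 := hφ.2
    unfold Dg at hφ2
    push Not at hφ2
    obtain ⟨T, hT, hT2⟩ := hφ2
    obtain ⟨S, hS1, hS2⟩ := exists_subset_card_eq hT2
    simp only [mem_biUnion, mem_powersetCard, subset_univ, true_and, mem_filter, mem_univ]
    refine ⟨T, hT, S, hS2, ?_⟩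
    intro c hc
    have := hS1 hc
    simpa [hBB] using this
  have hone : ∀ T ∈ powersetCard h (univ : Finset (Fin N)),
      ∀ S ∈ powersetCard (h * D) (univ : Finset (Fin m)),
      ((univ.filter fun φ : Fin m → Cl k N => ∀ c ∈ S, φ c ∈ BB T).card : ℝ) ≤
        Fintype.card (Fin m → Cl k N) * bd ^ (h * D) := by
    intro T hT S hS
    rw [mem_powersetCard] at hT hS
    have hSm : S.card ≤ m := by simpa using card_le_univ S
    rw [DGC_card_all, hS.2]
    rw [hS.2] at hSm
    have h3 : (Fintype.card (Fin m → Cl k N) : ℝ) = (Fintype.card (Cl k N) : ℝ) ^ m := by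
      simp
    rw [h3, hcard]
    have h4 : ((BB T).card : ℝ) ≤ bd * (2 * N) ^ k := by
      have := DGC_B A hA t T (k := k)
      rw [hT.2] at this
      rw [hbd, div_mul_cancel₀ _ (by positivity)]
      exact this
    calc ((BB T).card : ℝ) ^ (h * D) * ((2 * (N:ℝ)) ^ k) ^ (m - h * D)
        ≤ (bd * (2 * N) ^ k) ^ (h * D) * ((2 * (N:ℝ)) ^ k) ^ (m - h * D) := by
          apply mul_le_mul_of_nonneg_right _ (by positivity)
          exact pow_le_pow_left₀ (by positivity) h4 _
      _ = ((2 * (N:ℝ)) ^ k) ^ m * bd ^ (h * D) := by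
          rw [mul_pow, mul_assoc, ← pow_add, Nat.add_sub_cancel' hSm, mul_comm]
  calc ((univ.filter fun φ : Fin m → Cl k N => ¬ Dg A t h D φ).card : ℝ)
      ≤ ∑ T ∈ powersetCard h (univ : Finset (Fin N)),
          ∑ S ∈ powersetCard (h * D) (univ : Finset (Fin m)),
          ((univ.filter fun φ : Fin m → Cl k N => ∀ c ∈ S, φ c ∈ BB T).card : ℝ) := by
        have h5 := (card_le_card h1).trans card_biUnion_le
        have h6 : ∑ T ∈ powersetCard h (univ : Finset (Fin N)),
            ((powersetCard (h * D) (univ : Finset (Fin m))).biUnion (fun S =>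
              univ.filter fun φ : Fin m → Cl k N => ∀ c ∈ S, φ c ∈ BB T)).card ≤
            ∑ T ∈ powersetCard h (univ : Finset (Fin N)),
          ∑ S ∈ powersetCard (h * D) (univ : Finset (Fin m)),
          (univ.filter fun φ : Fin m → Cl k N => ∀ c ∈ S, φ c ∈ BB T).card :=
          sum_le_sum fun T _ => card_biUnion_le
        exact_mod_cast h5.trans h6
    _ ≤ ∑ T ∈ powersetCard h (univ : Finset (Fin N)),
          ∑ S ∈ powersetCard (h * D) (univ : Finset (Fin m)),
          (Fintype.card (Fin m → Cl k N) * bd ^ (h * D) : ℝ) :=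
        sum_le_sum fun T hT => sum_le_sum fun S hS => hone T hT S hS
    _ = _ := by
        rw [sum_const, sum_const, card_powersetCard, card_powersetCard, card_univ, card_univ,
          Fintype.card_fin, Fintype.card_fin, nsmul_eq_mul, nsmul_eq_mul]
        ring

end H542.RK.P
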