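import Mathlib
import Pool.Agent.H542R2.RK.Defs

set_option autoImplicit false

/-! EXC: most formulas expand. -/

namespace H542.RK.P

open Finset

variable {k N m n : ℕ}

/-- number of clauses with all variables in `T` -/
theorem EXC_cl (T : Finset (Fin N)) :
    (Fintype.piFinset fun _ : Fin k => T ×ˢ (univ : Finset Bool)).card = (T.card * 2) ^ k := by
  rw [Fintype.card_piFinset]
  simp [card_product]

open Classical in
/-- number of formulas whose clauses in `S` have all variables in `T` -/
theorem EXC_fix (S : Finset (Fin m)) (T : Finset (Fin N)) :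
    (univ.filter fun φ : Fin m → Cl k N => ∀ c ∈ S, ∀ i, (φ c i).1 ∈ T).card =
      ((T.card * 2) ^ k) ^ S.card * ((N * 2) ^ k) ^ (m - S.card) := by
  have h1 : (univ.filter fun φ : Fin m → Cl k N => ∀ c ∈ S, ∀ i, (φ c i).1 ∈ T) =
      Fintype.piFinset fun c : Fin m => if c ∈ S then
        (Fintype.piFinset fun _ : Fin k => T ×ˢ (univ : Finset Bool)) else univ := by
    ext φ
    simp only [mem_filter, mem_univ, true_and, Fintype.mem_piFinset]
    constructor
    · intro h c
      split_ifs with hc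
      · rw [Fintype.mem_piFinset]
        intro i
        rw [mem_product]
        exact ⟨h c hc i, mem_univ _⟩
      · exact mem_univ _
    · intro h c hc i
      have h2 := h c
      rw [if_pos hc, Fintype.mem_piFinset] at h2
      exact (mem_product.1 (h2 i)).1
  rw [h1, Fintype.card_piFinset]
  have h2 : ∀ c : Fin m, (if c ∈ S then
        (Fintype.piFinset fun _ : Fin k => T ×ˢ (univ : Finset Bool)) else
        (univ : Finset (Cl k N))).card =
      if c ∈ S then (T.card * 2) ^ k else (N * 2) ^ k := by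
    intro c
    split_ifs
    · exact EXC_cl T
    · rw [card_univ]
      simp
  rw [prod_congr rfl fun c _ => h2 c, prod_ite, prod_const, prod_const]
  have h3 : (univ.filter fun c : Fin m => c ∈ S) = S := by
    ext c
    simp
  have h4 : (univ.filter fun c : Fin m => c ∉ S).card = m - S.card := by
    have h5 := card_filter_add_card_filter_not (s := (univ : Finset (Fin m))) (fun c => c ∈ S)
    rw [h3, card_univ, Fintype.card_fin] at h5
    omega
  rw [h3, h4]

open Classical in
/-- the same in terms of proportions -/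
theorem EXC_fix_real (S : Finset (Fin m)) (T : Finset (Fin N)) (hN1 : 1 ≤ N) :
    ((univ.filter fun φ : Fin m → Cl k N => ∀ c ∈ S, ∀ i, (φ c i).1 ∈ T).card : ℝ) =
      Fintype.card (Fin m → Cl k N) * ((T.card : ℝ) / N) ^ (k * S.card) := by
  rw [EXC_fix]
  have hS : S.card ≤ m := by
    have := card_le_univ S
    rwa [Fintype.card_fin] at this
  have hN0 : (0 : ℝ) < N := by exact_mod_cast hN1
  have h1 : (Fintype.card (Fin m → Cl k N) : ℝ) = (((N : ℝ) * 2) ^ k) ^ m := by
    simp [Fintype.card_fin]
  rw [h1]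
  push_cast
  have h2 : (((N : ℝ) * 2) ^ k) ^ m = (((N : ℝ) * 2) ^ k) ^ S.card *
      (((N : ℝ) * 2) ^ k) ^ (m - S.card) := by
    rw [← pow_add]
    congr 1
    omega
  have h3 : (((T.card : ℝ) * 2) ^ k) ^ S.card =
      (((N : ℝ) * 2) ^ k) ^ S.card * ((T.card : ℝ) / N) ^ (k * S.card) := by
    rw [pow_mul, ← mul_pow, ← mul_pow]
    congr 2
    field_simp
  rw [h2, h3]
  ring

open Classical in
theorem ex_count (r smax : ℕ) (hr : r < k) (hN : (k - r) * smax ≤ N) (hN1 : 1 ≤ N) :
    ((univ.filter fun φ : Fin m → Cl k N => ¬ Ex r smax φ).card : ℝ) ≤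
      Fintype.card (Fin m → Cl k N) * ∑ s ∈ Icc 1 smax, (m.choose s : ℝ) *
        (N.choose ((k - r) * s)) * ((((k - r) * s : ℕ) : ℝ) / N) ^ (k * s) := by
  have hsub : (univ.filter fun φ : Fin m → Cl k N => ¬ Ex r smax φ) ⊆
      (Icc 1 smax).biUnion fun s => (powersetCard s (univ : Finset (Fin m))).biUnion fun S =>
        (powersetCard ((k - r) * s) (univ : Finset (Fin N))).biUnion fun T =>
          univ.filter fun φ : Fin m → Cl k N => ∀ c ∈ S, ∀ i, (φ c i).1 ∈ T := by
    intro φ hφ
    rw [mem_filter] at hφ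
    have h1 := hφ.2
    unfold Ex at h1
    push Not at h1
    obtain ⟨S, hS1, hS2⟩ := h1
    have hs : 1 ≤ S.card := by
      by_contra hc
      have h0 : S.card = 0 := by omega
      rw [h0, mul_zero] at hS2
      omega
    have hle : (k - r) * S.card ≤ Fintype.card (Fin N) := by
      rw [Fintype.card_fin]
      exact (Nat.mul_le_mul_left _ hS1).trans hN
    obtain ⟨T, hT1, hT2⟩ := exists_superset_card_eq hS2.le hle
    simp only [mem_biUnion, mem_Icc, mem_powersetCard, subset_univ, true_and, mem_filter, mem_univ]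
    refine ⟨S.card, ⟨hs, hS1⟩, S, rfl, T, hT2, ?_⟩
    intro c hc i
    apply hT1
    rw [mem_biUnion]
    refine ⟨c, hc, ?_⟩
    unfold vars
    exact mem_image_of_mem _ (mem_univ i)
  have h1 := card_le_card hsub
  have h2 : ((Icc 1 smax).biUnion fun s => (powersetCard s (univ : Finset (Fin m))).biUnion fun S =>
        (powersetCard ((k - r) * s) (univ : Finset (Fin N))).biUnion fun T =>
          univ.filter fun φ : Fin m → Cl k N => ∀ c ∈ S, ∀ i, (φ c i).1 ∈ T).card ≤
      ∑ s ∈ Icc 1 smax, ∑ S ∈ powersetCard s (univ : Finset (Fin m)),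
        ∑ T ∈ powersetCard ((k - r) * s) (univ : Finset (Fin N)),
          (univ.filter fun φ : Fin m → Cl k N => ∀ c ∈ S, ∀ i, (φ c i).1 ∈ T).card := by
    refine card_biUnion_le.trans (sum_le_sum fun s _ => ?_)
    refine card_biUnion_le.trans (sum_le_sum fun S _ => ?_)
    exact card_biUnion_le
  have h3 : ((univ.filter fun φ : Fin m → Cl k N => ¬ Ex r smax φ).card : ℝ) ≤
      ∑ s ∈ Icc 1 smax, ∑ S ∈ powersetCard s (univ : Finset (Fin m)),
        ∑ T ∈ powersetCard ((k - r) * s) (univ : Finset (Fin N)),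
          ((univ.filter fun φ : Fin m → Cl k N => ∀ c ∈ S, ∀ i, (φ c i).1 ∈ T).card : ℝ) := by
    exact_mod_cast h1.trans h2
  refine h3.trans (le_of_eq ?_)
  rw [mul_sum]
  refine sum_congr rfl fun s _ => ?_
  have h4 : ∀ S ∈ powersetCard s (univ : Finset (Fin m)),
      ∑ T ∈ powersetCard ((k - r) * s) (univ : Finset (Fin N)),
          ((univ.filter fun φ : Fin m → Cl k N => ∀ c ∈ S, ∀ i, (φ c i).1 ∈ T).card : ℝ) =
      (N.choose ((k - r) * s)) * (Fintype.card (Fin m → Cl k N) *
        ((((k - r) * s : ℕ) : ℝ) / N) ^ (k * s)) := by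
    intro S hS
    rw [mem_powersetCard] at hS
    have h5 : ∀ T ∈ powersetCard ((k - r) * s) (univ : Finset (Fin N)),
        ((univ.filter fun φ : Fin m → Cl k N => ∀ c ∈ S, ∀ i, (φ c i).1 ∈ T).card : ℝ) =
        Fintype.card (Fin m → Cl k N) * ((((k - r) * s : ℕ) : ℝ) / N) ^ (k * s) := by
      intro T hT
      rw [mem_powersetCard] at hT
      rw [EXC_fix_real S T hN1, hT.2, hS.2]
    rw [sum_congr rfl h5, sum_const, card_powersetCard, card_univ, Fintype.card_fin, nsmul_eq_mul]
  rw [sum_congr rfl h4, sum_const, card_powersetCard, card_univ, Fintype.card_fin, nsmul_eq_mul]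
  ring

end H542.RK.P
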