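import Mathlib
import Pool.Agent.H542R2.RK.Defs
import Pool.Agent.H542R2.RK.P_LLL

set_option autoImplicit false

/-! Task G1C. -/

namespace H542.RK.P

open Finset

variable {k N m : ℕ}

/-- modify `x` on `U` by `w` -/
def g1cMod (U : Finset (Fin N)) (w : U → Bool) (x : Fin N → Bool) : Fin N → Bool :=
  fun v => if h : v ∈ U then w ⟨v, h⟩ else x v

lemma g1c_count (U : Finset (Fin N)) (G F : Finset (Fin N → Bool))
    (h1 : ∀ x ∈ G, ∀ w, g1cMod U w x ∈ F) (h2 : ∀ x ∈ G, ∀ y ∈ G, ∀ v ∈ U, x v = y v) :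
    G.card * 2 ^ U.card ≤ F.card := by
  have : G.card * 2 ^ U.card = (G ×ˢ (univ : Finset (U → Bool))).card := by
    rw [card_product, card_univ, Fintype.card_fun, Fintype.card_bool, Fintype.card_coe]
  rw [this]
  refine card_le_card_of_injOn (fun p => g1cMod U p.2 p.1) ?_ ?_
  · rintro ⟨x, w⟩ hp
    simp only [coe_product, coe_univ, Set.mem_prod, mem_coe, Set.mem_univ, and_true] at hp
    exact h1 x hp w
  · rintro ⟨x, w⟩ hp ⟨y, w'⟩ hq hxy
    simp only [coe_product, coe_univ, Set.mem_prod, mem_coe, Set.mem_univ, and_true] at hp hq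
    simp only at hxy
    have hx : x = y := by
      funext v
      by_cases hv : v ∈ U
      · exact h2 x hp y hq v hv
      · have := congrFun hxy v
        simpa [g1cMod, hv] using this
    have hw : w = w' := by
      funext v
      have := congrFun hxy v.1
      simpa [g1cMod, v.2] using this
    rw [hx, hw]

lemma g1c_omega (U : Finset (Fin N)) (x0 : Fin N → Bool) :
    2 ^ N ≤ (univ.filter fun x : Fin N → Bool => ∀ v ∈ U, x v = x0 v).card * 2 ^ U.card := by
  have h1 : (2 : ℕ) ^ N = (univ : Finset (Fin N → Bool)).card := by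
    rw [card_univ, Fintype.card_fun, Fintype.card_bool, Fintype.card_fin]
  have h2 : (univ.filter fun x : Fin N → Bool => ∀ v ∈ U, x v = x0 v).card * 2 ^ U.card =
      ((univ.filter fun x : Fin N → Bool => ∀ v ∈ U, x v = x0 v) ×ˢ
        (univ : Finset (U → Bool))).card := by
    rw [card_product, card_univ (α := U → Bool), Fintype.card_fun, Fintype.card_bool,
      Fintype.card_coe]
  rw [h1, h2]
  refine card_le_card_of_injOn
    (fun x => (g1cMod U (fun v => x0 v.1) x, fun v => x v.1)) ?_ ?_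
  · intro x _
    simp only [coe_product, coe_univ, Set.mem_prod, mem_coe, Set.mem_univ, and_true,
      mem_filter, mem_univ, true_and]
    intro v hv
    simp [g1cMod, hv]
  · intro x _ y _ hxy
    simp only [Prod.mk.injEq] at hxy
    obtain ⟨ha, hb⟩ := hxy
    funext v
    by_cases hv : v ∈ U
    · exact congrFun hb ⟨v, hv⟩
    · have := congrFun ha v
      simpa [g1cMod, hv] using this

lemma g1c_vars_card (c : Cl k N) : (vars c).card ≤ k := by
  unfold vars
  refine card_image_le.trans ?_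
  simp

lemma g1c_mem_vars (c : Cl k N) (v : Fin N) : v ∈ vars c ↔ ∃ i, (c i).1 = v := by
  simp [vars]

lemma g1c_varsA (A : Finset (Fin N)) (c : Cl k N) : (vars c ∩ A).card ≤ na A c := by
  unfold na
  have : vars c ∩ A ⊆ (univ.filter fun i => (c i).1 ∈ A).image fun i => (c i).1 := by
    intro v hv
    rw [mem_inter, g1c_mem_vars] at hv
    obtain ⟨⟨i, rfl⟩, h2⟩ := hv
    exact mem_image.2 ⟨i, by simp [h2], rfl⟩
  exact (card_le_card this).trans card_image_le

/-- few variables have large degree -/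
lemma g1c_H (A : Finset (Fin N)) (φ : Fin m → Cl k N) (t h0 D : ℕ) (hk : 1 ≤ k)
    (h1 : Dg A t h0 D φ) :
    (univ.filter fun v : Fin N =>
      k * D ≤ (univ.filter fun c => na A (φ c) < t ∧ v ∈ vars (φ c)).card).card < h0 := by
  by_contra hc
  push Not at hc
  obtain ⟨T, hT, hTc⟩ := exists_subset_card_eq hc
  have h3 := h1 T hTc
  set M := univ.filter fun c => na A (φ c) < t ∧ ∃ i, (φ c i).1 ∈ T with hM
  have h4 : h0 * (k * D) ≤ ∑ v ∈ T, (M.filter fun c => v ∈ vars (φ c)).card := by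
    rw [← hTc, ← smul_eq_mul, ← sum_const]
    refine sum_le_sum fun v hv => ?_
    have hv2 := (mem_filter.1 (hT hv)).2
    refine hv2.trans (card_le_card ?_)
    intro c hcc
    simp only [mem_filter, mem_univ, true_and] at hcc
    simp only [hM, mem_filter, mem_univ, true_and]
    refine ⟨⟨hcc.1, ?_⟩, hcc.2⟩
    obtain ⟨i, hi⟩ := (g1c_mem_vars _ _).1 hcc.2
    exact ⟨i, by rw [hi]; exact hv⟩
  have h5 : ∑ v ∈ T, (M.filter fun c => v ∈ vars (φ c)).card =
      ∑ c ∈ M, (T.filter fun v => v ∈ vars (φ c)).card := by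
    simp only [card_filter]
    exact sum_comm
  have h6 : ∑ c ∈ M, (T.filter fun v => v ∈ vars (φ c)).card ≤ ∑ _c ∈ M, k := by
    refine sum_le_sum fun c _ => ?_
    refine (card_le_card (t := vars (φ c)) ?_).trans (g1c_vars_card _)
    intro v hv
    exact (mem_filter.1 hv).2
  rw [sum_const, smul_eq_mul] at h6
  rw [h5] at h4
  have h7 : h0 * (k * D) ≤ M.card * k := h4.trans h6
  have h8 : M.card * k < h0 * D * k := Nat.mul_lt_mul_of_pos_right h3 hk
  have h9 : h0 * (k * D) = h0 * D * k := by ring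
  omega


/-- the closure of the exceptional variables -/
lemma g1c_closure (φ : Fin m → Cl k N) (t h0 smax : ℕ) (ht : 1 ≤ t) (hk : 5 * t ≤ k)
    (hs : h0 + 1 ≤ smax) (hE : Ex t smax φ) (H : Finset (Fin N)) (hH : H.card < h0)
    (low : Finset (Fin m)) :
    ∃ S' ⊆ low, S'.card ≤ H.card ∧ ∀ c ∈ low, c ∉ S' →
      (vars (φ c) ∩ (H ∪ S'.biUnion fun c => vars (φ c))).card < 2 * t := by
  classical
  set Fam := low.powerset.filter fun S : Finset (Fin m) => S.card ≤ smax ∧
    ((S.biUnion fun c => vars (φ c)) \ H).card ≤ (k - 2 * t) * S.card with hFam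
  have hne : Fam.Nonempty := by
    refine ⟨∅, ?_⟩
    simp [hFam]
  obtain ⟨S', hS', hmax⟩ := exists_max_image Fam card hne
  rw [hFam, mem_filter, mem_powerset] at hS'
  obtain ⟨hsub, hcard, hvar⟩ := hS'
  have hle : S'.card ≤ H.card := by
    have h1 := hE S' hcard
    have h2 : (S'.biUnion fun c => vars (φ c)).card ≤
        ((S'.biUnion fun c => vars (φ c)) \ H).card + H.card := by
      exact card_le_card_sdiff_add_card (t := H) (s := S'.biUnion fun c => vars (φ c))
    have h3 : (k - t) * S'.card = (k - 2 * t) * S'.card + t * S'.card := by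
      rw [← add_mul]; congr 1; omega
    have h4 : t * S'.card ≤ H.card := by omega
    nlinarith
  refine ⟨S', hsub, hle, ?_⟩
  intro c hc hcS
  by_contra hcon
  push Not at hcon
  set H' := H ∪ S'.biUnion fun c => vars (φ c) with hH'
  have hmem : insert c S' ∈ Fam := by
    rw [hFam, mem_filter, mem_powerset]
    refine ⟨insert_subset hc hsub, ?_, ?_⟩
    · rw [card_insert_of_notMem hcS]; omega
    · rw [card_insert_of_notMem hcS, biUnion_insert]
      have h1 : (vars (φ c) ∪ S'.biUnion fun c => vars (φ c)) \ H ⊆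
          ((S'.biUnion fun c => vars (φ c)) \ H) ∪ (vars (φ c) \ H') := by
        intro v hv
        simp only [mem_sdiff, mem_union, hH'] at hv ⊢
        tauto
      have h2 := (card_le_card h1).trans (card_union_le _ _)
      have h3 : (vars (φ c) \ H').card + (vars (φ c) ∩ H').card = (vars (φ c)).card :=
        card_sdiff_add_card_inter _ _
      have h4 := g1c_vars_card (φ c)
      have h5 : (k - 2 * t) * (S'.card + 1) = (k - 2 * t) * S'.card + (k - 2 * t) := by ring
      rw [h5]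
      omega
  have := hmax _ hmem
  rw [card_insert_of_notMem hcS] at this
  omega

/-- Hall: the clauses of the closure can be satisfied in dead positions -/
lemma g1c_hall (A : Finset (Fin N)) (φ : Fin m → Cl k N) (t smax : ℕ) (hk : 5 * t ≤ k)
    (ht : 1 ≤ t) (hE : Ex t smax φ) (S' : Finset (Fin m)) (hc : S'.card ≤ smax)
    (hlow : ∀ c ∈ S', na A (φ c) < t) :
    ∃ x0 : Fin N → Bool, ∀ c ∈ S', ∃ i, (φ c i).1 ∉ A ∧ x0 (φ c i).1 = (φ c i).2 := by
  classical
  have hall : ∀ s : Finset S', s.card ≤ (s.biUnion fun c => vars (φ c.1) \ A).card := by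
    intro s
    have h0 : (s.map (Function.Embedding.subtype _)).card ≤ smax := by
      refine (card_le_card (t := S') ?_).trans hc
      intro x hx
      simp only [mem_map, Function.Embedding.subtype_apply] at hx
      obtain ⟨y, _, rfl⟩ := hx
      exact y.2
    have h1 := hE _ h0
    rw [card_map] at h1
    have h2 : ((s.map (Function.Embedding.subtype _)).biUnion fun c => vars (φ c)) ⊆
        (s.biUnion fun c => vars (φ c.1) \ A) ∪ (s.biUnion fun c => vars (φ c.1) ∩ A) := by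
      intro v hv
      simp only [mem_biUnion, mem_map, Function.Embedding.subtype_apply] at hv
      obtain ⟨c, ⟨y, hy, rfl⟩, hv⟩ := hv
      simp only [mem_union, mem_biUnion, mem_sdiff, mem_inter]
      by_cases hA : v ∈ A
      · exact Or.inr ⟨y, hy, hv, hA⟩
      · exact Or.inl ⟨y, hy, hv, hA⟩
    have h3 : (s.biUnion fun c => vars (φ c.1) ∩ A).card ≤ s.card * (t - 1) := by
      refine card_biUnion_le_card_mul _ _ _ fun c _ => ?_
      have := (g1c_varsA A (φ c.1)).trans_lt (hlow c.1 c.2)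
      omega
    have h4 := (h1.trans (card_le_card h2)).trans (card_union_le _ _)
    have h5 : (k - t) * s.card = s.card * (t - 1) + s.card + (k - 2 * t) * s.card := by
      have : k - t = (t - 1) + 1 + (k - 2 * t) := by omega
      rw [this]; ring
    omega
  obtain ⟨f, hf, hfm⟩ := (all_card_le_biUnion_card_iff_exists_injective _).1 hall
  have hpos : ∀ c : S', ∃ i, (φ c.1 i).1 = f c := fun c =>
    (g1c_mem_vars _ _).1 (mem_sdiff.1 (hfm c)).1
  choose p hp using hpos
  refine ⟨fun v => if h : ∃ c : S', f c = v then (φ h.choose.1 (p h.choose)).2 else true, ?_⟩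
  intro c hcS
  refine ⟨p ⟨c, hcS⟩, ?_, ?_⟩
  · rw [hp ⟨c, hcS⟩]
    exact (mem_sdiff.1 (hfm ⟨c, hcS⟩)).2
  · have hex : ∃ c' : S', f c' = (φ c (p ⟨c, hcS⟩)).1 := ⟨⟨c, hcS⟩, (hp ⟨c, hcS⟩).symm⟩
    have h1 : hex.choose = ⟨c, hcS⟩ := by
      apply hf
      rw [hex.choose_spec]
      exact hp ⟨c, hcS⟩
    simp only [dif_pos hex]
    rw [h1]

lemma g1c_pow (q : ℝ) (hq : 0 ≤ q) (hq4 : 4 * q ≤ 1) (a b : ℕ) (hab : a ≤ b) :
    (2 : ℝ) ^ (-(4 * q * b)) ≤ (1 - 2 * q) ^ a := by
  have h1 : ((1 : ℝ) + (-(1 / 2))) ^ (4 * q) ≤ 1 + (4 * q) * (-(1 / 2)) :=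
    rpow_one_add_le_one_add_mul_self (by norm_num) (by positivity) hq4
  have h2 : (2 : ℝ) ^ (-(4 * q)) ≤ 1 - 2 * q := by
    have : (2 : ℝ) ^ (-(4 * q)) = ((1 : ℝ) + (-(1 / 2))) ^ (4 * q) := by
      rw [Real.rpow_neg (by norm_num), ← Real.inv_rpow (by norm_num)]
      norm_num
    rw [this]; linarith
  have h0 : (0 : ℝ) ≤ 1 - 2 * q := by linarith
  have h3 : (1 - 2 * q) ^ b ≤ (1 - 2 * q) ^ a :=
    pow_le_pow_of_le_one h0 (by linarith) hab
  refine le_trans ?_ h3
  have h4 : (2 : ℝ) ^ (-(4 * q * b)) = ((2 : ℝ) ^ (-(4 * q))) ^ b := by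
    rw [← Real.rpow_natCast, ← Real.rpow_mul (by norm_num)]
    congr 1; ring
  rw [h4]
  exact pow_le_pow_left₀ (by positivity) h2 b

/-- the local lemma without decidability instances -/
lemma g1c_lll {α ι : Type} (Ω : Finset α) (E : ι → α → Prop) (S : Finset ι) (nb : ι → Finset ι)
    (D : ℕ) (q : ℝ) (hq : 0 ≤ q) (hDq : 4 * D * q ≤ 1) (hq2 : 2 * q ≤ 1)
    (hnb : ∀ i ∈ S, (nb i).card ≤ D)
    (hind : ∀ i ∈ S, ∀ T ⊆ S, (∀ j ∈ T, j ∉ nb i) → ∀ G F : Finset α,
      (∀ x, x ∈ G ↔ x ∈ Ω ∧ E i x ∧ ∀ j ∈ T, ¬ E j x) →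
      (∀ x, x ∈ F ↔ x ∈ Ω ∧ ∀ j ∈ T, ¬ E j x) → (G.card : ℝ) ≤ q * F.card)
    (F : Finset α) (hF : ∀ x, x ∈ F ↔ x ∈ Ω ∧ ∀ j ∈ S, ¬ E j x) :
    (1 - 2 * q) ^ S.card * (Ω.card : ℝ) ≤ F.card := by
  classical
  have h := lll Ω E S nb D q hq hDq hq2 hnb (fun i hi T hT hn =>
    hind i hi T hT hn _ _ (fun x => by rw [mem_filter]) (fun x => by rw [mem_filter]))
  refine h.trans (le_of_eq ?_)
  congr 2
  ext x
  rw [mem_filter, hF]

open Classical in
/-- G1C: many assignments satisfy all clauses with few alive positions. -/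
theorem g1_count (A : Finset (Fin N)) (φ : Fin m → Cl k N) (t h0 D smax : ℕ) (ht : 1 ≤ t)
    (hk : 5 * t ≤ k) (hD : D = 2 ^ (k - 5 * t)) (hk2 : 4 * k ^ 2 ≤ 2 ^ t) (hs : h0 + 1 ≤ smax)
    (hE : Ex t smax φ) (h1 : Dg A t h0 D φ) (h2 : Dg A t N D φ) :
    (2 : ℝ) ^ ((N : ℝ) - (k + 1) * h0 - 4 * N / 2 ^ t) ≤
      ((univ.filter fun x : Fin N → Bool => G1 A t x φ).card : ℝ) := by
  have hk1 : 1 ≤ k := by omega
  have hD1 : 1 ≤ D := by rw [hD]; exact Nat.one_le_two_pow
  have hHc := g1c_H A φ t h0 D hk1 h1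
  set H := univ.filter fun v : Fin N =>
      k * D ≤ (univ.filter fun c => na A (φ c) < t ∧ v ∈ vars (φ c)).card with hH
  set low := univ.filter fun c : Fin m => na A (φ c) < t with hlow
  obtain ⟨S', hS'low, hS'c, hS'⟩ := g1c_closure φ t h0 smax ht hk hs hE H hHc low
  obtain ⟨x0, hx0⟩ := g1c_hall A φ t smax hk ht hE S' (by omega) (fun c hc => by
    have := hS'low hc
    rw [hlow, mem_filter] at this
    exact this.2)
  set H' := H ∪ S'.biUnion fun c => vars (φ c) with hH'
  set Om := univ.filter fun x : Fin N → Bool => ∀ v ∈ H', x v = x0 v with hOm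
  set U : Fin m → Finset (Fin N) := fun c => (vars (φ c) \ A) \ H' with hU
  obtain ⟨E, hEdef⟩ : ∃ E : Fin m → (Fin N → Bool) → Prop, ∀ c x, E c x ↔
      ∀ i, (φ c i).1 ∈ U c → x (φ c i).1 ≠ (φ c i).2 := ⟨_, fun _ _ => Iff.rfl⟩
  set S := low \ S' with hS
  set nb : Fin m → Finset (Fin m) := fun c => S.filter fun c' => ¬ Disjoint (U c') (U c) with hnbd
  set q : ℝ := (1 / 2) ^ (k - 4 * t) with hq
  have hUk : ∀ c, (U c).card ≤ k := fun c =>
    (card_le_card (sdiff_subset.trans sdiff_subset)).trans (g1c_vars_card (φ c))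
  -- degrees
  have hnb : ∀ c ∈ S, (nb c).card ≤ k * (k * D) := by
    intro c _
    have hsub : nb c ⊆ (U c).biUnion fun v =>
        univ.filter fun c' => na A (φ c') < t ∧ v ∈ vars (φ c') := by
      intro c' hc'
      simp only [hnbd, mem_filter] at hc'
      obtain ⟨hc'S, hnd⟩ := hc'
      rw [not_disjoint_iff] at hnd
      obtain ⟨v, hv1, hv2⟩ := hnd
      have hlow' : na A (φ c') < t := by
        have := (mem_sdiff.1 hc'S).1
        rw [hlow, mem_filter] at this
        exact this.2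
      simp only [mem_biUnion, mem_filter, mem_univ, true_and]
      refine ⟨v, hv2, hlow', ?_⟩
      exact (mem_sdiff.1 (mem_sdiff.1 hv1).1).1
    have h3 : ((U c).biUnion fun v =>
        univ.filter fun c' => na A (φ c') < t ∧ v ∈ vars (φ c')).card ≤ (U c).card * (k * D) := by
      refine card_biUnion_le_card_mul _ _ _ fun v hv => ?_
      have hvH' : v ∉ H' := (mem_sdiff.1 hv).2
      have hvH : v ∉ H := fun h => hvH' (by rw [hH']; exact mem_union_left _ h)
      rw [hH, mem_filter] at hvH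
      push Not at hvH
      exact (hvH (mem_univ _)).le
    calc (nb c).card ≤ _ := card_le_card hsub
      _ ≤ (U c).card * (k * D) := h3
      _ ≤ k * (k * D) := Nat.mul_le_mul_right _ (hUk c)
  -- size of the sets U
  have hUlow : ∀ c ∈ S, k - 4 * t ≤ (U c).card := by
    intro c hc
    have hc1 := (mem_sdiff.1 hc).1
    have hc2 := (mem_sdiff.1 hc).2
    have hna : na A (φ c) < t := by
      rw [hlow, mem_filter] at hc1
      exact hc1.2
    have hv := hE {c} (by rw [card_singleton]; omega)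
    rw [singleton_biUnion, card_singleton, mul_one] at hv
    have hvA := (g1c_varsA A (φ c)).trans_lt hna
    have hvH := hS' c hc1 hc2
    have e1 : (vars (φ c) \ A).card + (vars (φ c) ∩ A).card = (vars (φ c)).card :=
      card_sdiff_add_card_inter _ _
    have e2 : ((vars (φ c) \ A) \ H').card + ((vars (φ c) \ A) ∩ H').card =
        (vars (φ c) \ A).card := card_sdiff_add_card_inter _ _
    have e3 : ((vars (φ c) \ A) ∩ H').card ≤ (vars (φ c) ∩ H').card :=
      card_le_card (inter_subset_inter_right sdiff_subset)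
    have e4 : (U c).card = ((vars (φ c) \ A) \ H').card := rfl
    omega
  have hqpos : 0 < q := by rw [hq]; positivity
  have hqD : q * D = 1 / 2 ^ t := by
    rw [hq, hD]
    push_cast
    have : k - 4 * t = (k - 5 * t) + t := by omega
    rw [this, pow_add]
    rw [one_div_pow, one_div_pow]
    field_simp
  have h4 : 4 * ((k * (k * D) : ℕ) : ℝ) * q ≤ 1 := by
    have h5 : (4 : ℝ) * ((k * (k * D) : ℕ) : ℝ) * q = (4 * k ^ 2 : ℝ) * (q * D) := by
      push_cast; ring
    rw [h5, hqD, mul_one_div, div_le_one (by positivity)]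
    exact_mod_cast hk2
  have hq4 : 4 * q ≤ 1 := by
    have h5 : (1 : ℝ) ≤ ((k * (k * D) : ℕ) : ℝ) := by
      have : 1 ≤ k * (k * D) := Nat.mul_pos (by omega) (Nat.mul_pos (by omega) (by omega))
      exact_mod_cast this
    nlinarith
  have hind : ∀ i ∈ S, ∀ T ⊆ S, (∀ j ∈ T, j ∉ nb i) → ∀ G F : Finset (Fin N → Bool),
      (∀ x, x ∈ G ↔ x ∈ Om ∧ E i x ∧ ∀ j ∈ T, ¬ E j x) →
      (∀ x, x ∈ F ↔ x ∈ Om ∧ ∀ j ∈ T, ¬ E j x) → (G.card : ℝ) ≤ q * F.card := by
    intro i hi T hT hTn G F hG hF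
    have key := g1c_count (U i) G F ?_ ?_
    · have h6 : (2 : ℕ) ^ (k - 4 * t) ≤ 2 ^ (U i).card :=
        Nat.pow_le_pow_right (by norm_num) (hUlow i hi)
      have h7 := (Nat.mul_le_mul_left G.card h6).trans key
      have h8 : (G.card : ℝ) * 2 ^ (k - 4 * t) ≤ (F.card : ℝ) := by exact_mod_cast h7
      have h9 : q = 1 / 2 ^ (k - 4 * t) := by rw [hq, one_div_pow]
      rw [h9, one_div, inv_mul_eq_div, le_div_iff₀ (by positivity)]
      exact h8
    · intro x hx w
      rw [hG] at hx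
      rw [hF]
      obtain ⟨hxO, _, hxT⟩ := hx
      refine ⟨?_, ?_⟩
      · rw [hOm, mem_filter] at hxO ⊢
        refine ⟨mem_univ _, fun v hv => ?_⟩
        have : v ∉ U i := fun h => (mem_sdiff.1 h).2 hv
        rw [g1cMod, dif_neg this]
        exact hxO.2 v hv
      · intro j hj hEj
        apply hxT j hj
        rw [hEdef] at hEj ⊢
        intro p hp
        have hdis : Disjoint (U j) (U i) := by
          by_contra hcon
          exact hTn j hj (mem_filter.2 ⟨hT hj, hcon⟩)
        have hni : (φ j p).1 ∉ U i := disjoint_left.1 hdis hp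
        have := hEj p hp
        rwa [g1cMod, dif_neg hni] at this
    · intro x hx y hy v hv
      rw [hG] at hx hy
      have hvv : v ∈ vars (φ i) := (mem_sdiff.1 (mem_sdiff.1 hv).1).1
      obtain ⟨p, hp⟩ := (g1c_mem_vars _ _).1 hvv
      have hx1 := (hEdef i x).1 hx.2.1 p (by rw [hp]; exact hv)
      have hy1 := (hEdef i y).1 hy.2.1 p (by rw [hp]; exact hv)
      rw [hp] at hx1 hy1
      revert hx1 hy1
      cases x v <;> cases y v <;> cases (φ i p).2 <;> simp
  set Fin0 := Om.filter fun x => ∀ j ∈ S, ¬ E j x with hFin0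
  have hmain := g1c_lll Om E S nb (k * (k * D)) q hqpos.le h4 (by linarith) hnb hind
    Fin0 (fun x => by rw [hFin0, mem_filter])
  -- the surviving assignments are good
  have hgood : Fin0.card ≤
      (univ.filter fun x : Fin N → Bool => G1 A t x φ).card := by
    refine card_le_card ?_
    intro x hx
    rw [hFin0, mem_filter] at hx
    obtain ⟨hxO, hxS⟩ := hx
    rw [hOm, mem_filter] at hxO
    rw [mem_filter]
    refine ⟨mem_univ _, ?_⟩
    intro c hc
    have hclow : c ∈ low := by rw [hlow, mem_filter]; exact ⟨mem_univ _, hc⟩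
    by_cases hcS : c ∈ S'
    · obtain ⟨i, hi1, hi2⟩ := hx0 c hcS
      refine ⟨i, hi1, ?_⟩
      rw [← hi2]
      apply hxO.2
      rw [hH']
      refine mem_union_right _ (mem_biUnion.2 ⟨c, hcS, ?_⟩)
      exact (g1c_mem_vars _ _).2 ⟨i, rfl⟩
    · have := hxS c (mem_sdiff.2 ⟨hclow, hcS⟩)
      rw [hEdef] at this
      push Not at this
      obtain ⟨i, hi1, hi2⟩ := this
      exact ⟨i, (mem_sdiff.1 (mem_sdiff.1 hi1).1).2, hi2⟩
  -- number of clauses
  have hSc : S.card ≤ N * D := by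
    have h5 := h2 univ (by simp)
    refine le_trans (card_le_card ?_) h5.le
    intro c hc
    have hc1 := (mem_sdiff.1 hc).1
    rw [hlow, mem_filter] at hc1
    rw [mem_filter]
    exact ⟨mem_univ _, hc1.2, ⟨0, by omega⟩, mem_univ _⟩
  have hH'c : H'.card ≤ (k + 1) * h0 := by
    have h5 : (S'.biUnion fun c => vars (φ c)).card ≤ S'.card * k :=
      card_biUnion_le_card_mul _ _ _ fun c _ => g1c_vars_card _
    have h6 : H'.card ≤ H.card + (S'.biUnion fun c => vars (φ c)).card := card_union_le _ _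
    nlinarith
  have hOmc : (2 : ℝ) ^ ((N : ℝ) - (k + 1) * h0) ≤ (Om.card : ℝ) := by
    have h5 := g1c_omega H' x0
    have h6 : (2 : ℝ) ^ N ≤ (Om.card : ℝ) * 2 ^ H'.card := by exact_mod_cast h5
    have h7 : (2 : ℝ) ^ H'.card ≤ 2 ^ ((k + 1) * h0) :=
      pow_le_pow_right₀ (by norm_num) hH'c
    have h8 : (2 : ℝ) ^ N ≤ (Om.card : ℝ) * 2 ^ ((k + 1) * h0) :=
      h6.trans (mul_le_mul_of_nonneg_left h7 (by positivity))
    rw [Real.rpow_sub (by norm_num), Real.rpow_natCast]
    have h9 : (2 : ℝ) ^ (((k : ℝ) + 1) * h0) = 2 ^ ((k + 1) * h0) := by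
      rw [← Real.rpow_natCast]; push_cast; rfl
    rw [h9, div_le_iff₀ (by positivity)]
    exact h8
  have hfin := g1c_pow q hqpos.le hq4 S.card (N * D) hSc
  have hexp : (4 * q * ((N * D : ℕ) : ℝ)) = 4 * N / 2 ^ t := by
    push_cast
    have : 4 * q * ((N : ℝ) * D) = 4 * N * (q * D) := by ring
    rw [this, hqD]; ring
  rw [hexp] at hfin
  calc (2 : ℝ) ^ ((N : ℝ) - (k + 1) * h0 - 4 * N / 2 ^ t)
      = 2 ^ (-(4 * (N : ℝ) / 2 ^ t)) * 2 ^ ((N : ℝ) - (k + 1) * h0) := by
        rw [← Real.rpow_add (by norm_num)]; congr 1; ring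
    _ ≤ (1 - 2 * q) ^ S.card * (Om.card : ℝ) :=
        mul_le_mul hfin hOmc (by positivity) (pow_nonneg (by linarith) _)
    _ ≤ _ := hmain
    _ ≤ _ := by exact_mod_cast hgood

end H542.RK.P
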