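import Mathlib
import Pool.Agent.H542R2.RK.Defs

set_option autoImplicit false

/-! RESAMP: one resampling step. -/

namespace H542.RK.P

open Finset H542.RK

variable {k N m n : ℕ}

/-- exchange of the clause number `c0` with an extra clause -/
def RESAMP_sw {α : Type} (c0 : Fin m) : Equiv.Perm ((Fin m → α) × α) :=
  Function.Involutive.toPerm (fun p => (Function.update p.1 c0 p.2, p.1 c0)) (by
    intro p
    simp)

theorem RESAMP_sw_fst {α : Type} (c0 : Fin m) (p : (Fin m → α) × α) :
    (RESAMP_sw c0 p).1 = Function.update p.1 c0 p.2 := rfl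

theorem RESAMP_sw_snd {α : Type} (c0 : Fin m) (p : (Fin m → α) × α) :
    (RESAMP_sw c0 p).2 = p.1 c0 := rfl

open Classical in
theorem RESAMP_one (B Q : Finset (Cl k N)) (hQ : Q ⊆ B) (c0 : Fin m)
    (F : (Fin m → Cl k N) → ℝ) (hF0 : ∀ φ, 0 ≤ F φ)
    (hF : ∀ φ (e : Cl k N), φ c0 ∈ B → e ∈ B → F (Function.update φ c0 e) = F φ) :
    (∑ φ : Fin m → Cl k N, if φ c0 ∈ Q then F φ else 0) ≤
      ((Q.card : ℝ) / B.card) * ∑ φ : Fin m → Cl k N, F φ := by
  rcases B.eq_empty_or_nonempty with hB | hB
  · have hQ0 : Q = ∅ := by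
      rw [hB] at hQ
      exact Finset.subset_empty.1 hQ
    rw [hQ0]
    simp
  have hBc : (0 : ℝ) < B.card := by exact_mod_cast hB.card_pos
  have e1 : ∑ p : (Fin m → Cl k N) × Cl k N,
      (if p.1 c0 ∈ Q ∧ p.2 ∈ B then F (Function.update p.1 c0 p.2) else 0) =
      ∑ p : (Fin m → Cl k N) × Cl k N, if p.2 ∈ Q ∧ p.1 c0 ∈ B then F p.1 else 0 := by
    rw [← Equiv.sum_comp (RESAMP_sw c0) (fun p : (Fin m → Cl k N) × Cl k N =>
      if p.2 ∈ Q ∧ p.1 c0 ∈ B then F p.1 else 0)]
    refine Finset.sum_congr rfl fun p _ => ?_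
    simp only [RESAMP_sw_fst, RESAMP_sw_snd, Function.update_self]
  have e2 : ∑ p : (Fin m → Cl k N) × Cl k N,
      (if p.1 c0 ∈ Q ∧ p.2 ∈ B then F (Function.update p.1 c0 p.2) else 0) =
      B.card * ∑ φ : Fin m → Cl k N, if φ c0 ∈ Q then F φ else 0 := by
    rw [Fintype.sum_prod_type, Finset.mul_sum]
    refine Finset.sum_congr rfl fun φ _ => ?_
    by_cases h : φ c0 ∈ Q
    · simp only [h, true_and, if_true]
      rw [← Finset.sum_filter]
      have : (Finset.univ.filter (fun e => e ∈ B)) = B := by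
        ext e
        simp
      rw [this, Finset.sum_congr rfl fun e he => hF φ e (hQ h) he, Finset.sum_const,
        nsmul_eq_mul]
    · simp [h]
  have e3 : ∑ p : (Fin m → Cl k N) × Cl k N, (if p.2 ∈ Q ∧ p.1 c0 ∈ B then F p.1 else 0) ≤
      Q.card * ∑ φ : Fin m → Cl k N, F φ := by
    rw [Fintype.sum_prod_type, Finset.mul_sum]
    refine Finset.sum_le_sum fun φ _ => ?_
    by_cases h : φ c0 ∈ B
    · simp only [h, and_true]
      rw [← Finset.sum_filter]
      have : (Finset.univ.filter (fun e => e ∈ Q)) = Q := by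
        ext e
        simp
      rw [this, Finset.sum_const, nsmul_eq_mul]
    · simp only [h, and_false, if_false, Finset.sum_const_zero]
      exact mul_nonneg (Nat.cast_nonneg _) (hF0 φ)
  rw [div_mul_eq_mul_div, le_div_iff₀ hBc, mul_comm]
  rw [← e2, e1]
  exact e3

open Classical in
/-- RESAMP: one resampling step.  `F` is not changed if a clause in `B` is replaced by another
clause in `B`. -/
theorem resamp (B Q : Finset (Cl k N)) (hQ : Q ⊆ B) (S : Finset (Fin m))
    (F : (Fin m → Cl k N) → ℝ) (hF0 : ∀ φ, 0 ≤ F φ)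
    (hF : ∀ φ (c : Fin m) (e : Cl k N), φ c ∈ B → e ∈ B → F (Function.update φ c e) = F φ) :
    (∑ φ : Fin m → Cl k N, if ∀ c ∈ S, φ c ∈ Q then F φ else 0) ≤
      ((Q.card : ℝ) / B.card) ^ S.card * ∑ φ : Fin m → Cl k N, F φ := by
  induction S using Finset.induction_on with
  | empty => simp
  | insert c0 S hc0 ih =>
    rw [Finset.card_insert_of_notMem hc0, pow_succ']
    have h1 : (∑ φ : Fin m → Cl k N, if ∀ c ∈ insert c0 S, φ c ∈ Q then F φ else 0) =
        ∑ φ : Fin m → Cl k N, if φ c0 ∈ Q then (if ∀ c ∈ S, φ c ∈ Q then F φ else 0) else 0 := by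
      refine Finset.sum_congr rfl fun φ _ => ?_
      by_cases ha : φ c0 ∈ Q
      · by_cases hb : ∀ c ∈ S, φ c ∈ Q
        · rw [if_pos ha, if_pos hb, if_pos]
          intro c hc
          rcases Finset.mem_insert.1 hc with rfl | hc
          · exact ha
          · exact hb c hc
        · rw [if_pos ha, if_neg hb, if_neg]
          intro h
          exact hb fun c hc => h c (Finset.mem_insert_of_mem hc)
      · rw [if_neg ha, if_neg]
        intro h
        exact ha (h c0 (Finset.mem_insert_self _ _))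
    rw [h1]
    have h2 := RESAMP_one B Q hQ c0 (fun φ => if ∀ c ∈ S, φ c ∈ Q then F φ else 0)
      (fun φ => by
        split_ifs
        · exact hF0 φ
        · exact le_rfl)
      (fun φ e he1 he2 => by
        have hne : ∀ c ∈ S, c ≠ c0 := by
          intro c hc h5
          rw [h5] at hc
          exact hc0 hc
        have h3 : (∀ c ∈ S, Function.update φ c0 e c ∈ Q) ↔ ∀ c ∈ S, φ c ∈ Q := by
          constructor
          · intro h c hc
            have h4 := h c hc
            rwa [Function.update_of_ne (hne c hc)] at h4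
          · intro h c hc
            rw [Function.update_of_ne (hne c hc)]
            exact h c hc
        simp only [h3, hF φ c0 e he1 he2])
    refine h2.trans ?_
    rw [mul_assoc]
    exact mul_le_mul_of_nonneg_left ih (by positivity)

end H542.RK.P
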