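import Mathlib
import Pool.Agent.H542R2.RK.Defs
import Pool.Agent.H542R2.RK.P_RESAMP

set_option autoImplicit false

/-!
HEXP (helper666): the residual formula expands.
-/

namespace H542.RK.P

open Finset

variable {k N m n : ℕ}

theorem hexp_pos (A : Finset (Fin N)) (t : ℕ) (c : Cl k N) (h : t ≤ na A c) :
    (pos A t c) ⊆ (univ.filter fun i => (c i).1 ∈ A) ∧ (pos A t c).card = t := by
  have h' : t ≤ (univ.filter fun i => (c i).1 ∈ A).card := h
  unfold pos
  rw [dif_pos h']
  exact (exists_subset_card_eq h').choose_spec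

theorem hexp_vs_sub (A : Finset (Fin N)) (t : ℕ) (c : Cl k N) : vs A t c ⊆ A := by
  unfold vs pos
  split_ifs with h
  · have := (exists_subset_card_eq h).choose_spec
    intro v hv
    obtain ⟨i, hi, rfl⟩ := Finset.mem_image.mp hv
    exact (Finset.mem_filter.mp (this.1 hi)).2
  · simp

open Classical in
theorem hexp_litcard (A : Finset (Fin N)) (x : Fin N → Bool) :
    (univ.filter fun l : Fin N × Bool => l.1 ∈ A ∨ x l.1 ≠ l.2).card ≤ N + A.card := by
  have hsub : (univ.filter fun l : Fin N × Bool => l.1 ∈ A ∨ x l.1 ≠ l.2) ⊆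
      ((univ : Finset (Fin N)).image fun v => (v, !x v)) ∪ (A.image fun v => (v, x v)) := by
    rintro ⟨v, b⟩ hl
    simp only [Finset.mem_filter, Finset.mem_univ, true_and] at hl
    rw [Finset.mem_union]
    by_cases h : x v = b
    · right
      rcases hl with h1 | h1
      · exact Finset.mem_image.mpr ⟨v, h1, by rw [h]⟩
      · exact absurd h h1
    · left
      refine Finset.mem_image.mpr ⟨v, Finset.mem_univ _, ?_⟩
      rw [Prod.mk.injEq]
      refine ⟨rfl, ?_⟩
      cases hb : b <;> cases hx : x v <;> simp_all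
  refine (Finset.card_le_card hsub).trans ((Finset.card_union_le _ _).trans ?_)
  apply add_le_add
  · refine Finset.card_image_le.trans ?_
    simp
  · exact Finset.card_image_le

open Classical in
theorem hexp_Q (A : Finset (Fin N)) (t : ℕ) (x : Fin N → Bool) (T : Finset (Fin N)) :
    (univ.filter fun c : Cl k N => Res A t x c ∧ vs A t c ⊆ T).card ≤
      k.choose t * ((2 * T.card) ^ t * (N + A.card) ^ (k - t)) := by
  set P : Finset (Fin N × Bool) := T ×ˢ (univ : Finset Bool) with hP
  set G : Finset (Fin N × Bool) := univ.filter fun l : Fin N × Bool => l.1 ∈ A ∨ x l.1 ≠ l.2 with hG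
  have hsub : (univ.filter fun c : Cl k N => Res A t x c ∧ vs A t c ⊆ T) ⊆
      (powersetCard t (univ : Finset (Fin k))).biUnion fun I =>
        Fintype.piFinset fun i => if i ∈ I then P else G := by
    intro c hc
    simp only [Finset.mem_filter, Finset.mem_univ, true_and] at hc
    obtain ⟨⟨h1, h2⟩, h3⟩ := hc
    rw [Finset.mem_biUnion]
    refine ⟨pos A t c, ?_, ?_⟩
    · rw [Finset.mem_powersetCard]
      exact ⟨Finset.subset_univ _, (hexp_pos A t c h1).2⟩
    · rw [Fintype.mem_piFinset]
      intro i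
      split_ifs with hi
      · rw [hP, Finset.mem_product]
        refine ⟨h3 ?_, Finset.mem_univ _⟩
        exact Finset.mem_image.mpr ⟨i, hi, rfl⟩
      · rw [hG, Finset.mem_filter]
        refine ⟨Finset.mem_univ _, ?_⟩
        by_cases hA : (c i).1 ∈ A
        · exact Or.inl hA
        · exact Or.inr (h2 i hA)
  refine (Finset.card_le_card hsub).trans (Finset.card_biUnion_le.trans ?_)
  have hterm : ∀ I ∈ powersetCard t (univ : Finset (Fin k)),
      (Fintype.piFinset fun i : Fin k => if i ∈ I then P else G).card ≤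
        (2 * T.card) ^ t * (N + A.card) ^ (k - t) := by
    intro I hI
    have hIc := (Finset.mem_powersetCard.mp hI).2
    rw [Fintype.card_piFinset]
    have h1 : ∀ i : Fin k, (if i ∈ I then P else G).card = if i ∈ I then P.card else G.card := by
      intro i
      split_ifs <;> rfl
    rw [Finset.prod_congr rfl (fun i _ => h1 i), Finset.prod_ite, Finset.prod_const,
      Finset.prod_const]
    have e1 : (univ.filter fun i : Fin k => i ∈ I).card = t := by
      rw [Finset.filter_univ_mem, hIc]
    have e2 : (univ.filter fun i : Fin k => i ∉ I).card = k - t := by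
      have h3 : (univ.filter fun i : Fin k => i ∉ I) = Iᶜ := by
        ext i; simp
      rw [h3, Finset.card_compl, Fintype.card_fin, hIc]
    rw [e1, e2]
    have hPc : P.card = 2 * T.card := by
      rw [hP, Finset.card_product, Finset.card_univ, Fintype.card_bool, mul_comm]
    rw [hPc]
    apply Nat.mul_le_mul_left
    exact Nat.pow_le_pow_left (hexp_litcard A x) _
  refine (Finset.sum_le_card_nsmul _ _ _ hterm).trans ?_
  rw [Finset.card_powersetCard, Finset.card_univ, Fintype.card_fin, smul_eq_mul]

theorem hexp_G1_update (A : Finset (Fin N)) (t : ℕ) (x : Fin N → Bool) (φ : Fin m → Cl k N)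
    (c : Fin m) (e : Cl k N) (h1 : t ≤ na A (φ c)) (h2 : t ≤ na A e) :
    G1 A t x (Function.update φ c e) ↔ G1 A t x φ := by
  unfold G1
  constructor
  · intro h c' hc'
    by_cases hcc : c' = c
    · subst hcc
      omega
    · have := h c'
      rw [Function.update_of_ne hcc] at this
      exact this hc'
  · intro h c' hc'
    by_cases hcc : c' = c
    · subst hcc
      rw [Function.update_self] at hc'
      omega
    · rw [Function.update_of_ne hcc] at hc' ⊢
      exact h c' hc'

open Classical in
/-- HEXP: given that the clauses with few alive positions are satisfied, the residual formula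
expands with high probability.  Uses `resamp`. -/
theorem hexp (A : Finset (Fin N)) (hA : A.card = n) (t d u0 : ℕ) (hd : 1 ≤ d) (ht : t = 4 * d)
    (htk : t ≤ k) (hN : 1 ≤ N) (hu : 3 * d * u0 ≤ n)
    (hlow : 2 * (univ.filter fun c : Cl k N => na A c < t).card ≤ Fintype.card (Cl k N)) :
    ∑ φ : Fin m → Cl k N,
      ((univ.filter fun x : Fin N → Bool => G1 A t x φ ∧ ¬ G2 A t d u0 x φ).card : ℝ) /
        (univ.filter fun x : Fin N → Bool => G1 A t x φ).card ≤
      Fintype.card (Fin m → Cl k N) * ∑ s ∈ Icc 1 u0, (m.choose s : ℝ) *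
        (n.choose (3 * d * s)) * (2 * ((k.choose t : ℝ) * (2 * (3 * d * s)) ^ t *
          (N + n) ^ (k - t)) / (2 * N) ^ k) ^ s := by
  set B : Finset (Cl k N) := univ.filter fun c => t ≤ na A c with hB
  set F : (Fin N → Bool) → (Fin m → Cl k N) → ℝ := fun x φ =>
    if G1 A t x φ then 1 / ((univ.filter fun x' : Fin N → Bool => G1 A t x' φ).card : ℝ) else 0
    with hF
  have hF0 : ∀ x φ, 0 ≤ F x φ := by
    intro x φ
    simp only [hF]
    split_ifs <;> positivity
  have hFinv : ∀ x φ (c : Fin m) (e : Cl k N), φ c ∈ B → e ∈ B →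
      F x (Function.update φ c e) = F x φ := by
    intro x φ c e h1 h2
    have h1' : t ≤ na A (φ c) := (Finset.mem_filter.mp h1).2
    have h2' : t ≤ na A e := (Finset.mem_filter.mp h2).2
    have hiff : ∀ x', G1 A t x' (Function.update φ c e) ↔ G1 A t x' φ := fun x' =>
      hexp_G1_update A t x' φ c e h1' h2'
    simp only [hF]
    simp only [hiff]
  set Q : (Fin N → Bool) → Finset (Fin N) → Finset (Cl k N) := fun x T =>
    univ.filter fun c : Cl k N => Res A t x c ∧ vs A t c ⊆ T with hQ
  have hQB : ∀ x T, Q x T ⊆ B := by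
    intro x T c hc
    rw [hB, Finset.mem_filter]
    exact ⟨Finset.mem_univ _, (Finset.mem_filter.mp hc).2.1.1⟩
  -- size of B
  have hcardCl : Fintype.card (Cl k N) = (2 * N) ^ k := by
    rw [Fintype.card_fun, Fintype.card_prod, Fintype.card_fin, Fintype.card_bool,
      Fintype.card_fin, mul_comm]
  have hBc : (2 * N) ^ k ≤ 2 * B.card := by
    have h1 : B.card + (univ.filter fun c : Cl k N => na A c < t).card = (2 * N) ^ k := by
      rw [← hcardCl, ← Finset.card_univ (α := Cl k N),
        ← Finset.card_filter_add_card_filter_not (s := (univ : Finset (Cl k N)))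
          (fun c => t ≤ na A c)]
      congr 2
      apply Finset.filter_congr
      intro c _
      rw [not_le]
    rw [hcardCl] at hlow
    omega
  have hBcR : ((2 * N : ℝ)) ^ k ≤ 2 * (B.card : ℝ) := by exact_mod_cast hBc
  have h2N : (0 : ℝ) < (2 * N : ℝ) ^ k := by
    have : (0 : ℝ) < N := by exact_mod_cast hN
    positivity
  have hBpos : (0 : ℝ) < B.card := by linarith
  -- ratio bound
  have hratio : ∀ x (s : ℕ), ∀ T ∈ powersetCard (3 * d * s) A,
      ((Q x T).card : ℝ) / B.card ≤ 2 * ((k.choose t : ℝ) * (2 * (3 * d * s)) ^ t *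
          (N + n) ^ (k - t)) / (2 * N) ^ k := by
    intro x s T hT
    have hTc := (Finset.mem_powersetCard.mp hT).2
    have h1 := hexp_Q (k := k) A t x T
    rw [hTc, hA] at h1
    have h2 : ((Q x T).card : ℝ) ≤ (k.choose t : ℝ) * ((2 * (3 * d * s)) ^ t * (N + n) ^ (k - t)) := by
      exact_mod_cast h1
    rw [div_le_div_iff₀ hBpos h2N]
    have h3 : (0 : ℝ) ≤ (k.choose t : ℝ) * ((2 * (3 * d * s)) ^ t * (N + n) ^ (k - t)) := by positivity
    calc ((Q x T).card : ℝ) * (2 * N) ^ k
        ≤ ((k.choose t : ℝ) * ((2 * (3 * d * s)) ^ t * (N + n) ^ (k - t))) * (2 * B.card) :=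
          mul_le_mul h2 hBcR h2N.le h3
      _ = 2 * ((k.choose t : ℝ) * (2 * (3 * d * s)) ^ t * (N + n) ^ (k - t)) * B.card := by ring
  -- the left-hand side as a double sum
  have hlhs : ∀ φ : Fin m → Cl k N,
      ((univ.filter fun x : Fin N → Bool => G1 A t x φ ∧ ¬ G2 A t d u0 x φ).card : ℝ) /
        (univ.filter fun x : Fin N → Bool => G1 A t x φ).card =
      ∑ x : Fin N → Bool, if ¬ G2 A t d u0 x φ then F x φ else 0 := by
    intro φ
    rw [Finset.card_filter, Nat.cast_sum, Finset.sum_div]
    apply Finset.sum_congr rfl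
    intro x _
    simp only [hF]
    by_cases h1 : G1 A t x φ
    · by_cases h2 : G2 A t d u0 x φ
      · simp [h1, h2]
      · simp [h1, h2]
    · simp [h1]
  rw [Finset.sum_congr rfl (fun φ _ => hlhs φ), Finset.sum_comm]
  -- pointwise union bound
  have hunion : ∀ x φ, (if ¬ G2 A t d u0 x φ then F x φ else 0) ≤
      ∑ s ∈ Icc 1 u0, ∑ S ∈ powersetCard s (univ : Finset (Fin m)),
        ∑ T ∈ powersetCard (3 * d * s) A, if ∀ c ∈ S, φ c ∈ Q x T then F x φ else 0 := by
    intro x φ
    have hnn : ∀ s ∈ Icc 1 u0, 0 ≤ ∑ S ∈ powersetCard s (univ : Finset (Fin m)),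
        ∑ T ∈ powersetCard (3 * d * s) A, (if ∀ c ∈ S, φ c ∈ Q x T then F x φ else 0) := by
      intro s _
      apply Finset.sum_nonneg
      intro S _
      apply Finset.sum_nonneg
      intro T _
      split_ifs
      · exact hF0 x φ
      · exact le_rfl
    by_cases hG : G2 A t d u0 x φ
    swap
    · rw [if_pos hG]
      unfold G2 at hG
      push Not at hG
      obtain ⟨S, hS1, hS2, hS3⟩ := hG
      have hS0 : 1 ≤ S.card := by
        rcases Nat.eq_zero_or_pos S.card with h | h
        · rw [h] at hS3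
          omega
        · exact h
      have hbA : (S.biUnion fun c => vs A t (φ c)) ⊆ A := by
        apply Finset.biUnion_subset.mpr
        intro c _
        exact hexp_vs_sub A t (φ c)
      obtain ⟨T, hT1, hT2, hT3⟩ := Finset.exists_subsuperset_card_eq hbA hS3.le (by
        rw [hA]
        exact (Nat.mul_le_mul_left _ hS1).trans hu)
      have hsm : S.card ∈ Icc 1 u0 := Finset.mem_Icc.mpr ⟨hS0, hS1⟩
      refine le_trans ?_ (Finset.single_le_sum hnn hsm)
      have hSm : S ∈ powersetCard S.card (univ : Finset (Fin m)) :=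
        Finset.mem_powersetCard.mpr ⟨Finset.subset_univ _, rfl⟩
      refine le_trans ?_ (Finset.single_le_sum (fun S _ => Finset.sum_nonneg (fun T _ => by
        split_ifs
        · exact hF0 x φ
        · exact le_rfl)) hSm)
      have hTm : T ∈ powersetCard (3 * d * S.card) A := Finset.mem_powersetCard.mpr ⟨hT2, hT3⟩
      refine le_trans ?_ (Finset.single_le_sum (fun T _ => by
        split_ifs
        · exact hF0 x φ
        · exact le_rfl) hTm)
      rw [if_pos]
      intro c hc
      simp only [hQ]
      rw [Finset.mem_filter]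
      refine ⟨Finset.mem_univ _, hS2 c hc, ?_⟩
      exact (Finset.subset_biUnion_of_mem (fun c => vs A t (φ c)) hc).trans hT1
    · rw [if_neg (not_not.mpr hG)]
      exact Finset.sum_nonneg hnn
  set Z : (Fin N → Bool) → ℝ := fun x => ∑ φ : Fin m → Cl k N, F x φ with hZ
  have hZ0 : ∀ x, 0 ≤ Z x := fun x => Finset.sum_nonneg fun φ _ => hF0 x φ
  set R : ℕ → ℝ := fun s => 2 * ((k.choose t : ℝ) * (2 * (3 * d * s)) ^ t *
          (N + n) ^ (k - t)) / (2 * N) ^ k with hR
  have hx : ∀ x, ∑ φ : Fin m → Cl k N, (if ¬ G2 A t d u0 x φ then F x φ else 0) ≤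
      Z x * ∑ s ∈ Icc 1 u0, (m.choose s : ℝ) * (n.choose (3 * d * s)) * R s ^ s := by
    intro x
    refine (Finset.sum_le_sum fun φ _ => hunion x φ).trans ?_
    rw [Finset.sum_comm, Finset.mul_sum]
    apply Finset.sum_le_sum
    intro s hs
    rw [Finset.sum_comm]
    have hST : ∀ S ∈ powersetCard s (univ : Finset (Fin m)),
        ∑ φ : Fin m → Cl k N, ∑ T ∈ powersetCard (3 * d * s) A,
          (if ∀ c ∈ S, φ c ∈ Q x T then F x φ else 0) ≤
        (n.choose (3 * d * s)) * (R s ^ s * Z x) := by
      intro S hS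
      have hSc := (Finset.mem_powersetCard.mp hS).2
      rw [Finset.sum_comm]
      have hT : ∀ T ∈ powersetCard (3 * d * s) A,
          ∑ φ : Fin m → Cl k N, (if ∀ c ∈ S, φ c ∈ Q x T then F x φ else 0) ≤
            R s ^ s * Z x := by
        intro T hT
        have h1 := resamp B (Q x T) (hQB x T) S (F x) (hF0 x) (hFinv x)
        refine h1.trans ?_
        rw [hSc]
        apply mul_le_mul_of_nonneg_right _ (hZ0 x)
        exact pow_le_pow_left₀ (by positivity) (hratio x s T hT) s
      refine (Finset.sum_le_card_nsmul _ _ _ hT).trans ?_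
      rw [Finset.card_powersetCard, hA, nsmul_eq_mul]
    refine (Finset.sum_le_card_nsmul _ _ _ hST).trans ?_
    rw [Finset.card_powersetCard, Finset.card_univ, Fintype.card_fin, nsmul_eq_mul]
    apply le_of_eq
    ring
  refine (Finset.sum_le_sum fun x _ => hx x).trans ?_
  rw [← Finset.sum_mul]
  have hRs : 0 ≤ ∑ s ∈ Icc 1 u0, (m.choose s : ℝ) * (n.choose (3 * d * s)) * R s ^ s := by
    apply Finset.sum_nonneg
    intro s _
    have : 0 ≤ R s := by
      simp only [hR]
      positivity
    positivity
  apply mul_le_mul_of_nonneg_right _ hRs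
  simp only [hZ]
  rw [Finset.sum_comm]
  have hφ : ∀ φ : Fin m → Cl k N, ∑ x : Fin N → Bool, F x φ ≤ 1 := by
    intro φ
    simp only [hF]
    rw [← Finset.sum_filter, Finset.sum_const, nsmul_eq_mul]
    rcases Nat.eq_zero_or_pos (univ.filter fun x' : Fin N → Bool => G1 A t x' φ).card with h | h
    · rw [h]; simp
    · rw [mul_one_div_cancel]
      exact_mod_cast h.ne'
  refine (Finset.sum_le_card_nsmul _ _ _ (fun φ _ => hφ φ)).trans ?_
  rw [Finset.card_univ, nsmul_eq_mul, mul_one]

end H542.RK.P
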