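import Pool.Agent.H542R2.RK.Defs

set_option autoImplicit false

namespace H542.RK.P

open Finset H542.RK

variable {k N m n : ℕ}

open Classical in
/-- LOWC: number of clauses with few alive positions. -/
theorem low_count (A : Finset (Fin N)) (hA : A.card = n) (t : ℕ) :
    ((univ.filter fun c : Cl k N => na A c < t).card : ℝ) ≤ 2 ^ t * (2 * N - n) ^ k := by
  set w : Fin N × Bool → ℝ := fun l => if l.1 ∈ A then 1 / 2 else 1 with hw
  have h1 : ∀ c : Cl k N, ∏ i, w (c i) = (1 / 2) ^ (na A c) := by
    intro c
    rw [hw]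
    simp only
    rw [prod_ite, prod_const, prod_const_one, mul_one, na]
  have h2 : ∑ l, w l = 2 * (N : ℝ) - n := by
    rw [hw]
    simp only
    rw [Fintype.sum_prod_type]
    have h0 : ∀ x : Fin N, (∑ _b : Bool, (if x ∈ A then (1 / 2 : ℝ) else 1)) = 2 * (if x ∈ A then (1 / 2 : ℝ) else 1) := by
      intro x
      rw [sum_const, card_univ, Fintype.card_bool, nsmul_eq_mul]
      norm_num
    rw [sum_congr rfl (fun x _ => h0 x), ← mul_sum, sum_ite, sum_const, sum_const, filter_mem_eq_inter, univ_inter, hA]
    have h3 : (univ.filter fun x : Fin N => x ∉ A).card = N - n := by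
      rw [← hA, filter_not, filter_mem_eq_inter, univ_inter, card_sdiff_of_subset (subset_univ _), card_univ, Fintype.card_fin]
    rw [h3]
    have h4 : n ≤ N := by
      rw [← hA]
      have := card_le_univ A
      rwa [Fintype.card_fin] at this
    rw [nsmul_eq_mul, nsmul_eq_mul, Nat.cast_sub h4]
    push_cast
    ring
  have h3 : ∑ c : Cl k N, ∏ i, w (c i) = (2 * (N : ℝ) - n) ^ k := by
    have := Finset.prod_univ_sum (fun _ : Fin k => (univ : Finset (Fin N × Bool))) (fun _ l => w l)
    rw [Fintype.piFinset_univ] at this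
    rw [← this, h2, prod_const, card_univ, Fintype.card_fin]
  calc ((univ.filter fun c : Cl k N => na A c < t).card : ℝ)
      = ∑ c ∈ univ.filter (fun c : Cl k N => na A c < t), (1 : ℝ) := by
        rw [sum_const, nsmul_eq_mul, mul_one]
    _ ≤ ∑ c ∈ univ.filter (fun c : Cl k N => na A c < t), (2 : ℝ) ^ t * ∏ i, w (c i) := by
        apply sum_le_sum
        intro c hc
        rw [mem_filter] at hc
        rw [h1 c, one_div, inv_pow, ← div_eq_mul_inv, one_le_div (by positivity)]
        exact pow_le_pow_right₀ (by norm_num) hc.2.le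
    _ ≤ ∑ c : Cl k N, (2 : ℝ) ^ t * ∏ i, w (c i) := by
        apply sum_le_sum_of_subset_of_nonneg (filter_subset _ _)
        intro c _ _
        rw [h1 c]
        positivity
    _ = 2 ^ t * (2 * N - n) ^ k := by rw [← mul_sum, h3]

end H542.RK.P
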