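import Mathlib
import Pool.Agent.H542R2.RK.Defs

set_option autoImplicit false

namespace H542.RK.P

open Finset

theorem NDG_choose (a b : ℕ) (hb : 1 ≤ b) :
    (a.choose b : ℝ) ≤ (Real.exp 1 * a / b) ^ b := by
  have hb0 : (0 : ℝ) < b := by exact_mod_cast hb
  have h1 : (a.choose b : ℝ) ≤ (a : ℝ) ^ b / (b.factorial : ℝ) := Nat.choose_le_pow_div b a
  have h2 : (b : ℝ) ^ b / (b.factorial : ℝ) ≤ Real.exp b :=
    Real.pow_div_factorial_le_exp b hb0.le b
  have hf : (0 : ℝ) < (b.factorial : ℝ) := by exact_mod_cast Nat.factorial_pos b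
  have hbb : (0 : ℝ) < (b : ℝ) ^ b := pow_pos hb0 b
  have h3 : (Real.exp 1 * a / b) ^ b = (a : ℝ) ^ b * (Real.exp b / (b : ℝ) ^ b) := by
    rw [div_pow, mul_pow, ← Real.exp_nat_mul, mul_one]
    ring
  rw [h3]
  refine h1.trans ?_
  rw [div_eq_mul_inv]
  refine mul_le_mul_of_nonneg_left ?_ (by positivity)
  rw [inv_le_comm₀ hf (by positivity), inv_div]
  rw [div_le_iff₀ (Real.exp_pos _)]
  rw [div_le_iff₀ hf] at h2
  linarith [mul_comm (Real.exp (b : ℝ)) (b.factorial : ℝ)]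

/-- NDG -/
theorem num_dg (k K N m n t h W D : ℕ) (hh : 1 ≤ h) (hhN : h ≤ N) (hn : n ≤ N) (hk : 1 ≤ k)
    (hm : m ≤ K * 2 ^ k * N) (hW : N ≤ h * W) (hD1 : 1 ≤ D)
    (hb : 2 * Real.exp 1 * K * k * 2 ^ k * 2 ^ t * (1 - (n : ℝ) / (2 * N)) ^ (k - 1) ≤ D)
    (hD : 2 * Real.exp 1 * W ≤ 2 ^ D) :
    (N.choose h : ℝ) * (m.choose (h * D)) *
        ((k * (2 * h) * (2 ^ t * (2 * N - n) ^ (k - 1))) / (2 * N) ^ k) ^ (h * D) ≤
      (1 / 2) ^ h := by
  have hN1 : 1 ≤ N := hh.trans hhN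
  have hN0 : (0 : ℝ) < N := by exact_mod_cast hN1
  have hh0 : (0 : ℝ) < h := by exact_mod_cast hh
  have hD0 : (0 : ℝ) < D := by exact_mod_cast hD1
  have hnN : (n : ℝ) ≤ N := by exact_mod_cast hn
  have hn0 : (0 : ℝ) ≤ n := Nat.cast_nonneg n
  have he : 0 < Real.exp 1 := Real.exp_pos 1
  have hhD : 1 ≤ h * D := Nat.mul_pos hh hD1
  have hmR : (m : ℝ) ≤ K * 2 ^ k * N := by exact_mod_cast hm
  have hWR : (N : ℝ) ≤ h * W := by exact_mod_cast hW
  set y : ℝ := 1 - (n : ℝ) / (2 * N) with hy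
  have hy0 : 0 ≤ y := by
    rw [hy, sub_nonneg, div_le_one (by positivity)]
    linarith
  have hX : ((k * (2 * h) * (2 ^ t * (2 * N - n) ^ (k - 1))) / (2 * N) ^ k : ℝ) =
      (k * h / N) * 2 ^ t * y ^ (k - 1) := by
    have h1 : (2 * (N : ℝ)) ^ k = (2 * N) * (2 * N) ^ (k - 1) := by
      rw [← pow_succ', Nat.sub_add_cancel hk]
    have h2 : y = (2 * N - n) / (2 * N) := by
      rw [hy]; field_simp
    rw [h1, h2, div_pow]
    have h3 : (2 * (N : ℝ)) ^ (k - 1) ≠ 0 := by positivity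
    field_simp
  rw [hX]
  set X : ℝ := (k * h / N) * 2 ^ t * y ^ (k - 1) with hXd
  have hX0 : 0 ≤ X := by positivity
  have hA : (m.choose (h * D) : ℝ) * X ^ (h * D) ≤ (1 / 2) ^ (h * D) := by
    have h1 := NDG_choose m (h * D) hhD
    have h2 : (m.choose (h * D) : ℝ) * X ^ (h * D) ≤
        (Real.exp 1 * m / ((h * D : ℕ) : ℝ) * X) ^ (h * D) := by
      rw [mul_pow (Real.exp 1 * m / ((h * D : ℕ) : ℝ)) X]
      exact mul_le_mul_of_nonneg_right h1 (pow_nonneg hX0 _)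
    refine h2.trans (pow_le_pow_left₀ (mul_nonneg (by positivity) hX0) ?_ _)
    have h3 : Real.exp 1 * m / ((h * D : ℕ) : ℝ) * X ≤
        Real.exp 1 * (K * 2 ^ k * N) / ((h * D : ℕ) : ℝ) * X := by
      gcongr
    refine h3.trans ?_
    have h4 : Real.exp 1 * (K * 2 ^ k * N) / ((h * D : ℕ) : ℝ) * X =
        (2 * Real.exp 1 * K * k * 2 ^ k * 2 ^ t * y ^ (k - 1)) / (2 * D) := by
      rw [hXd]
      push_cast
      field_simp
    rw [h4, div_le_iff₀ (by positivity)]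
    linarith
  have hB : (N.choose h : ℝ) ≤ (Real.exp 1 * W) ^ h := by
    refine (NDG_choose N h hh).trans (pow_le_pow_left₀ (by positivity) ?_ _)
    rw [div_le_iff₀ hh0]
    nlinarith
  calc (N.choose h : ℝ) * (m.choose (h * D)) * X ^ (h * D)
      = (N.choose h : ℝ) * ((m.choose (h * D)) * X ^ (h * D)) := by ring
    _ ≤ (Real.exp 1 * W) ^ h * (1 / 2) ^ (h * D) :=
        mul_le_mul hB hA (mul_nonneg (by positivity) (pow_nonneg hX0 _)) (by positivity)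
    _ = (Real.exp 1 * W * (1 / 2) ^ D) ^ h := by
        rw [mul_pow (Real.exp 1 * W), ← pow_mul, mul_comm D h]
    _ ≤ (1 / 2) ^ h := by
        refine pow_le_pow_left₀ (by positivity) ?_ _
        rw [one_div, inv_pow, ← div_eq_mul_inv, div_le_iff₀ (by positivity)]
        linarith

end H542.RK.P
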