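import Pool.Agent.H542R2.RK.Defs

set_option autoImplicit false

/-! Task NEX -/

namespace H542.RK.P

open Finset

theorem NEX_choose (a b : ℕ) (hb : 1 ≤ b) :
    (a.choose b : ℝ) ≤ (a : ℝ) ^ b * Real.exp 1 ^ b / (b : ℝ) ^ b := by
  have h1 : (a.choose b : ℝ) ≤ (a : ℝ) ^ b / (b.factorial : ℝ) := Nat.choose_le_pow_div b a
  have h2 : (b : ℝ) ^ b / (b.factorial : ℝ) ≤ Real.exp 1 ^ b := by
    rw [← Real.exp_nat_mul, mul_one]
    exact Real.pow_div_factorial_le_exp (b : ℝ) (by positivity) b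
  have hbpos : (0 : ℝ) < (b : ℝ) ^ b := by
    have : (0 : ℝ) < b := by exact_mod_cast hb
    positivity
  have hf : (0 : ℝ) < (b.factorial : ℝ) := by exact_mod_cast Nat.factorial_pos b
  refine h1.trans ?_
  rw [div_le_div_iff₀ hf hbpos]
  rw [div_le_iff₀ hf] at h2
  have h3 : (0 : ℝ) ≤ (a : ℝ) ^ b := by positivity
  nlinarith [mul_le_mul_of_nonneg_left h2 h3]

theorem NEX_sum (n : ℕ) : ∑ s ∈ Icc 1 n, (s : ℝ) * (1 / 2) ^ (s - 1) ≤ 4 := by
  have h : ∑ s ∈ Icc 1 n, (s : ℝ) * (1 / 2) ^ (s - 1) = 4 - (2 * n + 4) * (1 / 2) ^ n := by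
    induction n with
    | zero => norm_num
    | succ n ih =>
      rw [Finset.sum_Icc_succ_top (by omega), ih]
      have : n + 1 - 1 = n := by omega
      rw [this, pow_succ]
      push_cast
      ring
  rw [h]
  have : (0 : ℝ) ≤ (2 * n + 4) * (1 / 2) ^ n := by positivity
  linarith

theorem NEX_term (k r K Q N m s : ℕ) (hr3 : 3 ≤ r) (hrk : r < k) (hm : m ≤ K * 2 ^ k * N)
    (hs1 : 1 ≤ s) (hs : s * (k * 2 ^ Q) ≤ N) (hN : 1 ≤ N)
    (hQ : 2 * Real.exp 1 * K * k * (2 * Real.exp 1) ^ k ≤ ((2 : ℝ) ^ Q) ^ (r - 2)) :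
    (m.choose s : ℝ) * (N.choose ((k - r) * s)) *
      ((((k - r) * s : ℕ) : ℝ) / N) ^ (k * s) ≤ ((k : ℝ) * s / (2 * N)) ^ s := by
  obtain ⟨b, hb⟩ : ∃ b, k = b + r := ⟨k - r, by omega⟩
  have hb1 : 1 ≤ b := by omega
  have hkb : k - r = b := by omega
  rw [hkb]
  have hbs : 1 ≤ b * s := Nat.mul_pos hb1 hs1
  have c1 := NEX_choose m s hs1
  have c2 := NEX_choose N (b * s) hbs
  set e := Real.exp 1 with he
  have he1 : 1 ≤ e := Real.one_le_exp (by norm_num)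
  have he0 : 0 < e := by linarith
  have hNR : (0 : ℝ) < N := by exact_mod_cast hN
  have hsR : (0 : ℝ) < s := by exact_mod_cast hs1
  have hbR : (0 : ℝ) < b := by exact_mod_cast hb1
  set x : ℝ := ((b * s : ℕ) : ℝ) / N with hx
  have hx' : x = (b : ℝ) * s / N := by rw [hx]; push_cast; ring
  have hx0 : 0 < x := by rw [hx']; positivity
  -- combine
  have h1 : (m.choose s : ℝ) * (N.choose (b * s)) * x ^ (k * s) ≤
      (((m : ℝ) * e / s) * e ^ b * x ^ r) ^ s := by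
    have h2 : (m.choose s : ℝ) * (N.choose (b * s)) * x ^ (k * s) ≤
        ((m : ℝ) ^ s * e ^ s / (s : ℝ) ^ s) *
          ((N : ℝ) ^ (b * s) * e ^ (b * s) / ((b * s : ℕ) : ℝ) ^ (b * s)) * x ^ (k * s) := by
      refine mul_le_mul_of_nonneg_right ?_ (by positivity)
      exact mul_le_mul c1 c2 (by positivity) (by positivity)
    refine h2.trans (le_of_eq ?_)
    have h3 : (N : ℝ) ^ (b * s) * e ^ (b * s) / ((b * s : ℕ) : ℝ) ^ (b * s) * x ^ (b * s) =
        e ^ (b * s) := by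
      rw [hx]
      have h4 : (0 : ℝ) < ((b * s : ℕ) : ℝ) := by exact_mod_cast hbs
      rw [div_pow]
      field_simp
    have h5 : x ^ (k * s) = x ^ (b * s) * x ^ (r * s) := by
      rw [← pow_add, hb, add_mul]
    rw [h5]
    calc _ = ((m : ℝ) ^ s * e ^ s / (s : ℝ) ^ s) *
          ((N : ℝ) ^ (b * s) * e ^ (b * s) / ((b * s : ℕ) : ℝ) ^ (b * s) * x ^ (b * s)) *
          x ^ (r * s) := by ring
      _ = _ := by
        rw [h3]
        have e1 : (((m : ℝ) * e / s) * e ^ b * x ^ r) ^ s =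
            (((m : ℝ) * e) ^ s / (s : ℝ) ^ s) * (e ^ b) ^ s * (x ^ r) ^ s := by
          rw [mul_pow, mul_pow, div_pow]
        rw [e1, mul_pow, ← pow_mul, ← pow_mul]
  refine h1.trans ?_
  refine pow_le_pow_left₀ (by positivity) ?_ s
  -- the bracket
  set y : ℝ := (k : ℝ) * s / N with hy
  have hbk : (b : ℝ) ≤ k := by
    have : b ≤ k := by omega
    exact_mod_cast this
  have hk0 : (0 : ℝ) < k := lt_of_lt_of_le hbR hbk
  have hy0 : 0 < y := by rw [hy]; positivity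
  have hxy : x ≤ y := by
    rw [hx', hy]
    refine div_le_div_of_nonneg_right ?_ hNR.le
    exact mul_le_mul_of_nonneg_right hbk hsR.le
  have hyQ : y * 2 ^ Q ≤ 1 := by
    rw [hy, div_mul_eq_mul_div, div_le_one hNR]
    have : ((s * (k * 2 ^ Q) : ℕ) : ℝ) ≤ N := by exact_mod_cast hs
    push_cast at this
    calc (k : ℝ) * s * 2 ^ Q = s * (k * 2 ^ Q) := by ring
      _ ≤ N := this
  obtain ⟨q, hq⟩ : ∃ q, r = q + 2 := ⟨r - 2, by omega⟩
  have hrq : r - 2 = q := by omega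
  rw [hrq] at hQ
  have hmR : (m : ℝ) ≤ K * 2 ^ k * N := by exact_mod_cast hm
  -- (m e / s) * x = (m / N) e b
  have hA : (m : ℝ) * e / s * x ≤ K * 2 ^ k * e * k := by
    rw [hx']
    have : (m : ℝ) * e / s * (b * s / N) = m / N * (e * b) := by field_simp
    rw [this]
    have h6 : (m : ℝ) / N ≤ K * 2 ^ k := by
      rw [div_le_iff₀ hNR]; exact hmR
    calc (m : ℝ) / N * (e * b) ≤ (K * 2 ^ k) * (e * k) := by
          refine mul_le_mul h6 ?_ (by positivity) (by positivity)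
          exact mul_le_mul_of_nonneg_left hbk he0.le
      _ = _ := by ring
  have hB : e ^ b ≤ e ^ k := pow_le_pow_right₀ he1 (by omega)
  have hC : x ^ q ≤ y ^ q := pow_le_pow_left₀ hx0.le hxy q
  have hD : y ^ q * (2 * (K * 2 ^ k * e * k * e ^ k)) ≤ 1 := by
    have h7 : 2 * (K * 2 ^ k * e * k * e ^ k) ≤ ((2 : ℝ) ^ Q) ^ q := by
      refine le_trans (le_of_eq ?_) hQ
      rw [mul_pow]
      ring
    calc y ^ q * (2 * (K * 2 ^ k * e * k * e ^ k)) ≤ y ^ q * ((2 : ℝ) ^ Q) ^ q :=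
          mul_le_mul_of_nonneg_left h7 (by positivity)
      _ = (y * 2 ^ Q) ^ q := by rw [mul_pow]
      _ ≤ 1 := pow_le_one₀ (by positivity) hyQ
  have hE : (m : ℝ) * e / s * e ^ b * x ^ r = ((m : ℝ) * e / s * x) * e ^ b * x ^ q * x := by
    rw [hq, pow_add]; ring
  rw [hE]
  calc ((m : ℝ) * e / s * x) * e ^ b * x ^ q * x
      ≤ (K * 2 ^ k * e * k) * e ^ k * y ^ q * y := by
        refine mul_le_mul ?_ hxy hx0.le (by positivity)
        refine mul_le_mul ?_ hC (by positivity) (by positivity)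
        exact mul_le_mul hA hB (by positivity) (by positivity)
    _ = (y ^ q * (2 * (K * 2 ^ k * e * k * e ^ k))) * (y / 2) := by ring
    _ ≤ 1 * (y / 2) := mul_le_mul_of_nonneg_right hD (by positivity)
    _ = (k : ℝ) * s / (2 * N) := by rw [hy, one_mul]; field_simp

/-- NEX -/
theorem num_ex (k r K Q N m smax : ℕ) (hr3 : 3 ≤ r) (hrk : r < k) (hm : m ≤ K * 2 ^ k * N)
    (hs : smax * (k * 2 ^ Q) ≤ N) (hN : 1 ≤ N)
    (hQ : 2 * Real.exp 1 * K * k * (2 * Real.exp 1) ^ k ≤ ((2 : ℝ) ^ Q) ^ (r - 2)) :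
    ∑ s ∈ Icc 1 smax, (m.choose s : ℝ) * (N.choose ((k - r) * s)) *
      ((((k - r) * s : ℕ) : ℝ) / N) ^ (k * s) ≤ 2 * k / N := by
  have hNR : (0 : ℝ) < N := by exact_mod_cast hN
  have hkR : (0 : ℝ) ≤ k := by positivity
  have h1 : ∀ s ∈ Icc 1 smax, (m.choose s : ℝ) * (N.choose ((k - r) * s)) *
      ((((k - r) * s : ℕ) : ℝ) / N) ^ (k * s) ≤ (k : ℝ) / (2 * N) * (s * (1 / 2) ^ (s - 1)) := by
    intro s hsm
    rw [mem_Icc] at hsm
    have hs' : s * (k * 2 ^ Q) ≤ N := le_trans (Nat.mul_le_mul_right _ hsm.2) hs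
    refine (NEX_term k r K Q N m s hr3 hrk hm hsm.1 hs' hN hQ).trans ?_
    obtain ⟨u, hu⟩ : ∃ u, s = u + 1 := ⟨s - 1, by omega⟩
    have hus : s - 1 = u := by omega
    have h2 : (k : ℝ) * s / (2 * N) ≤ 1 / 2 := by
      rw [div_le_div_iff₀ (by positivity) (by norm_num)]
      have h3 : s * k ≤ N := by
        refine le_trans ?_ hs'
        exact Nat.mul_le_mul_left _ (Nat.le_mul_of_pos_right _ (by positivity))
      have h4 : (s : ℝ) * k ≤ N := by exact_mod_cast h3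
      nlinarith
    have h0 : 0 ≤ (k : ℝ) * s / (2 * N) := by positivity
    calc ((k : ℝ) * s / (2 * N)) ^ s = ((k : ℝ) * s / (2 * N)) ^ (s - 1) * ((k : ℝ) * s / (2 * N)) := by
          rw [hus, ← pow_succ, ← hu]
      _ ≤ (1 / 2) ^ (s - 1) * ((k : ℝ) * s / (2 * N)) :=
          mul_le_mul_of_nonneg_right (pow_le_pow_left₀ h0 h2 _) h0
      _ = _ := by ring
  refine (Finset.sum_le_sum h1).trans ?_
  rw [← Finset.mul_sum]
  calc (k : ℝ) / (2 * N) * ∑ s ∈ Icc 1 smax, ((s : ℝ) * (1 / 2) ^ (s - 1))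
      ≤ (k : ℝ) / (2 * N) * 4 := mul_le_mul_of_nonneg_left (NEX_sum smax) (by positivity)
    _ = 2 * k / N := by field_simp; norm_num

end H542.RK.P
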