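import Pool.Agent.H542R2.RK.Defs

set_option autoImplicit false

namespace H542.RK.P

open Finset H542.RK

lemma nhe_choose (a b : ℕ) (hb : 1 ≤ b) : (a.choose b : ℝ) ≤ (Real.exp 1 * a / b) ^ b := by
  have hb0 : (0 : ℝ) < b := by exact_mod_cast hb
  have h1 : (a.choose b : ℝ) ≤ (a : ℝ) ^ b / b.factorial := Nat.choose_le_pow_div b a
  have h2 := Real.pow_div_factorial_le_exp (b : ℝ) hb0.le b
  have h3 : (a : ℝ) ^ b / b.factorial = (a / b : ℝ) ^ b * ((b : ℝ) ^ b / b.factorial) := by
    rw [div_pow]; field_simp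
  rw [h3] at h1
  calc _ ≤ (a / b : ℝ) ^ b * ((b : ℝ) ^ b / b.factorial) := h1
    _ ≤ (a / b : ℝ) ^ b * Real.exp b := mul_le_mul_of_nonneg_left h2 (by positivity)
    _ = _ := by
      rw [mul_div_assoc, mul_pow, ← Real.exp_nat_mul, mul_one]; ring

/-- the third factor -/
lemma nhe_P (k L M N n t d s : ℕ) (ht : 1 ≤ t) (htk : t ≤ k) (hk : k ≤ 2 * L * M * t)
    (hn : 1 ≤ n) (hM : 1 ≤ M) (hnM : n * M ≤ N) :
    2 * ((k.choose t : ℝ) * (2 * (3 * d * s)) ^ t * (N + n) ^ (k - t)) / (2 * N) ^ k ≤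
      2 * (1 / 2) ^ k * (12 * Real.exp 1 * L * Real.exp (2 * L) * (d * s / n)) ^ t := by
  have hN1 : 1 ≤ N := le_trans (Nat.one_le_iff_ne_zero.2 (by positivity)) hnM
  have hN0 : (0 : ℝ) < N := by exact_mod_cast hN1
  have hn0 : (0 : ℝ) < n := by exact_mod_cast hn
  have ht0 : (0 : ℝ) < t := by exact_mod_cast ht
  have hM0 : (0 : ℝ) < M := by exact_mod_cast hM
  have hnM' : (n : ℝ) * M ≤ N := by exact_mod_cast hnM
  have hk' : (k : ℝ) ≤ 2 * L * M * t := by exact_mod_cast hk
  have he : 0 < Real.exp 1 := Real.exp_pos 1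
  have h1 : (k.choose t : ℝ) ≤ (2 * Real.exp 1 * L * M) ^ t := by
    refine (nhe_choose k t ht).trans ?_
    apply pow_le_pow_left₀ (by positivity)
    rw [div_le_iff₀ ht0]
    calc Real.exp 1 * k ≤ Real.exp 1 * (2 * L * M * t) := mul_le_mul_of_nonneg_left hk' he.le
      _ = _ := by ring
  have h2 : ((N : ℝ) + n) ^ (k - t) ≤ (N : ℝ) ^ (k - t) * Real.exp (2 * L) ^ t := by
    have h3 : (N : ℝ) + n = N * (1 + n / N) := by field_simp
    rw [h3, mul_pow]
    apply mul_le_mul_of_nonneg_left _ (by positivity)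
    have h4 : 1 + (n : ℝ) / N ≤ Real.exp (n / N) := by
      have := Real.add_one_le_exp ((n : ℝ) / N)
      linarith
    calc (1 + (n : ℝ) / N) ^ (k - t) ≤ (Real.exp (n / N)) ^ (k - t) := pow_le_pow_left₀ (by positivity) h4 _
      _ = Real.exp ((k - t : ℕ) * (n / N)) := by rw [Real.exp_nat_mul]
      _ ≤ Real.exp (t * (2 * L)) := by
          apply Real.exp_le_exp.2
          have h5 : ((k - t : ℕ) : ℝ) ≤ k := by exact_mod_cast Nat.sub_le k t
          calc ((k - t : ℕ) : ℝ) * (n / N) ≤ (2 * L * M * t) * (n / N) :=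
                mul_le_mul_of_nonneg_right (h5.trans hk') (by positivity)
            _ = (2 * L * t) * ((n * M) / N) := by ring
            _ ≤ (2 * L * t) * 1 := by
                apply mul_le_mul_of_nonneg_left _ (by positivity)
                rw [div_le_one hN0]; exact hnM'
            _ = t * (2 * L) := by ring
      _ = _ := by rw [Real.exp_nat_mul]
  have h6 : (N : ℝ) ^ k = (N : ℝ) ^ (k - t) * (N : ℝ) ^ t := by
    rw [← pow_add]; congr 1; omega
  have hds : (0 : ℝ) ≤ (d : ℝ) * s := by positivity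
  calc 2 * ((k.choose t : ℝ) * (2 * (3 * d * s)) ^ t * (N + n) ^ (k - t)) / (2 * N) ^ k
      ≤ 2 * ((2 * Real.exp 1 * L * M) ^ t * (2 * (3 * d * s)) ^ t * ((N : ℝ) ^ (k - t) * Real.exp (2 * L) ^ t)) / (2 * N) ^ k := by
        apply div_le_div_of_nonneg_right _ (by positivity)
        apply mul_le_mul_of_nonneg_left _ (by norm_num)
        apply mul_le_mul _ h2 (by positivity) (by positivity)
        exact mul_le_mul_of_nonneg_right h1 (by positivity)
    _ = 2 * (1 / 2) ^ k * (12 * Real.exp 1 * L * Real.exp (2 * L) * (d * s) * M / N) ^ t := by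
        rw [mul_pow (2 : ℝ) (N : ℝ) k, h6, div_pow, one_pow]
        have e1 : (12 * Real.exp 1 * L * Real.exp (2 * L) * (d * s) * M : ℝ) =
            (2 * Real.exp 1 * L * M) * (2 * (3 * d * s)) * Real.exp (2 * L) := by ring
        have e5 : ((2 * Real.exp 1 * L * M) * (2 * (3 * d * s)) * Real.exp (2 * L) : ℝ) ^ t =
            (2 * Real.exp 1 * L * M) ^ t * (2 * (3 * d * s)) ^ t * Real.exp (2 * L) ^ t := by
          rw [mul_pow (_ * _) _ t, mul_pow (2 * Real.exp 1 * L * M : ℝ) _ t]
        rw [e1, div_pow, e5]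
        have e2 : (N : ℝ) ^ (k - t) ≠ 0 := by positivity
        have e3 : (N : ℝ) ^ t ≠ 0 := by positivity
        generalize (N : ℝ) ^ (k - t) = A at *
        generalize (N : ℝ) ^ t = B at *
        generalize (2 * Real.exp 1 * L * M : ℝ) ^ t = C
        generalize (2 * (3 * d * s) : ℝ) ^ t = D
        generalize Real.exp (2 * L) ^ t = E
        have e4 : (2 : ℝ) ^ k ≠ 0 := by positivity
        generalize (2 : ℝ) ^ k = F at *
        field_simp
    _ ≤ _ := by
        apply mul_le_mul_of_nonneg_left _ (by positivity)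
        apply pow_le_pow_left₀ (by positivity)
        rw [mul_assoc, mul_div_assoc, mul_div_assoc]
        have h7 : (M : ℝ) / N ≤ 1 / n := by
          rw [div_le_div_iff₀ hN0 hn0]; linarith
        calc 12 * Real.exp 1 * L * Real.exp (2 * L) * ((d * s : ℝ) * (M / N))
            ≤ 12 * Real.exp 1 * L * Real.exp (2 * L) * ((d * s : ℝ) * (1 / n)) := by
              apply mul_le_mul_of_nonneg_left _ (by positivity)
              exact mul_le_mul_of_nonneg_left h7 hds
          _ = _ := by ring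

/-- NHE -/
theorem num_hexp (k K L M N n m t d u0 : ℕ) (κ : ℝ)
    (hκ : κ = Real.exp 3 * (12 * Real.exp 1 * L * Real.exp (2 * L)) ^ 4) (hd : 2 ≤ d)
    (ht : t = 4 * d) (htk : t ≤ k) (hk : k ≤ 2 * L * M * t) (hM : 1 ≤ M) (hL : 1 ≤ L)
    (hn : 1 ≤ n) (hnM : n * M ≤ N) (hN : N ≤ 2 * n * M) (hm : m ≤ K * 2 ^ k * N)
    (hu : 2 * κ * d * u0 ≤ n) (hK : 8 * Real.exp 1 * K * M * κ * d ≤ 2 ^ (d - 2)) :
    ∑ s ∈ Icc 1 u0, (m.choose s : ℝ) * (n.choose (3 * d * s)) *
      (2 * ((k.choose t : ℝ) * (2 * (3 * d * s)) ^ t * (N + n) ^ (k - t)) / (2 * N) ^ k) ^ s ≤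
    κ * d / n := by
  have hn0 : (0 : ℝ) < n := by exact_mod_cast hn
  have hd0 : (0 : ℝ) < d := by exact_mod_cast (by omega : 0 < d)
  have he : 0 < Real.exp 1 := Real.exp_pos 1
  have hL0 : (0 : ℝ) < L := by exact_mod_cast hL
  set c0 : ℝ := 12 * Real.exp 1 * L * Real.exp (2 * L) with hc0
  have hc00 : 0 < c0 := by rw [hc0]; positivity
  have hκ0 : 0 < κ := by rw [hκ]; positivity
  have key : ∀ s ∈ Icc 1 u0, (m.choose s : ℝ) * (n.choose (3 * d * s)) *
      (2 * ((k.choose t : ℝ) * (2 * (3 * d * s)) ^ t * (N + n) ^ (k - t)) / (2 * N) ^ k) ^ s ≤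
      κ * d / (2 * n) * (1 / 2) ^ (s - 1) := by
    intro s hs
    rw [mem_Icc] at hs
    have hs0 : (0 : ℝ) < s := by exact_mod_cast hs.1
    have hP := nhe_P k L M N n t d s (by omega) htk hk hn hM hnM
    set P : ℝ := 2 * ((k.choose t : ℝ) * (2 * (3 * d * s)) ^ t * (N + n) ^ (k - t)) / (2 * N) ^ k with hPd
    have hP0 : 0 ≤ P := by rw [hPd]; positivity
    have hy : κ * d * s / n ≤ 1 / 2 := by
      rw [div_le_iff₀ hn0]
      have h1 : 2 * κ * d * s ≤ 2 * κ * d * u0 := by
        apply mul_le_mul_of_nonneg_left _ (by positivity)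
        exact_mod_cast hs.2
      linarith
    have hy0 : 0 ≤ κ * d * s / n := by positivity
    have hms : Real.exp 1 * m / s ≤ Real.exp 1 * (K * 2 ^ k * (2 * n * M)) / s := by
      apply div_le_div_of_nonneg_right _ hs0.le
      apply mul_le_mul_of_nonneg_left _ he.le
      have h2 : (m : ℝ) ≤ K * 2 ^ k * N := by exact_mod_cast hm
      have h3 : (N : ℝ) ≤ 2 * n * M := by exact_mod_cast hN
      calc (m : ℝ) ≤ K * 2 ^ k * N := h2
        _ ≤ _ := mul_le_mul_of_nonneg_left h3 (by positivity)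
    have hbr : (Real.exp 1 * m / s) * (Real.exp 1 * n / (3 * d * s)) ^ (3 * d) * P ≤ κ * d * s / n / 2 := by
      calc (Real.exp 1 * m / s) * (Real.exp 1 * n / (3 * d * s)) ^ (3 * d) * P
          ≤ (Real.exp 1 * (K * 2 ^ k * (2 * n * M)) / s) * (Real.exp 1 * n / (3 * d * s)) ^ (3 * d) *
            (2 * (1 / 2) ^ k * (c0 * (d * s / n)) ^ t) := by
            apply mul_le_mul _ hP hP0 (by positivity)
            exact mul_le_mul_of_nonneg_right hms (by positivity)
        _ = 4 * Real.exp 1 * K * M * (n / s) * ((Real.exp 1 * n / (3 * d * s)) ^ 3 * (c0 * (d * s / n)) ^ 4) ^ d := by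
            rw [ht, pow_mul, pow_mul, mul_pow (_ ^ 3) (_ ^ 4) d]
            have e1 : ((2 : ℝ) ^ k) * (1 / 2) ^ k = 1 := by
              rw [← mul_pow]; norm_num
            generalize ((Real.exp 1 * n / (3 * d * s)) ^ 3) ^ d = A
            generalize ((c0 * (d * s / n)) ^ 4) ^ d = B
            calc _ = 4 * Real.exp 1 * K * M * (n / s) * (A * B) * (2 ^ k * (1 / 2) ^ k) := by ring
              _ = _ := by rw [e1, mul_one]
        _ ≤ 4 * Real.exp 1 * K * M * (n / s) * (κ * d * s / n) ^ d := by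
            apply mul_le_mul_of_nonneg_left _ (by positivity)
            apply pow_le_pow_left₀ (by positivity)
            have e2 : Real.exp 3 = Real.exp 1 ^ 3 := by
              rw [← Real.exp_nat_mul]; norm_num
            have e3 : (Real.exp 1 * n / (3 * d * s)) ^ 3 * (c0 * (d * s / n)) ^ 4 = (κ * d * s / n) / 27 := by
              rw [hκ, e2]
              field_simp
              ring
            rw [e3]
            linarith
        _ = 4 * Real.exp 1 * K * M * κ * d * ((κ * d * s / n) * (κ * d * s / n) ^ (d - 2)) := by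
            have e4 : (κ * d * s / n) ^ d = (κ * d * s / n) * ((κ * d * s / n) * (κ * d * s / n) ^ (d - 2)) := by
              rw [← pow_succ', ← pow_succ']; congr 1; omega
            rw [e4]
            generalize (κ * d * s / n) * (κ * d * s / n) ^ (d - 2) = W
            field_simp
        _ ≤ 4 * Real.exp 1 * K * M * κ * d * ((κ * d * s / n) * (1 / 2) ^ (d - 2)) := by
            apply mul_le_mul_of_nonneg_left _ (by positivity)
            apply mul_le_mul_of_nonneg_left _ hy0
            exact pow_le_pow_left₀ hy0 hy _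
        _ = (8 * Real.exp 1 * K * M * κ * d) * (1 / 2) ^ (d - 2) * (κ * d * s / n / 2) := by ring
        _ ≤ 2 ^ (d - 2) * (1 / 2) ^ (d - 2) * (κ * d * s / n / 2) := by
            apply mul_le_mul_of_nonneg_right _ (by positivity)
            exact mul_le_mul_of_nonneg_right hK (by positivity)
        _ = κ * d * s / n / 2 := by
            rw [← mul_pow]; norm_num
    have hbr0 : 0 ≤ (Real.exp 1 * m / s) * (Real.exp 1 * n / (3 * d * s)) ^ (3 * d) * P := by positivity
    have hz : κ * d * s / n / 2 ≤ 1 / 4 := by linarith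
    have hz0 : 0 ≤ κ * d * s / n / 2 := by positivity
    have hc1 := nhe_choose m s hs.1
    have hc2 := nhe_choose n (3 * d * s) (by
      have : 0 < d := by omega
      have : 0 < s := hs.1
      exact Nat.one_le_iff_ne_zero.2 (by positivity))
    push_cast at hc2
    calc (m.choose s : ℝ) * (n.choose (3 * d * s)) * P ^ s
        ≤ (Real.exp 1 * m / s) ^ s * ((Real.exp 1 * n / (3 * d * s)) ^ (3 * d * s)) * P ^ s := by
          apply mul_le_mul_of_nonneg_right _ (by positivity)
          exact mul_le_mul hc1 hc2 (by positivity) (by positivity)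
      _ = ((Real.exp 1 * m / s) * (Real.exp 1 * n / (3 * d * s)) ^ (3 * d) * P) ^ s := by
          rw [mul_pow, mul_pow, ← pow_mul]
      _ ≤ (κ * d * s / n / 2) ^ s := pow_le_pow_left₀ hbr0 hbr s
      _ = (κ * d * s / n / 2) * (κ * d * s / n / 2) ^ (s - 1) := by
          rw [← pow_succ']; congr 1; omega
      _ ≤ (κ * d * s / n / 2) * (1 / 4) ^ (s - 1) := by
          apply mul_le_mul_of_nonneg_left _ hz0
          exact pow_le_pow_left₀ hz0 hz _
      _ = κ * d / (2 * n) * ((s : ℝ) * (1 / 2) ^ (s - 1)) * (1 / 2) ^ (s - 1) := by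
          have e5 : (1 / 4 : ℝ) ^ (s - 1) = (1 / 2) ^ (s - 1) * (1 / 2) ^ (s - 1) := by
            rw [← mul_pow]; norm_num
          rw [e5]
          field_simp
      _ ≤ κ * d / (2 * n) * 1 * (1 / 2) ^ (s - 1) := by
          apply mul_le_mul_of_nonneg_right _ (by positivity)
          apply mul_le_mul_of_nonneg_left _ (by positivity)
          have h9 : s ≤ 2 ^ (s - 1) := by
            have := Nat.lt_two_pow_self (n := s - 1)
            omega
          have h10 : (s : ℝ) ≤ 2 ^ (s - 1) := by exact_mod_cast h9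
          calc (s : ℝ) * (1 / 2) ^ (s - 1) ≤ 2 ^ (s - 1) * (1 / 2) ^ (s - 1) :=
                mul_le_mul_of_nonneg_right h10 (by positivity)
            _ = 1 := by rw [← mul_pow]; norm_num
      _ = _ := by ring
  refine (sum_le_sum key).trans ?_
  rw [← mul_sum]
  have hgeo : ∀ u : ℕ, ∑ s ∈ Icc 1 u, (1 / 2 : ℝ) ^ (s - 1) ≤ 2 - 2 * (1 / 2) ^ u := by
    intro u
    induction u with
    | zero => simp
    | succ u ih =>
      rw [sum_Icc_succ_top (by omega)]
      rw [Nat.add_sub_cancel, pow_succ]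
      linarith
  have hg := hgeo u0
  have hp : (0 : ℝ) ≤ 2 * (1 / 2) ^ u0 := by positivity
  calc κ * d / (2 * n) * ∑ s ∈ Icc 1 u0, (1 / 2 : ℝ) ^ (s - 1) ≤ κ * d / (2 * n) * 2 := by
        apply mul_le_mul_of_nonneg_left _ (by positivity)
        linarith
    _ = κ * d / n := by field_simp

end H542.RK.P
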