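import Pool.Agent.H542R2.RK.Defs

set_option autoImplicit false

namespace H542.RK.P

open Finset

variable {k N m : ℕ}

open Classical in
theorem satc_lit (z : Fin N → Bool) :
    (univ.filter fun p : Fin N × Bool => z p.1 ≠ p.2).card = N := by
  have h : (univ.filter fun p : Fin N × Bool => z p.1 ≠ p.2) =
      univ.image fun v : Fin N => (v, !z v) := by
    ext ⟨v, b⟩
    simp only [mem_filter, mem_univ, true_and, mem_image, Prod.mk.injEq]
    constructor
    · intro h
      refine ⟨v, rfl, ?_⟩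
      cases hz : z v <;> cases b <;> simp_all
    · rintro ⟨w, rfl, rfl⟩
      cases z w <;> simp
  rw [h, card_image_of_injective _ (fun a b hab => (Prod.mk.inj hab).1), card_univ,
    Fintype.card_fin]

open Classical in
theorem satc_good (z : Fin N → Bool) :
    ((univ.filter fun c : Cl k N => ∃ i, z (c i).1 = (c i).2).card : ℝ) =
      (2 * N) ^ k * (1 - 1 / 2 ^ k) := by
  have h1 : (univ.filter fun c : Cl k N => ¬ ∃ i, z (c i).1 = (c i).2) =
      Fintype.piFinset fun _ : Fin k => univ.filter fun p : Fin N × Bool => z p.1 ≠ p.2 := by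
    ext c
    simp [Fintype.mem_piFinset]
  have h2 : (univ.filter fun c : Cl k N => ¬ ∃ i, z (c i).1 = (c i).2).card = N ^ k := by
    rw [h1, Fintype.card_piFinset]
    simp [satc_lit]
  have h3 := card_filter_add_card_filter_not (s := (univ : Finset (Cl k N)))
    (fun c : Cl k N => ∃ i, z (c i).1 = (c i).2)
  rw [h2] at h3
  have h4 : (univ : Finset (Cl k N)).card = (2 * N) ^ k := by
    rw [card_univ]
    simp [Cl, mul_comm]
  rw [h4] at h3
  have h5 : ((univ.filter fun c : Cl k N => ∃ i, z (c i).1 = (c i).2).card : ℝ) + (N : ℝ) ^ k =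
      (2 * N) ^ k := by exact_mod_cast h3
  have h6 : ((2 : ℝ) * N) ^ k * (1 / 2 ^ k) = (N : ℝ) ^ k := by
    rw [mul_pow]
    field_simp
  rw [mul_sub, mul_one, h6]
  linarith

open Classical in
/-- SATC -/
theorem sat_count (hN : 1 ≤ N) :
    ((univ.filter fun φ : Fin m → Cl k N => ∃ z : Fin N → Bool, ∀ c, ∃ i,
      z (φ c i).1 = (φ c i).2).card : ℝ) ≤
      Fintype.card (Fin m → Cl k N) * (2 ^ N * (1 - 1 / 2 ^ k) ^ m) := by
  have h1 : (univ.filter fun φ : Fin m → Cl k N => ∃ z : Fin N → Bool, ∀ c, ∃ i,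
      z (φ c i).1 = (φ c i).2) ⊆ (univ : Finset (Fin N → Bool)).biUnion fun z =>
        Fintype.piFinset fun _ : Fin m => univ.filter fun c : Cl k N =>
          ∃ i, z (c i).1 = (c i).2 := by
    intro φ hφ
    simp only [mem_filter, mem_univ, true_and] at hφ
    obtain ⟨z, hz⟩ := hφ
    simp only [mem_biUnion, mem_univ, true_and, Fintype.mem_piFinset, mem_filter]
    exact ⟨z, hz⟩
  have h2 := (card_le_card h1).trans card_biUnion_le
  have h3 : ∀ z : Fin N → Bool, ((Fintype.piFinset fun _ : Fin m =>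
      univ.filter fun c : Cl k N => ∃ i, z (c i).1 = (c i).2).card : ℝ) =
      ((2 * N) ^ k * (1 - 1 / 2 ^ k)) ^ m := by
    intro z
    rw [Fintype.card_piFinset]
    simp only [prod_const, card_univ, Fintype.card_fin]
    rw [Nat.cast_pow, satc_good]
  have h4 : (Fintype.card (Fin m → Cl k N) : ℝ) = ((2 * N) ^ k) ^ m := by
    simp [Cl, mul_comm]
  calc _ ≤ ((∑ z : Fin N → Bool, (Fintype.piFinset fun _ : Fin m =>
      univ.filter fun c : Cl k N => ∃ i, z (c i).1 = (c i).2).card : ℕ) : ℝ) := by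
        exact_mod_cast h2
    _ = 2 ^ N * ((2 * N) ^ k * (1 - 1 / 2 ^ k)) ^ m := by
        rw [Nat.cast_sum]
        simp only [h3, sum_const, card_univ, nsmul_eq_mul]
        simp
    _ = _ := by
        rw [h4, mul_pow ((2 * (N : ℝ)) ^ k)]
        ring

end H542.RK.P
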