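import Mathlib
import Pool.Agent.H542R2.RK.Defs
import Pool.Agent.H542R2.BlockMoment

set_option autoImplicit false

/-! SHR: exponential moment of the decision tree depth for formulas over `Fin N`. -/

namespace H542.RK.P

open Finset

variable {k N m n : ℕ}

/-- substitution of the values `x''` of the variables outside of the blocks, and renaming -/
def SHR_tr {M : ℕ} (n : ℕ) (hM : 1 ≤ M) (x'' : Fin N → Bool) : T (Fin N) → T (Fin n × Fin M) ⊕ Bool
  | .lit v s => if h : v.val / M < n then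
      .inl (.lit (⟨v.val / M, h⟩, ⟨v.val % M, Nat.mod_lt _ hM⟩) s) else .inr (x'' v == s)
  | .nd c f g => comb c (SHR_tr n hM x'' f) (SHR_tr n hM x'' g)

def SHR_trs {M : ℕ} (n : ℕ) (hM : 1 ≤ M) (x'' : Fin N → Bool) :
    T (Fin N) ⊕ Bool → T (Fin n × Fin M) ⊕ Bool
  | .inl f => SHR_tr n hM x'' f
  | .inr a => .inr a

/-- values `x'` in the blocks, `x''` outside -/
def SHR_mg {M : ℕ} (n : ℕ) (hM : 1 ≤ M) (x' : Fin n × Fin M → Bool) (x'' : Fin N → Bool)
    (v : Fin N) : Bool :=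
  if h : v.val / M < n then x' (⟨v.val / M, h⟩, ⟨v.val % M, Nat.mod_lt _ hM⟩) else x'' v

theorem SHR_ev {M : ℕ} (hM : 1 ≤ M) (x' : Fin n × Fin M → Bool) (x'' : Fin N → Bool)
    (J : Fin n → Fin M) (y : Fin n → Bool) (f : T (Fin N)) :
    evs (mv J x' y) (SHR_tr n hM x'' f) = f.ev (rst J (SHR_mg n hM x' x'') y) := by
  induction f with
  | lit v s =>
    simp only [SHR_tr, T.ev]
    by_cases h : v.val / M < n
    · rw [dif_pos h]
      simp only [evs, T.ev, mv, rst, SHR_mg, dif_pos h, Fin.ext_iff]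
    · rw [dif_neg h]
      simp only [evs, rst, SHR_mg, dif_neg h]
  | nd c f g hf hg =>
    simp only [SHR_tr, T.ev, evs_comb, hf, hg]

theorem SHR_evs {M : ℕ} (hM : 1 ≤ M) (x' : Fin n × Fin M → Bool) (x'' : Fin N → Bool)
    (J : Fin n → Fin M) (y : Fin n → Bool) (ψ : T (Fin N) ⊕ Bool) :
    evs (mv J x' y) (SHR_trs n hM x'' ψ) = evs (rst J (SHR_mg n hM x' x'') y) ψ := by
  rcases ψ with f | a
  · exact SHR_ev hM x' x'' J y f
  · rfl

theorem SHR_leaves {M : ℕ} (hM : 1 ≤ M) (x'' : Fin N → Bool) (f : T (Fin N)) :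
    leavess (SHR_tr n hM x'' f) ≤ f.leaves := by
  induction f with
  | lit v s =>
    simp only [SHR_tr, T.leaves]
    split_ifs
    · simp [leavess, T.leaves]
    · simp [leavess]
  | nd c f g hf hg =>
    simp only [SHR_tr, T.leaves]
    exact (leavess_comb c _ _).trans (by omega)

theorem SHR_leavess {M : ℕ} (hM : 1 ≤ M) (x'' : Fin N → Bool) (ψ : T (Fin N) ⊕ Bool) :
    leavess (SHR_trs n hM x'' ψ) ≤ leavess ψ := by
  rcases ψ with f | a
  · exact SHR_leaves hM x'' f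
  · exact le_refl _

/-- the embedding of the blocks -/
def SHR_emb {M : ℕ} (hnM : n * M ≤ N) (p : Fin n × Fin M) : Fin N :=
  ⟨p.1.val * M + p.2.val, by
    have h1 := p.1.2
    have h2 := p.2.2
    have h3 : (p.1.val + 1) * M ≤ n * M := Nat.mul_le_mul_right M h1
    have h4 : (p.1.val + 1) * M = p.1.val * M + M := by ring
    omega⟩

theorem SHR_mg_emb {M : ℕ} (hM : 1 ≤ M) (hnM : n * M ≤ N) (x' : Fin n × Fin M → Bool)
    (x'' : Fin N → Bool) (p : Fin n × Fin M) :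
    SHR_mg n hM x' x'' (SHR_emb hnM p) = x' p := by
  have h1 := p.1.2
  have h2 := p.2.2
  have h3 : (p.1.val * M + p.2.val) / M = p.1.val := by
    rw [mul_comm, Nat.mul_add_div (by omega), Nat.div_eq_of_lt h2, add_zero]
  have h4 : (p.1.val * M + p.2.val) % M = p.2.val := by
    rw [mul_comm, Nat.mul_add_mod, Nat.mod_eq_of_lt h2]
  have h5 : (SHR_emb hnM p).val / M < n := by
    show (p.1.val * M + p.2.val) / M < n
    rw [h3]
    exact h1
  unfold SHR_mg
  rw [dif_pos h5]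
  congr 1
  ext
  · exact h3
  · exact h4

theorem SHR_emb_of {M : ℕ} (hM : 1 ≤ M) (hnM : n * M ≤ N) (v : Fin N) (h : v.val / M < n) :
    SHR_emb hnM (⟨v.val / M, h⟩, ⟨v.val % M, Nat.mod_lt _ hM⟩) = v := by
  ext
  show v.val / M * M + v.val % M = v.val
  rw [mul_comm]
  exact Nat.div_add_mod _ _

/-- exchange of the values in the blocks -/
def SHR_sw {M : ℕ} (hM : 1 ≤ M) (hnM : n * M ≤ N)
    (p : (Fin n × Fin M → Bool) × (Fin N → Bool)) : (Fin n × Fin M → Bool) × (Fin N → Bool) :=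
  (fun q => p.2 (SHR_emb hnM q), SHR_mg n hM p.1 p.2)

theorem SHR_invol {M : ℕ} (hM : 1 ≤ M) (hnM : n * M ≤ N) :
    Function.Involutive (SHR_sw (N := N) (n := n) hM hnM) := by
  intro p
  apply Prod.ext
  · funext q
    exact SHR_mg_emb hM hnM p.1 p.2 q
  · funext v
    show SHR_mg n hM (fun q => p.2 (SHR_emb hnM q)) (SHR_mg n hM p.1 p.2) v = p.2 v
    by_cases h : v.val / M < n
    · have e := SHR_emb_of hM hnM v h
      unfold SHR_mg
      rw [dif_pos h]
      exact congrArg p.2 e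
    · unfold SHR_mg
      rw [dif_neg h, dif_neg h]

theorem SHR_sum {M : ℕ} (hM : 1 ≤ M) (hnM : n * M ≤ N) (F : (Fin N → Bool) → ℝ) :
    ∑ x'' : Fin N → Bool, ∑ x' : Fin n × Fin M → Bool, F (SHR_mg n hM x' x'') =
      2 ^ (n * M) * ∑ x : Fin N → Bool, F x := by
  rw [sum_comm, ← Fintype.sum_prod_type' (f := fun x' x'' => F (SHR_mg n hM x' x''))]
  have h1 := Equiv.sum_comp (Function.Involutive.toPerm _ (SHR_invol (N := N) (n := n) hM hnM))
    (fun p : (Fin n × Fin M → Bool) × (Fin N → Bool) => F p.2)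
  have h2 : ∀ p : (Fin n × Fin M → Bool) × (Fin N → Bool),
      F ((Function.Involutive.toPerm _ (SHR_invol (N := N) (n := n) hM hnM) p).2) =
        F (SHR_mg n hM p.1 p.2) := by
    intro p
    rfl
  rw [sum_congr rfl fun p _ => (h2 p).symm, h1, Fintype.sum_prod_type]
  show ∑ _x : Fin n × Fin M → Bool, ∑ y : Fin N → Bool, F y = _
  rw [sum_const, card_univ, nsmul_eq_mul]
  congr 1
  simp [Fintype.card_prod]

theorem shr (β : ℝ) (hβ : 1 ≤ β) (hβ2 : β < 3 / 2) : ∃ τ C : ℝ, 0 < τ ∧ τ ≤ 1 ∧ 0 < C ∧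
    ∀ (n M N : ℕ), 1 ≤ n → 1 ≤ M → n * M ≤ N → ∀ ψ : T (Fin N) ⊕ Bool,
      ∑ J : Fin n → Fin M, ∑ x : Fin N → Bool,
        Real.exp (τ * dep fun y => evs (rst J x y) ψ) ≤
      (M : ℝ) ^ n * 2 ^ N * Real.exp (C * leavess ψ / (M : ℝ) ^ β + τ) := by
  obtain ⟨τ, C, hτ, hτ1, hC, hb⟩ := block_moment β hβ hβ2
  refine ⟨τ, C, hτ, hτ1, hC, ?_⟩
  intro n M N hn hM hnM ψ
  have : Nonempty (Fin n) := ⟨⟨0, hn⟩⟩
  have : Nonempty (Fin M) := ⟨⟨0, hM⟩⟩
  have hMr : (1 : ℝ) ≤ M := by exact_mod_cast hM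
  have key : ∀ x'' : Fin N → Bool,
      ∑ J : Fin n → Fin M, ∑ x' : Fin n × Fin M → Bool,
        Real.exp (τ * dep fun y => evs (rst J (SHR_mg n hM x' x'') y) ψ) ≤
      ((M : ℝ) ^ n * 2 ^ (n * M)) * Real.exp (C * leavess ψ / (M : ℝ) ^ β + τ) := by
    intro x''
    have h1 := hb (Fin n) (Fin M) (SHR_trs n hM x'' ψ)
    simp only [Fintype.card_fin, Fintype.card_prod] at h1
    have h2 : ∀ (J : Fin n → Fin M) (x' : Fin n × Fin M → Bool),
        (fun y => evs (mv J x' y) (SHR_trs n hM x'' ψ)) =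
        fun y => evs (rst J (SHR_mg n hM x' x'') y) ψ := by
      intro J x'
      funext y
      exact SHR_evs hM x' x'' J y ψ
    simp only [h2] at h1
    refine h1.trans ?_
    have h3 : (leavess (SHR_trs n hM x'' ψ) : ℝ) ≤ leavess ψ := by
      exact_mod_cast SHR_leavess hM x'' ψ
    gcongr
  have h4 : (2 : ℝ) ^ (n * M) * ∑ J : Fin n → Fin M, ∑ x : Fin N → Bool,
        Real.exp (τ * dep fun y => evs (rst J x y) ψ) ≤
      2 ^ N * (((M : ℝ) ^ n * 2 ^ (n * M)) * Real.exp (C * leavess ψ / (M : ℝ) ^ β + τ)) := by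
    calc (2 : ℝ) ^ (n * M) * ∑ J : Fin n → Fin M, ∑ x : Fin N → Bool,
          Real.exp (τ * dep fun y => evs (rst J x y) ψ)
        = ∑ J : Fin n → Fin M, ∑ x'' : Fin N → Bool, ∑ x' : Fin n × Fin M → Bool,
          Real.exp (τ * dep fun y => evs (rst J (SHR_mg n hM x' x'') y) ψ) := by
          rw [mul_sum]
          refine sum_congr rfl fun J _ => ?_
          exact (SHR_sum hM hnM (fun x => Real.exp (τ * dep fun y => evs (rst J x y) ψ))).symm
      _ = ∑ x'' : Fin N → Bool, ∑ J : Fin n → Fin M, ∑ x' : Fin n × Fin M → Bool,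
          Real.exp (τ * dep fun y => evs (rst J (SHR_mg n hM x' x'') y) ψ) := sum_comm
      _ ≤ ∑ x'' : Fin N → Bool,
          ((M : ℝ) ^ n * 2 ^ (n * M)) * Real.exp (C * leavess ψ / (M : ℝ) ^ β + τ) :=
          sum_le_sum fun x'' _ => key x''
      _ = _ := by
          rw [sum_const, card_univ, nsmul_eq_mul]
          simp
  have h5 : (0 : ℝ) < 2 ^ (n * M) := by positivity
  have h6 : 2 ^ N * (((M : ℝ) ^ n * 2 ^ (n * M)) * Real.exp (C * leavess ψ / (M : ℝ) ^ β + τ)) =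
      2 ^ (n * M) * ((M : ℝ) ^ n * 2 ^ N * Real.exp (C * leavess ψ / (M : ℝ) ^ β + τ)) := by ring
  rw [h6] at h4
  exact le_of_mul_le_mul_left h4 h5

end H542.RK.P
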