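import Pool.Agent.H542R2.RK.Loc
import Pool.Agent.H542R2.RK.P_ALC
import Pool.Agent.H542R2.RK.P_DET
import Pool.Agent.H542R2.RK.P_DGC
import Pool.Agent.H542R2.RK.P_EXC
import Pool.Agent.H542R2.RK.P_G1C
import Pool.Agent.H542R2.RK.P_HEXP
import Pool.Agent.H542R2.RK.P_LOWC
import Pool.Agent.H542R2.RK.P_NDG
import Pool.Agent.H542R2.RK.P_NEX
import Pool.Agent.H542R2.RK.P_NHE
import Pool.Agent.H542R2.RK.P_SATC
import Pool.Agent.H542R2.RK.P_SHR

/-! All parts of the project RK. -/
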