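import Mathlib
import Pool.Agent.H542R2.RK.All

set_option autoImplicit false

/-!
For most formulas there are many good restrictions.
-/

namespace H542.RK

open Finset P

variable {k N m n M : ℕ}

open Classical in
/-- number of good restrictions -/
noncomputable def gp (n M t d u0 : ℕ) (φ : Fin m → Cl k N) : ℕ :=
  ((univ : Finset ((Fin n → Fin M) × (Fin N → Bool))).filter fun p =>
    G1 (al p.1) t p.2 φ ∧ G2 (al p.1) t d u0 p.2 φ).card

open Classical in
theorem good_frac (t d u0 h0 D smax : ℕ) (hd : 1 ≤ d) (ht : t = 4 * d) (hk : 5 * t ≤ k)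
    (hM : 1 ≤ M) (hnM : n * M ≤ N) (hN : 1 ≤ N) (hu : 3 * d * u0 ≤ n)
    (hD : D = 2 ^ (k - 5 * t)) (hk2 : 4 * k ^ 2 ≤ 2 ^ t) (hs : h0 + 1 ≤ smax)
    (η0 η1 η2 η3 : ℝ)
    (hlow : ∀ J : Fin n → Fin M,
      2 * (univ.filter fun c : Cl k N => na (al J) c < t).card ≤ Fintype.card (Cl k N))
    (h0E : ((univ.filter fun φ : Fin m → Cl k N => ¬ Ex t smax φ).card : ℝ) ≤
      Fintype.card (Fin m → Cl k N) * η0)
    (h1E : ∀ J : Fin n → Fin M, ((univ.filter fun φ : Fin m → Cl k N =>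
      ¬ Dg (al J) t h0 D φ).card : ℝ) ≤ Fintype.card (Fin m → Cl k N) * η1)
    (h2E : ∀ J : Fin n → Fin M, ((univ.filter fun φ : Fin m → Cl k N =>
      ¬ Dg (al J) t N D φ).card : ℝ) ≤ Fintype.card (Fin m → Cl k N) * η2)
    (h3E : ∀ J : Fin n → Fin M, ∑ φ : Fin m → Cl k N,
      ((univ.filter fun x : Fin N → Bool => G1 (al J) t x φ ∧ ¬ G2 (al J) t d u0 x φ).card : ℝ) /
        (univ.filter fun x : Fin N → Bool => G1 (al J) t x φ).card ≤
      Fintype.card (Fin m → Cl k N) * η3) :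
    ((univ.filter fun φ : Fin m → Cl k N => (gp n M t d u0 φ : ℝ) <
      1 / 4 * (M : ℝ) ^ n * (2 : ℝ) ^ ((N : ℝ) - (k + 1) * h0 - 4 * N / 2 ^ t)).card : ℝ) ≤
      Fintype.card (Fin m → Cl k N) * (η0 + 4 * (η1 + η2 + η3)) := by
  have hMpos : (0 : ℝ) < (M : ℝ) ^ n := by
    have : (0 : ℝ) < M := by exact_mod_cast hM
    positivity
  set E : ℝ := (2 : ℝ) ^ ((N : ℝ) - (k + 1) * h0 - 4 * N / 2 ^ t) with hEdef
  have hEpos : 0 < E := by rw [hEdef]; positivity
  let g1 : (Fin m → Cl k N) → (Fin n → Fin M) → ℝ := fun φ J =>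
    ((univ.filter fun x : Fin N → Bool => G1 (al J) t x φ).card : ℝ)
  let g2 : (Fin m → Cl k N) → (Fin n → Fin M) → ℝ := fun φ J =>
    ((univ.filter fun x : Fin N → Bool => G1 (al J) t x φ ∧ G2 (al J) t d u0 x φ).card : ℝ)
  let g3 : (Fin m → Cl k N) → (Fin n → Fin M) → ℝ := fun φ J =>
    ((univ.filter fun x : Fin N → Bool => G1 (al J) t x φ ∧ ¬ G2 (al J) t d u0 x φ).card : ℝ)
  have hg : ∀ φ J, g1 φ J = g2 φ J + g3 φ J := by
    intro φ J
    have h := card_filter_add_card_filter_not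
      (s := univ.filter fun x : Fin N → Bool => G1 (al J) t x φ)
      (fun x => G2 (al J) t d u0 x φ)
    simp only [filter_filter] at h
    simp only [g1, g2, g3]
    exact_mod_cast h.symm
  have hgp : ∀ φ, (gp n M t d u0 φ : ℝ) = ∑ J : Fin n → Fin M, g2 φ J := by
    intro φ
    unfold gp
    rw [card_filter]
    push_cast
    rw [Fintype.sum_prod_type]
    refine sum_congr rfl fun J _ => ?_
    simp only [g2]
    rw [card_filter]
    push_cast
    rfl
  -- cost of a formula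
  let cost : (Fin m → Cl k N) → (Fin n → Fin M) → ℝ := fun φ J =>
    (if Dg (al J) t h0 D φ then 0 else 1) + (if Dg (al J) t N D φ then 0 else 1) +
      g3 φ J / g1 φ J
  have hcost0 : ∀ φ J, 0 ≤ cost φ J := by
    intro φ J
    simp only [cost, g3, g1]
    positivity
  have hcost : ∀ J, ∑ φ, cost φ J ≤ Fintype.card (Fin m → Cl k N) * (η1 + η2 + η3) := by
    intro J
    have e1 : ∑ φ : Fin m → Cl k N, (if Dg (al J) t h0 D φ then (0 : ℝ) else 1) =
        ((univ.filter fun φ : Fin m → Cl k N => ¬ Dg (al J) t h0 D φ).card : ℝ) := by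
      rw [card_filter]
      push_cast
      exact sum_congr rfl fun φ _ => by by_cases h : Dg (al J) t h0 D φ <;> simp [h]
    have e2 : ∑ φ : Fin m → Cl k N, (if Dg (al J) t N D φ then (0 : ℝ) else 1) =
        ((univ.filter fun φ : Fin m → Cl k N => ¬ Dg (al J) t N D φ).card : ℝ) := by
      rw [card_filter]
      push_cast
      exact sum_congr rfl fun φ _ => by by_cases h : Dg (al J) t N D φ <;> simp [h]
    simp only [cost]
    rw [sum_add_distrib, sum_add_distrib, e1, e2]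
    have := h1E J
    have := h2E J
    have := h3E J
    simp only [g3, g1]
    linarith
  -- formulas of small cost are good
  have hgood : ∀ φ, Ex t smax φ → ∑ J, cost φ J < 1 / 4 * (M : ℝ) ^ n →
      1 / 4 * (M : ℝ) ^ n * E ≤ gp n M t d u0 φ := by
    intro φ hex hc
    rw [hgp]
    let Bad : Finset (Fin n → Fin M) := univ.filter fun J => 1 / 2 ≤ cost φ J
    have hbad : (Bad.card : ℝ) * (1 / 2) ≤ ∑ J, cost φ J := by
      calc (Bad.card : ℝ) * (1 / 2) = ∑ J ∈ Bad, (1 / 2 : ℝ) := by rw [sum_const, nsmul_eq_mul]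
        _ ≤ ∑ J ∈ Bad, cost φ J := sum_le_sum fun J hJ => (mem_filter.mp hJ).2
        _ ≤ ∑ J, cost φ J := sum_le_sum_of_subset_of_nonneg (subset_univ _)
            fun J _ _ => hcost0 φ J
    have htot : ((univ : Finset (Fin n → Fin M)).card : ℝ) = (M : ℝ) ^ n := by
      simp
    have hcompl : (1 / 2 : ℝ) * (M : ℝ) ^ n ≤ ((univ \ Bad).card : ℝ) := by
      have h1 := card_sdiff_add_card_eq_card (subset_univ Bad)
      have h2 : ((univ \ Bad).card : ℝ) + Bad.card = (M : ℝ) ^ n := by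
        rw [← htot]
        exact_mod_cast h1
      linarith
    have hJ : ∀ J ∈ univ \ Bad, 1 / 2 * E ≤ g2 φ J := by
      intro J hJ
      have hJ' : ¬ 1 / 2 ≤ cost φ J := by
        intro h
        exact (mem_sdiff.mp hJ).2 (mem_filter.mpr ⟨mem_univ _, h⟩)
      push Not at hJ'
      have hr0 : 0 ≤ g3 φ J / g1 φ J := by simp only [g3, g1]; positivity
      have hD1 : Dg (al J) t h0 D φ := by
        by_contra hcon
        simp only [cost, hcon, if_false] at hJ'
        by_cases h : Dg (al J) t N D φ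
        · simp only [h, if_true] at hJ'
          linarith
        · simp only [h, if_false] at hJ'
          linarith
      have hD2 : Dg (al J) t N D φ := by
        by_contra hcon
        simp only [cost, hcon, if_false, hD1, if_true] at hJ'
        linarith
      simp only [cost, hD1, hD2, if_true] at hJ'
      have hg1 : E ≤ g1 φ J :=
        g1_count (al J) φ t h0 D smax (by omega) hk hD hk2 hs hex hD1 hD2
      have hg1p : 0 < g1 φ J := hEpos.trans_le hg1
      have h3 : g3 φ J < 1 / 2 * g1 φ J := by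
        have : g3 φ J / g1 φ J < 1 / 2 := by linarith
        rwa [div_lt_iff₀ hg1p] at this
      have h4 := hg φ J
      linarith
    calc 1 / 4 * (M : ℝ) ^ n * E = (1 / 2 * (M : ℝ) ^ n) * (1 / 2 * E) := by ring
      _ ≤ ((univ \ Bad).card : ℝ) * (1 / 2 * E) :=
          mul_le_mul_of_nonneg_right hcompl (by positivity)
      _ = ∑ J ∈ univ \ Bad, 1 / 2 * E := by rw [sum_const, nsmul_eq_mul]
      _ ≤ ∑ J ∈ univ \ Bad, g2 φ J := sum_le_sum hJ
      _ ≤ ∑ J, g2 φ J := sum_le_sum_of_subset_of_nonneg (subset_univ _)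
          fun J _ _ => by simp only [g2]; positivity
  -- Markov
  have hsub : (univ.filter fun φ : Fin m → Cl k N => (gp n M t d u0 φ : ℝ) <
      1 / 4 * (M : ℝ) ^ n * E) ⊆ (univ.filter fun φ : Fin m → Cl k N => ¬ Ex t smax φ) ∪
      (univ.filter fun φ : Fin m → Cl k N => 1 / 4 * (M : ℝ) ^ n ≤ ∑ J, cost φ J) := by
    intro φ hφ
    rw [mem_union, mem_filter, mem_filter]
    by_contra hcon
    push Not at hcon
    have h1 : Ex t smax φ := hcon.1 (mem_univ _)
    have h2 := hcon.2 (mem_univ _)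
    have := hgood φ h1 h2
    exact absurd (mem_filter.mp hφ).2 (not_lt.mpr this)
  have hmark : ((univ.filter fun φ : Fin m → Cl k N =>
      1 / 4 * (M : ℝ) ^ n ≤ ∑ J, cost φ J).card : ℝ) ≤
      Fintype.card (Fin m → Cl k N) * (4 * (η1 + η2 + η3)) := by
    have h1 : ((univ.filter fun φ : Fin m → Cl k N =>
        1 / 4 * (M : ℝ) ^ n ≤ ∑ J, cost φ J).card : ℝ) * (1 / 4 * (M : ℝ) ^ n) ≤
        (M : ℝ) ^ n * (Fintype.card (Fin m → Cl k N) * (η1 + η2 + η3)) := by
      calc ((univ.filter fun φ : Fin m → Cl k N =>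
            1 / 4 * (M : ℝ) ^ n ≤ ∑ J, cost φ J).card : ℝ) * (1 / 4 * (M : ℝ) ^ n)
          = ∑ φ ∈ univ.filter fun φ : Fin m → Cl k N =>
            1 / 4 * (M : ℝ) ^ n ≤ ∑ J, cost φ J, 1 / 4 * (M : ℝ) ^ n := by
            rw [sum_const, nsmul_eq_mul]
        _ ≤ ∑ φ ∈ univ.filter fun φ : Fin m → Cl k N =>
            1 / 4 * (M : ℝ) ^ n ≤ ∑ J, cost φ J, ∑ J, cost φ J :=
            sum_le_sum fun φ hφ => (mem_filter.mp hφ).2
        _ ≤ ∑ φ, ∑ J, cost φ J := sum_le_sum_of_subset_of_nonneg (subset_univ _)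
            fun φ _ _ => sum_nonneg fun J _ => hcost0 φ J
        _ = ∑ J, ∑ φ, cost φ J := sum_comm
        _ ≤ ∑ J : Fin n → Fin M, Fintype.card (Fin m → Cl k N) * (η1 + η2 + η3) :=
            sum_le_sum fun J _ => hcost J
        _ = (M : ℝ) ^ n * (Fintype.card (Fin m → Cl k N) * (η1 + η2 + η3)) := by
            rw [sum_const, nsmul_eq_mul]
            simp
    have h2 : ((univ.filter fun φ : Fin m → Cl k N =>
        1 / 4 * (M : ℝ) ^ n ≤ ∑ J, cost φ J).card : ℝ) * (M : ℝ) ^ n ≤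
        (Fintype.card (Fin m → Cl k N) * (4 * (η1 + η2 + η3))) * (M : ℝ) ^ n := by
      nlinarith
    exact le_of_mul_le_mul_right h2 hMpos
  calc ((univ.filter fun φ : Fin m → Cl k N => (gp n M t d u0 φ : ℝ) <
      1 / 4 * (M : ℝ) ^ n * E).card : ℝ)
      ≤ (((univ.filter fun φ : Fin m → Cl k N => ¬ Ex t smax φ) ∪
      (univ.filter fun φ : Fin m → Cl k N =>
        1 / 4 * (M : ℝ) ^ n ≤ ∑ J, cost φ J)).card : ℝ) := by
        exact_mod_cast card_le_card hsub
    _ ≤ ((univ.filter fun φ : Fin m → Cl k N => ¬ Ex t smax φ).card : ℝ) +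
      ((univ.filter fun φ : Fin m → Cl k N =>
        1 / 4 * (M : ℝ) ^ n ≤ ∑ J, cost φ J).card : ℝ) := by
        exact_mod_cast card_union_le _ _
    _ ≤ Fintype.card (Fin m → Cl k N) * η0 +
      Fintype.card (Fin m → Cl k N) * (4 * (η1 + η2 + η3)) := add_le_add h0E hmark
    _ = Fintype.card (Fin m → Cl k N) * (η0 + 4 * (η1 + η2 + η3)) := by ring

end H542.RK
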