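import Mathlib
import Pool.Agent.H542R2.RK.Good

set_option autoImplicit false

/-!
A formula with many good restrictions has no refutation with few lines of small size.
-/

namespace H542.RK

open Finset P

variable {k N m n M : ℕ}

theorem exists_restriction (τ E B : ℝ) (hτ : 0 < τ) (hM : 1 ≤ M) (s : ℕ)
    (hshr : ∀ ψ : T (Fin N) ⊕ Bool, leavess ψ ≤ s → ∑ J : Fin n → Fin M, ∑ x : Fin N → Bool,
        Real.exp (τ * dep fun y => evs (rst J x y) ψ) ≤ (M : ℝ) ^ n * B)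
    (t d u0 h : ℕ) (φ : Fin m → Cl k N)
    (hgp : 1 / 4 * (M : ℝ) ^ n * E ≤ gp n M t d u0 φ) {S : ℕ} (ψ : Fin S → T (Fin N) ⊕ Bool)
    (hψ : ∀ j, leavess (ψ j) ≤ s) (hS : (S : ℝ) * B < 1 / 4 * E * Real.exp (τ * (h + 1))) :
    ∃ (J : Fin n → Fin M) (x : Fin N → Bool), G1 (al J) t x φ ∧ G2 (al J) t d u0 x φ ∧
      ∀ j, (dep fun y => evs (rst J x y) (ψ j)) ≤ h := by
  classical
  by_contra hcon
  push Not at hcon
  have hMpos : (0 : ℝ) < (M : ℝ) ^ n := by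
    have : (0 : ℝ) < M := by exact_mod_cast hM
    positivity
  have h1 : (gp n M t d u0 φ : ℝ) * Real.exp (τ * (h + 1)) ≤
      ∑ p : (Fin n → Fin M) × (Fin N → Bool), ∑ j,
        Real.exp (τ * dep fun y => evs (rst p.1 p.2 y) (ψ j)) := by
    unfold gp
    rw [← nsmul_eq_mul, ← sum_const]
    refine (sum_le_sum fun p hp => ?_).trans
      (sum_le_sum_of_subset_of_nonneg (filter_subset _ _) fun p _ _ =>
        sum_nonneg fun j _ => (Real.exp_pos _).le)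
    obtain ⟨_, hp1, hp2⟩ := mem_filter.mp hp
    obtain ⟨j, hj⟩ := hcon p.1 p.2 hp1 hp2
    refine le_trans ?_ (single_le_sum
      (f := fun j => Real.exp (τ * dep fun y => evs (rst p.1 p.2 y) (ψ j)))
      (fun j _ => (Real.exp_pos _).le) (mem_univ j))
    apply Real.exp_le_exp.mpr
    apply mul_le_mul_of_nonneg_left _ hτ.le
    have : h + 1 ≤ dep fun y => evs (rst p.1 p.2 y) (ψ j) := hj
    exact_mod_cast this
  have h2 : ∑ p : (Fin n → Fin M) × (Fin N → Bool), ∑ j,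
        Real.exp (τ * dep fun y => evs (rst p.1 p.2 y) (ψ j)) ≤ S * ((M : ℝ) ^ n * B) := by
    rw [sum_comm]
    calc ∑ j, ∑ p : (Fin n → Fin M) × (Fin N → Bool),
          Real.exp (τ * dep fun y => evs (rst p.1 p.2 y) (ψ j))
        ≤ ∑ j : Fin S, (M : ℝ) ^ n * B := by
          refine sum_le_sum fun j _ => ?_
          rw [Fintype.sum_prod_type]
          exact hshr (ψ j) (hψ j)
      _ = S * ((M : ℝ) ^ n * B) := by rw [sum_const, nsmul_eq_mul]; simp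
  have h3 : 1 / 4 * (M : ℝ) ^ n * E * Real.exp (τ * (h + 1)) ≤ S * ((M : ℝ) ^ n * B) :=
    (mul_le_mul_of_nonneg_right hgp (Real.exp_pos _).le).trans (h1.trans h2)
  have h4 : (M : ℝ) ^ n * (1 / 4 * E * Real.exp (τ * (h + 1))) ≤ (M : ℝ) ^ n * (S * B) := by
    linarith
  have h5 := le_of_mul_le_mul_left h4 hMpos
  linarith

theorem no_short_refutation (τ E B : ℝ) (hτ : 0 < τ) (hM : 1 ≤ M) (hnM : n * M ≤ N) (s : ℕ)
    (hshr : ∀ ψ : T (Fin N) ⊕ Bool, leavess ψ ≤ s → ∑ J : Fin n → Fin M, ∑ x : Fin N → Bool,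
        Real.exp (τ * dep fun y => evs (rst J x y) ψ) ≤ (M : ℝ) ^ n * B)
    (t d u0 a h : ℕ) (hd : 1 ≤ d) (ht : t = 4 * d) (hah : (a + 1) * h + t ≤ d * u0)
    (φ : Fin m → Cl k N)
    (hgp : 1 / 4 * (M : ℝ) ^ n * E ≤ gp n M t d u0 φ) {S : ℕ} (ψ : Fin S → T (Fin N) ⊕ Bool)
    (hψ : ∀ j, leavess (ψ j) ≤ s) (hS : (S : ℝ) * B < 1 / 4 * E * Real.exp (τ * (h + 1)))
    (hs : ∀ j, (∃ c, ∀ z : Fin N → Bool, (∃ i, z (φ c i).1 = (φ c i).2) →
        evs z (ψ j) = true) ∨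
      ∃ P : Finset (Fin S), P.card ≤ a ∧ (∀ p ∈ P, p < j) ∧
        ∀ z, (∀ p ∈ P, evs z (ψ p) = true) → evs z (ψ j) = true) (j : Fin S) :
    ∃ z, evs z (ψ j) = true := by
  obtain ⟨J, x, hG1, hG2, hdep⟩ := exists_restriction τ E B hτ hM s hshr t d u0 h φ hgp ψ hψ hS
  exact det J hM hnM x φ t d u0 a h hd ht hah hG1 hG2 (fun j z => evs z (ψ j)) hdep hs j

end H542.RK
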