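import Mathlib
import Pool.Agent.H542R2.RK.Use
import Pool.Agent.H542R2.RK.KFacts
import Pool.Agent.H542R2.RK.Ineq

set_option autoImplicit false

/-!
The lower bound for refutations of random k-CNF formulas with lines of linear size.
-/

namespace H542.RK

open Finset P

variable {k N m : ℕ}

/-- there is a refutation with fewer than `2 ^ (c * N)` lines of size at most `s` -/
def Short (a s : ℕ) (c : ℝ) (φ : Fin m → Cl k N) : Prop :=
  ∃ (S : ℕ) (ψ : Fin S → T (Fin N) ⊕ Bool), (S : ℝ) < (2 : ℝ) ^ (c * N) ∧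
    (∀ j, leavess (ψ j) ≤ s) ∧
    (∀ j, (∃ e, ∀ z : Fin N → Bool, (∃ i, z (φ e i).1 = (φ e i).2) → evs z (ψ j) = true) ∨
      ∃ P : Finset (Fin S), P.card ≤ a ∧ (∀ p ∈ P, p < j) ∧
        ∀ z, (∀ p ∈ P, evs z (ψ p) = true) → evs z (ψ j) = true) ∧
    ∃ j, ∀ z, evs z (ψ j) = false

theorem exists_M (x : ℝ) : ∃ M : ℕ, 1 ≤ M ∧ x ≤ (M : ℝ) ^ (1 / 4 : ℝ) := by
  obtain ⟨M, hM⟩ := exists_nat_ge (max 1 (|x| ^ (4 : ℝ)))
  have h1 : (1 : ℝ) ≤ M := (le_max_left _ _).trans hM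
  refine ⟨M, by exact_mod_cast h1, ?_⟩
  have h2 : |x| ^ (4 : ℝ) ≤ M := (le_max_right _ _).trans hM
  calc x ≤ |x| := le_abs_self x
    _ = (|x| ^ (4 : ℝ)) ^ (1 / 4 : ℝ) := by
        rw [← Real.rpow_mul (abs_nonneg x)]
        norm_num
    _ ≤ (M : ℝ) ^ (1 / 4 : ℝ) := Real.rpow_le_rpow (by positivity) h2 (by norm_num)

open Classical in
/-- all conditions for one value of `N` -/
theorem main_N (a C K M k d : ℕ) (τ Cb κ g ε : ℝ) (hτ : 0 < τ) (hCb : 0 < Cb) (hM : 1 ≤ M)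
    (hshr : ∀ (n M N : ℕ), 1 ≤ n → 1 ≤ M → n * M ≤ N → ∀ ψ : T (Fin N) ⊕ Bool,
      ∑ J : Fin n → Fin M, ∑ x : Fin N → Bool,
        Real.exp (τ * dep fun y => evs (rst J x y) ψ) ≤
      (M : ℝ) ^ n * 2 ^ N * Real.exp (Cb * leavess ψ / (M : ℝ) ^ (5 / 4 : ℝ) + τ))
    (hκ : κ = Real.exp 3 * (12 * Real.exp 1 * (100 : ℕ) * Real.exp (2 * (100 : ℕ))) ^ 4)
    (hg : g = τ / (4 * κ * (a + 1))) (hMg : 8 * Cb * C / g ≤ (M : ℝ) ^ (1 / 4 : ℝ))
    (d1 : 3 ≤ d) (d2 : 4 * (800 * M * d) ^ 2 ≤ 2 ^ (4 * d))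
    (d3 : 2 * Real.exp 1 * K * (800 * M * d) * (2 : ℝ) ^ (2400 * M * d) ≤
        2 ^ (1000 * M * (4 * d - 2)))
    (d4 : 2 * Real.exp 1 * K * (800 * M * d) * (2 : ℝ) ^ (24 * d) * Real.exp (1 - 100 * d) ≤ 1)
    (d5 : 1600 * M * d + 3 ≤ 2 ^ (200 * M * d))
    (d6 : 2 * (2 : ℝ) ^ (4 * d) * Real.exp (1 - 100 * d) ≤ 1)
    (d7 : 8 * Real.exp 1 * K * M * κ * d ≤ 2 ^ (d - 2)) (d8 : 80 * M / g ≤ 2 ^ (4 * d))
    (h1 : 400 * M * d ≤ k) (h2 : k ≤ 800 * M * d) (hε : 0 < ε) (N : ℕ)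
    (n1 : M ≤ N) (n2 : 4 * (k * 2 ^ (1000 * M)) ≤ N) (n3 : 40 * κ * d * M ≤ N)
    (n4 : 4 * M * (τ + 2) / g ≤ N) (n5 : 2 * (k + 1) * 2 ^ (4 * d) ≤ N)
    (n6 : (2 * k + 4 * (4 ^ k + 1 + 2 * M * κ * d)) / ε ≤ N) (m : ℕ)
    (hm : m ≤ K * 2 ^ k * N) :
    ((univ.filter fun φ : Fin m → Cl k N => Short a (C * N) (g / (16 * M)) φ).card : ℝ) ≤
      ε * Fintype.card (Fin m → Cl k N) := by
  obtain ⟨f1, f2, f3, f4, f5, f6, f7, f8⟩ := kfacts K M k d hM d1 d2 d3 d4 d5 d6 h1 h2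
  obtain ⟨t, ht⟩ : ∃ t, t = 4 * d := ⟨_, rfl⟩
  rw [← ht] at f1 f2 f3 f4 f5 f6 f8 d8 n5
  have hMR : (1 : ℝ) ≤ M := by exact_mod_cast hM
  have hκ1 : 2 ≤ κ := by
    rw [hκ]
    have e1 : (1 : ℝ) ≤ Real.exp 3 := Real.one_le_exp (by norm_num)
    have e2 : (1 : ℝ) ≤ Real.exp 1 := Real.one_le_exp (by norm_num)
    have e3 : (1 : ℝ) ≤ Real.exp (2 * (100 : ℕ)) := Real.one_le_exp (by positivity)
    have e4 : (2 : ℝ) ≤ 12 * Real.exp 1 * (100 : ℕ) * Real.exp (2 * (100 : ℕ)) := by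
      push_cast at e3 ⊢
      nlinarith
    have e5 : (2 : ℝ) ≤ (12 * Real.exp 1 * (100 : ℕ) * Real.exp (2 * (100 : ℕ))) ^ 4 := by
      calc (2 : ℝ) ≤ 2 ^ 4 := by norm_num
        _ ≤ _ := pow_le_pow_left₀ (by norm_num) e4 4
    nlinarith
  have hκ0 : 0 < κ := by linarith
  have hg0 : 0 < g := by rw [hg]; positivity
  have hd1 : 1 ≤ d := by omega
  have hdR : (1 : ℝ) ≤ d := by exact_mod_cast hd1
  -- the number of blocks
  obtain ⟨n, hn⟩ : ∃ n, n = N / M := ⟨_, rfl⟩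
  have hn1 : 1 ≤ n := by rw [hn, Nat.le_div_iff_mul_le (by omega)]; omega
  have hnM : n * M ≤ N := by rw [hn]; exact Nat.div_mul_le_self N M
  have hN2 : N ≤ 2 * n * M := by
    have e1 : N < M * (n + 1) := by rw [hn]; exact Nat.lt_mul_div_succ N (by omega)
    nlinarith
  have hN1 : 1 ≤ N := by nlinarith
  have hnN : n ≤ N := le_trans (Nat.le_mul_of_pos_right n (by omega)) hnM
  have hnR : (0 : ℝ) < n := by exact_mod_cast hn1
  have hNR : (0 : ℝ) < N := by exact_mod_cast hN1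
  have hN2R : (N : ℝ) ≤ 2 * n * M := by exact_mod_cast hN2
  have hk1 : 1 ≤ k := by omega
  -- the other parameters
  obtain ⟨smax, hsm⟩ : ∃ s, s = N / (k * 2 ^ (1000 * M)) := ⟨_, rfl⟩
  obtain ⟨h0, hh0⟩ : ∃ h0, h0 = N / 4 ^ k + 1 := ⟨_, rfl⟩
  obtain ⟨u0, hu0⟩ : ∃ u0, u0 = ⌊(n : ℝ) / (2 * κ * d)⌋₊ := ⟨_, rfl⟩
  obtain ⟨h, hh⟩ : ∃ h, h = ⌊(n : ℝ) / (4 * κ * (a + 1))⌋₊ := ⟨_, rfl⟩
  obtain ⟨D, hD⟩ : ∃ D, D = 2 ^ (k - 5 * t) := ⟨_, rfl⟩
  have hkQ : 0 < k * 2 ^ (1000 * M) := by positivity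
  have h01 : 1 ≤ h0 := by rw [hh0]; exact Nat.succ_pos _
  have hs1 : smax * (k * 2 ^ (1000 * M)) ≤ N := by rw [hsm]; exact Nat.div_mul_le_self _ _
  have hs4 : 4 ≤ smax := by
    rw [hsm, Nat.le_div_iff_mul_le hkQ]
    exact n2
  have hhs : h0 + 1 ≤ smax := by
    have e1 : N / 4 ^ k ≤ N / (2 * (k * 2 ^ (1000 * M))) := Nat.div_le_div_left f7 (by positivity)
    have e2 : N / (2 * (k * 2 ^ (1000 * M))) = smax / 2 := by
      rw [hsm, mul_comm 2, Nat.div_div_eq_div_mul]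
    omega
  have hks : (k - t) * smax ≤ N := by
    refine le_trans ?_ hs1
    rw [mul_comm]
    apply Nat.mul_le_mul_left
    have : k * 1 ≤ k * 2 ^ (1000 * M) := Nat.mul_le_mul_left k Nat.one_le_two_pow
    omega
  have hhN : h0 ≤ N := by
    have : smax * 1 ≤ smax * (k * 2 ^ (1000 * M)) := Nat.mul_le_mul_left _ hkQ
    omega
  have hW : N ≤ h0 * 4 ^ k := by
    have e1 : N < 4 ^ k * (N / 4 ^ k + 1) := Nat.lt_mul_div_succ N (by positivity)
    rw [hh0, mul_comm]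
    exact e1.le
  have hu1 : 2 * κ * d * u0 ≤ n := by
    have e1 : (u0 : ℝ) ≤ (n : ℝ) / (2 * κ * d) := by rw [hu0]; exact Nat.floor_le (by positivity)
    rw [le_div_iff₀ (by positivity)] at e1
    linarith
  have hu3 : 3 * d * u0 ≤ n := by
    have e1 : (3 * d * u0 : ℝ) ≤ n := by
      refine le_trans ?_ hu1
      have : (0 : ℝ) ≤ d * u0 := by positivity
      nlinarith
    exact_mod_cast e1
  have hD1 : 1 ≤ D := by rw [hD]; exact Nat.one_le_two_pow
  -- failure probabilities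
  have hc : (0 : ℝ) ≤ Fintype.card (Fin m → Cl k N) := by positivity
  have hcardCl : (Fintype.card (Cl k N) : ℝ) = (2 * N) ^ k := by
    simp [Fintype.card_prod, mul_comm]
  have hcl : ∀ J : Fin n → Fin M, (al J : Finset (Fin N)).card = n := fun J =>
    al_card hM hnM J
  have hb := f4 N n hN1 hN2 hnN
  have hgood := good_frac (k := k) (N := N) (m := m) (n := n) (M := M) t d u0 h0 D smax hd1 ht
    f1 hM hnM hN1 hu3 hD f2 hhs (2 * k / N) ((1 / 2) ^ h0) ((1 / 2) ^ N) (κ * d / n)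
    (by
      intro J
      have e1 := low_count (k := k) (N := N) (n := n) (al J) (hcl J) t
      have e2 := f6 N n hN1 hN2 hnN
      have e3 : (2 * (univ.filter fun c : Cl k N => na (al J) c < t).card : ℝ) ≤
          (Fintype.card (Cl k N) : ℝ) := by
        rw [hcardCl]
        linarith
      exact_mod_cast e3)
    (by
      refine (ex_count t smax (by omega) hks hN1).trans ?_
      apply mul_le_mul_of_nonneg_left _ hc
      exact num_ex k t K (1000 * M) N m smax (by omega) (by omega) hm hs1 hN1 f3)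
    (by
      intro J
      refine (dg_count (al J) (hcl J) t h0 D hk1 hN1).trans ?_
      apply mul_le_mul_of_nonneg_left _ hc
      exact num_dg k K N m n t h0 (4 ^ k) D h01 hhN hnN hk1 hm hW hD1
        (by rw [hD]; exact hb) (by rw [hD]; exact f5))
    (by
      intro J
      refine (dg_count (al J) (hcl J) t N D hk1 hN1).trans ?_
      apply mul_le_mul_of_nonneg_left _ hc
      exact num_dg k K N m n t N 1 D hN1 le_rfl hnN hk1 hm (by omega) hD1
        (by rw [hD]; exact hb) (by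
          rw [hD]
          refine le_trans ?_ f5
          have : (1 : ℝ) ≤ ((4 ^ k : ℕ) : ℝ) := by exact_mod_cast Nat.one_le_pow _ _ (by norm_num)
          have h5 : (0 : ℝ) < 2 * Real.exp 1 := by positivity
          push_cast at this ⊢
          nlinarith))
    (by
      intro J
      refine (hexp (al J) (hcl J) t d u0 hd1 ht (by omega) hN1 hu3 ?_).trans ?_
      · have e1 := low_count (k := k) (N := N) (n := n) (al J) (hcl J) t
        have e2 := f6 N n hN1 hN2 hnN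
        have e3 : (2 * (univ.filter fun c : Cl k N => na (al J) c < t).card : ℝ) ≤
            (Fintype.card (Cl k N) : ℝ) := by
          rw [hcardCl]
          linarith
        exact_mod_cast e3
      · apply mul_le_mul_of_nonneg_left _ hc
        exact num_hexp k K 100 M N n m t d u0 κ hκ (by omega) ht (by omega)
          (by rw [ht]; nlinarith) hM (by norm_num) hn1 hnM hN2 hm hu1 d7)
  -- formulas with short refutations are bad
  have hsub : (univ.filter fun φ : Fin m → Cl k N => Short a (C * N) (g / (16 * M)) φ) ⊆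
      univ.filter fun φ : Fin m → Cl k N => (gp n M t d u0 φ : ℝ) <
        1 / 4 * (M : ℝ) ^ n * (2 : ℝ) ^ ((N : ℝ) - (k + 1) * h0 - 4 * N / 2 ^ t) := by
    intro φ hφ
    rw [mem_filter]
    refine ⟨mem_univ _, ?_⟩
    by_contra hcon
    push Not at hcon
    obtain ⟨S, ψ, hS, hsize, hsound, j, hj⟩ := (mem_filter.mp hφ).2
    have hu0R : (n : ℝ) / (2 * κ * d) < u0 + 1 := by rw [hu0]; exact Nat.lt_floor_add_one _
    have hhR : (h : ℝ) ≤ (n : ℝ) / (4 * κ * (a + 1)) := by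
      rw [hh]; exact Nat.floor_le (by positivity)
    have hhR2 : (n : ℝ) / (4 * κ * (a + 1)) < h + 1 := by rw [hh]; exact Nat.lt_floor_add_one _
    have hn20 : 20 * κ * d ≤ n := by
      have : 40 * κ * d * M ≤ 2 * n * M := n3.trans hN2R
      have h3 : 0 < (M : ℝ) := by linarith
      nlinarith
    have hah : (a + 1) * h + t ≤ d * u0 := by
      have e1 : ((a : ℝ) + 1) * h ≤ n / (4 * κ) := by
        have e2 : (n : ℝ) / (4 * κ * (a + 1)) * (a + 1) = n / (4 * κ) := by field_simp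
        have e3 : (0 : ℝ) < a + 1 := by positivity
        nlinarith
      have e4 : (n : ℝ) / (2 * κ) - d ≤ d * u0 := by
        have e5 : (n : ℝ) / (2 * κ * d) * d = n / (2 * κ) := by field_simp
        nlinarith
      have e6 : (n : ℝ) / (2 * κ) = n / (4 * κ) + n / (4 * κ) := by field_simp; ring
      have e7 : 5 * (d : ℝ) ≤ n / (4 * κ) := by
        rw [le_div_iff₀ (by positivity)]
        linarith
      have e8 : ((a : ℝ) + 1) * h + t ≤ d * u0 := by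
        rw [ht]
        push_cast
        linarith
      exact_mod_cast e8
    have hB : ∀ ψ : T (Fin N) ⊕ Bool, leavess ψ ≤ C * N →
        ∑ J : Fin n → Fin M, ∑ x : Fin N → Bool,
          Real.exp (τ * dep fun y => evs (rst J x y) ψ) ≤
        (M : ℝ) ^ n * (2 ^ N * Real.exp (g * n / 4 + τ)) := by
      intro ψ hψ
      refine (hshr n M N hn1 hM hnM ψ).trans ?_
      rw [mul_assoc]
      apply mul_le_mul_of_nonneg_left _ (by positivity)
      apply mul_le_mul_of_nonneg_left _ (by positivity)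
      apply Real.exp_le_exp.mpr
      have hM4 : 0 < (M : ℝ) ^ (1 / 4 : ℝ) := Real.rpow_pos_of_pos (by linarith) _
      have e1 : (M : ℝ) ^ (5 / 4 : ℝ) = M * (M : ℝ) ^ (1 / 4 : ℝ) := by
        have : (5 / 4 : ℝ) = 1 + 1 / 4 := by norm_num
        rw [this, Real.rpow_add (by linarith), Real.rpow_one]
      have e2 : (leavess ψ : ℝ) ≤ C * (2 * n * M) := by
        have : (leavess ψ : ℝ) ≤ ((C * N : ℕ) : ℝ) := by exact_mod_cast hψ
        push_cast at this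
        refine this.trans (mul_le_mul_of_nonneg_left hN2R (by positivity))
      have e3 : 8 * Cb * C ≤ g * (M : ℝ) ^ (1 / 4 : ℝ) := by
        rw [div_le_iff₀ hg0] at hMg
        linarith
      have e4 : Cb * leavess ψ / (M : ℝ) ^ (5 / 4 : ℝ) ≤ g * n / 4 := by
        rw [e1, div_le_iff₀ (by positivity)]
        calc Cb * leavess ψ ≤ Cb * (C * (2 * n * M)) := mul_le_mul_of_nonneg_left e2 hCb.le
          _ = (8 * Cb * C) * (n * M / 4) := by ring
          _ ≤ (g * (M : ℝ) ^ (1 / 4 : ℝ)) * (n * M / 4) :=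
              mul_le_mul_of_nonneg_right e3 (by positivity)
          _ = g * n / 4 * (M * (M : ℝ) ^ (1 / 4 : ℝ)) := by ring
      linarith
    have hSB := lines_ineq a k M N n h0 t h S τ κ g hτ hM hκ0 hg hn1 hN2 hh0 f8 n5 d8 n4 hhR2 hS
    obtain ⟨z, hz⟩ := no_short_refutation (k := k) τ _ _ hτ hM hnM (C * N) hB t d u0 a h hd1 ht
      hah φ hcon ψ hsize hSB hsound j
    rw [hj z] at hz
    simp at hz
  -- conclusion
  have hη := eta_ineq k M N n h0 d κ ε hε hκ0 hM hn1 hN1 hN2 h01 hW n6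
  calc ((univ.filter fun φ : Fin m → Cl k N => Short a (C * N) (g / (16 * M)) φ).card : ℝ)
      ≤ ((univ.filter fun φ : Fin m → Cl k N => (gp n M t d u0 φ : ℝ) <
        1 / 4 * (M : ℝ) ^ n * (2 : ℝ) ^ ((N : ℝ) - (k + 1) * h0 - 4 * N / 2 ^ t)).card : ℝ) := by
        exact_mod_cast card_le_card hsub
    _ ≤ Fintype.card (Fin m → Cl k N) *
        (2 * k / N + 4 * ((1 / 2) ^ h0 + (1 / 2) ^ N + κ * d / n)) := hgood
    _ ≤ Fintype.card (Fin m → Cl k N) * ε := mul_le_mul_of_nonneg_left hη hc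
    _ = ε * Fintype.card (Fin m → Cl k N) := mul_comm _ _

open Classical in
theorem main (a C : ℕ) : ∃ c : ℝ, 0 < c ∧ ∀ K : ℕ, ∃ k0 : ℕ, ∀ k ≥ k0, ∀ ε : ℝ, 0 < ε →
    ∃ N0 : ℕ, ∀ N ≥ N0, ∀ m ≤ K * 2 ^ k * N,
      ((univ.filter fun φ : Fin m → Cl k N => Short a (C * N) c φ).card : ℝ) ≤
        ε * Fintype.card (Fin m → Cl k N) := by
  obtain ⟨τ, Cb, hτ, _, hCb, hshr⟩ := shr (5 / 4) (by norm_num) (by norm_num)
  obtain ⟨κ, hκ⟩ : ∃ κ, κ = Real.exp 3 *
    (12 * Real.exp 1 * (100 : ℕ) * Real.exp (2 * (100 : ℕ))) ^ 4 := ⟨_, rfl⟩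
  have hκ0 : 0 < κ := by rw [hκ]; positivity
  obtain ⟨g, hg⟩ : ∃ g, g = τ / (4 * κ * (a + 1)) := ⟨_, rfl⟩
  have hg0 : 0 < g := by rw [hg]; positivity
  obtain ⟨M, hM, hMg⟩ := exists_M (8 * Cb * C / g)
  have hMR : (0 : ℝ) < M := by exact_mod_cast hM
  refine ⟨g / (16 * M), by positivity, fun K => ?_⟩
  obtain ⟨d0, hd0⟩ := dcond K M κ g hM hκ0 hg0
  refine ⟨400 * M * (d0 + 1), fun k hk ε hε => ?_⟩
  obtain ⟨d, hd⟩ : ∃ d, d = k / (400 * M) := ⟨_, rfl⟩
  have h400 : 0 < 400 * M := by omega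
  have hdd0 : d0 + 1 ≤ d := by
    rw [hd, Nat.le_div_iff_mul_le h400, mul_comm]
    exact hk
  have h1 : 400 * M * d ≤ k := by rw [hd]; exact Nat.mul_div_le k _
  have h2 : k ≤ 800 * M * d := by
    have e1 : k < 400 * M * (d + 1) := by rw [hd]; exact Nat.lt_mul_div_succ k h400
    have e2 : 1 ≤ d := by omega
    nlinarith
  obtain ⟨c1, c2, c3, c4, c5, c6, c7, c8⟩ := hd0 d (by omega)
  obtain ⟨N0, hN0⟩ := exists_nat_ge ((M : ℝ) + 4 * (k * 2 ^ (1000 * M)) + 40 * κ * d * M +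
    4 * M * (τ + 2) / g + 2 * (k + 1) * 2 ^ (4 * d) +
    (2 * k + 4 * (4 ^ k + 1 + 2 * M * κ * d)) / ε)
  refine ⟨N0, fun N hN m hm => ?_⟩
  have hNR : (N0 : ℝ) ≤ N := by exact_mod_cast hN
  have p1 : (0 : ℝ) ≤ 4 * (k * 2 ^ (1000 * M)) := by positivity
  have p2 : (0 : ℝ) ≤ 40 * κ * d * M := by positivity
  have p3 : (0 : ℝ) ≤ 4 * M * (τ + 2) / g := by positivity
  have p4 : (0 : ℝ) ≤ 2 * (k + 1) * 2 ^ (4 * d) := by positivity
  have p5 : (0 : ℝ) ≤ (2 * k + 4 * (4 ^ k + 1 + 2 * M * κ * d)) / ε := by positivity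
  have n1 : (M : ℝ) ≤ N := by linarith
  have n2 : (4 * (k * 2 ^ (1000 * M)) : ℝ) ≤ N := by linarith
  have n3 : 40 * κ * d * M ≤ N := by linarith
  have n4 : 4 * M * (τ + 2) / g ≤ N := by linarith
  have n5 : (2 * (k + 1) * 2 ^ (4 * d) : ℝ) ≤ N := by linarith
  have n6 : (2 * k + 4 * (4 ^ k + 1 + 2 * M * κ * d)) / ε ≤ N := by linarith
  exact main_N a C K M k d τ Cb κ g ε hτ hCb hM hshr hκ hg hMg c1 c2 c3 c4 c5 c6 c7 c8 h1 h2 hε N
    (by exact_mod_cast n1) (by exact_mod_cast n2) n3 n4 (by exact_mod_cast n5) n6 m hm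

open Classical in
/-- random formulas with at least `2 ^ k * N` clauses are unsatisfiable -/
theorem unsat (k : ℕ) (ε : ℝ) (hε : 0 < ε) : ∃ N0 : ℕ, ∀ N ≥ N0, ∀ m : ℕ, 2 ^ k * N ≤ m →
    ((univ.filter fun φ : Fin m → Cl k N => ∃ z : Fin N → Bool, ∀ c, ∃ i,
      z (φ c i).1 = (φ c i).2).card : ℝ) ≤ ε * Fintype.card (Fin m → Cl k N) := by
  have h1 : Filter.Tendsto (fun N : ℕ => (2 / Real.exp 1) ^ N) Filter.atTop (nhds 0) := by
    apply tendsto_pow_atTop_nhds_zero_of_lt_one (by positivity)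
    rw [div_lt_one (Real.exp_pos 1)]
    have := Real.exp_one_gt_d9
    linarith
  have h2 := h1.eventually (gt_mem_nhds hε)
  rw [Filter.eventually_atTop] at h2
  obtain ⟨N0, hN0⟩ := h2
  refine ⟨N0 + 1, fun N hN m hm => ?_⟩
  refine (sat_count (by omega)).trans ?_
  rw [mul_comm ε]
  apply mul_le_mul_of_nonneg_left _ (by positivity)
  refine le_trans ?_ (hN0 N (by omega)).le
  rw [div_pow, div_eq_mul_inv]
  apply mul_le_mul_of_nonneg_left _ (by positivity)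
  have h2k : (0 : ℝ) < 2 ^ k := by positivity
  have h2k1 : (1 : ℝ) / 2 ^ k ≤ 1 := by
    rw [div_le_one h2k]
    exact one_le_pow₀ (by norm_num)
  calc (1 - 1 / 2 ^ k : ℝ) ^ m ≤ (Real.exp (-(1 / 2 ^ k))) ^ m := by
        apply pow_le_pow_left₀ (by linarith)
        have := Real.add_one_le_exp (-(1 / (2 : ℝ) ^ k))
        linarith
    _ = Real.exp (-(m / 2 ^ k)) := by
        rw [← Real.exp_nat_mul]
        congr 1
        ring
    _ ≤ Real.exp (-N) := by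
        apply Real.exp_le_exp.mpr
        have h3 : (2 ^ k * N : ℝ) ≤ m := by exact_mod_cast hm
        have h4 : (N : ℝ) ≤ m / 2 ^ k := by
          rw [le_div_iff₀ h2k]
          linarith
        linarith
    _ = (Real.exp 1 ^ N)⁻¹ := by
        rw [← Real.exp_nat_mul, mul_one, Real.exp_neg]

end H542.RK
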