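import Mathlib
import Pool.Agent.H542R2.RK.Main

set_option autoImplicit false

/-!
Random k-CNF formulas: every assignment falsifies almost a fraction `2 ^ (-k)` of the clauses.
-/

namespace H542.RK

open Finset

variable {k N m : ℕ}

/-- the assignment `z` falsifies the clause -/
def Fa (z : Fin N → Bool) (c : Cl k N) : Prop := ∀ i, z (c i).1 ≠ (c i).2

open Classical in
/-- number of falsified clauses -/
noncomputable def nf (z : Fin N → Bool) (φ : Fin m → Cl k N) : ℕ :=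
  (univ.filter fun c => Fa z (φ c)).card

theorem exp_neg_le {x : ℝ} (hx : 0 ≤ x) : Real.exp (-x) ≤ 1 - x + x ^ 2 / 2 := by
  have h := Real.quadratic_le_exp_of_nonneg hx
  rw [Real.exp_neg]
  have h1 : 0 < 1 + x + x ^ 2 / 2 := by positivity
  have h2 : (Real.exp x)⁻¹ ≤ (1 + x + x ^ 2 / 2)⁻¹ := inv_anti₀ h1 h
  refine h2.trans ?_
  rw [inv_le_iff_one_le_mul₀ h1]
  nlinarith [sq_nonneg (x ^ 2)]

open Classical in
theorem sum_w (z : Fin N → Bool) (q : ℝ) :
    ∑ c : Cl k N, (if Fa z c then q else 1) = (2 * N : ℝ) ^ k - (N : ℝ) ^ k * (1 - q) := by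
  have hF : (univ.filter fun c : Cl k N => Fa z c).card = N ^ k := by
    have h1 : (univ.filter fun c : Cl k N => Fa z c) =
        (univ : Finset (Fin k → Fin N)).image fun f i => (f i, !z (f i)) := by
      ext c
      rw [mem_filter, mem_image]
      constructor
      · rintro ⟨-, h⟩
        refine ⟨fun i => (c i).1, mem_univ _, ?_⟩
        funext i
        have := h i
        refine Prod.ext rfl ?_
        show (!z (c i).1) = (c i).2
        cases hz : z (c i).1 <;> cases hc : (c i).2 <;> simp_all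
      · rintro ⟨f, -, rfl⟩
        refine ⟨mem_univ _, fun i => ?_⟩
        simp
    rw [h1, card_image_of_injective]
    · simp
    · intro f g hfg
      funext i
      exact congrArg Prod.fst (congrFun hfg i)
  have htot : Fintype.card (Cl k N) = (2 * N) ^ k := by
    simp [Cl, mul_comm]
  rw [Finset.sum_ite]
  simp only [sum_const, nsmul_eq_mul, mul_one]
  have h3 : (univ.filter fun c : Cl k N => Fa z c).card +
      (univ.filter fun c : Cl k N => ¬ Fa z c).card = (2 * N) ^ k := by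
    rw [card_filter_add_card_filter_not, card_univ, htot]
  have h4 : ((univ.filter fun c : Cl k N => ¬ Fa z c).card : ℝ) = (2 * N : ℝ) ^ k - (N : ℝ) ^ k := by
    have : ((univ.filter fun c : Cl k N => Fa z c).card : ℝ) +
      (univ.filter fun c : Cl k N => ¬ Fa z c).card = (2 * N : ℝ) ^ k := by exact_mod_cast h3
    rw [hF] at this
    push_cast at this
    linarith
  rw [h4, hF]
  push_cast
  ring

open Classical in
theorem bad_z (hN : 0 < N) (z : Fin N → Bool) {ζ : ℝ} (hζ : 0 ≤ ζ) :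
    ((univ.filter fun φ : Fin m → Cl k N => (nf z φ : ℝ) < (1 - ζ) * (m / 2 ^ k)).card : ℝ) ≤
      Fintype.card (Fin m → Cl k N) * Real.exp (-(m / 2 ^ k * ζ ^ 2 / 2)) := by
  set q : ℝ := Real.exp (-ζ) with hq
  have hq0 : 0 < q := Real.exp_pos _
  set μ : ℝ := m / 2 ^ k with hμ
  have hμ0 : 0 ≤ μ := by positivity
  -- each bad formula has weight at least one
  have h1 : ((univ.filter fun φ : Fin m → Cl k N => (nf z φ : ℝ) < (1 - ζ) * μ).card : ℝ) ≤
      ∑ φ : Fin m → Cl k N, Real.exp (ζ * ((1 - ζ) * μ)) * ∏ c, (if Fa z (φ c) then q else 1) := by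
    rw [card_eq_sum_ones]
    push_cast
    rw [← Finset.sum_filter_add_sum_filter_not univ (fun φ : Fin m → Cl k N =>
      (nf z φ : ℝ) < (1 - ζ) * μ) (fun φ => Real.exp (ζ * ((1 - ζ) * μ)) *
        ∏ c, (if Fa z (φ c) then q else 1))]
    refine le_trans ?_ (le_add_of_nonneg_right (sum_nonneg fun φ _ => by
      apply mul_nonneg (Real.exp_pos _).le
      apply prod_nonneg
      intro c _
      split_ifs
      · exact hq0.le
      · exact zero_le_one))
    apply sum_le_sum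
    intro φ hφ
    rw [mem_filter] at hφ
    rw [Finset.prod_ite]
    simp only [prod_const, one_pow, mul_one]
    have h2 : q ^ (univ.filter fun c => Fa z (φ c)).card = Real.exp (-(ζ * nf z φ)) := by
      rw [hq, ← Real.exp_nat_mul]
      congr 1
      unfold nf
      ring
    rw [h2, ← Real.exp_add]
    apply Real.one_le_exp
    nlinarith [hφ.2]
  refine h1.trans ?_
  rw [← mul_sum]
  have h3 : ∑ φ : Fin m → Cl k N, ∏ c, (if Fa z (φ c) then q else 1) =
      ((2 * N : ℝ) ^ k - (N : ℝ) ^ k * (1 - q)) ^ m := by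
    rw [← sum_w z q, Fintype.sum_pow]
  rw [h3]
  have hcard : (Fintype.card (Fin m → Cl k N) : ℝ) = ((2 * N : ℝ) ^ k) ^ m := by
    simp only [Fintype.card_fun, Fintype.card_prod, Fintype.card_fin, Fintype.card_bool]
    push_cast
    rw [mul_comm (N : ℝ) 2]
  rw [hcard]
  have h2N : (0 : ℝ) < (2 * N : ℝ) ^ k := by
    have : (0 : ℝ) < N := by exact_mod_cast hN
    positivity
  have h4 : (2 * N : ℝ) ^ k - (N : ℝ) ^ k * (1 - q) =
      (2 * N : ℝ) ^ k * (1 - (1 - q) / 2 ^ k) := by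
    rw [mul_pow]
    field_simp
  rw [h4, mul_pow, mul_left_comm]
  apply mul_le_mul_of_nonneg_left _ (by positivity)
  have hq1 : q ≤ 1 := by
    rw [hq]
    exact Real.exp_le_one_iff.mpr (by linarith)
  have h5 : (1 - (1 - q) / 2 ^ k) ^ m ≤ Real.exp (-(μ * (1 - q))) := by
    have h2k1 : (1 : ℝ) ≤ 2 ^ k := one_le_pow₀ (by norm_num)
    have h6 : 0 ≤ 1 - (1 - q) / 2 ^ k := by
      rw [sub_nonneg, div_le_one (by positivity)]
      linarith
    calc (1 - (1 - q) / 2 ^ k) ^ m ≤ (Real.exp (-((1 - q) / 2 ^ k))) ^ m := by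
          apply pow_le_pow_left₀ h6
          have := Real.add_one_le_exp (-((1 - q) / (2 : ℝ) ^ k))
          linarith
      _ = Real.exp (-(μ * (1 - q))) := by
          rw [← Real.exp_nat_mul, hμ]
          congr 1
          ring
  calc Real.exp (ζ * ((1 - ζ) * μ)) * (1 - (1 - q) / 2 ^ k) ^ m
      ≤ Real.exp (ζ * ((1 - ζ) * μ)) * Real.exp (-(μ * (1 - q))) :=
        mul_le_mul_of_nonneg_left h5 (Real.exp_pos _).le
    _ = Real.exp (ζ * ((1 - ζ) * μ) + -(μ * (1 - q))) := by rw [Real.exp_add]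
    _ ≤ Real.exp (-(μ * ζ ^ 2 / 2)) := by
        apply Real.exp_le_exp.mpr
        have := exp_neg_le hζ
        rw [← hq] at this
        nlinarith [mul_nonneg hμ0 (by linarith : 0 ≤ (1 - ζ + ζ ^ 2 / 2) - q)]

/-- with high probability every assignment falsifies at least a fraction `(1 - ζ) / 2 ^ k` of
the clauses of a random `k`-CNF with many clauses -/
theorem gap (ζ : ℝ) (hζ : 0 < ζ) : ∃ K0 : ℕ, ∀ K ≥ K0, ∀ k : ℕ, ∀ ε : ℝ, 0 < ε →
    ∃ N0 : ℕ, ∀ N ≥ N0,
    (({φ : Fin (K * 2 ^ k * N) → Cl k N | ∃ z : Fin N → Bool,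
        (nf z φ : ℝ) < (1 - ζ) * (K * N)}).ncard : ℝ) ≤
      ε * Fintype.card (Fin (K * 2 ^ k * N) → Cl k N) := by
  classical
  refine ⟨⌈4 / ζ ^ 2⌉₊, fun K hK k ε hε => ?_⟩
  have h1 : Filter.Tendsto (fun N : ℕ => (2 / Real.exp 2) ^ N) Filter.atTop (nhds 0) := by
    apply tendsto_pow_atTop_nhds_zero_of_lt_one (by positivity)
    rw [div_lt_one (Real.exp_pos 2)]
    have := Real.add_one_le_exp (2 : ℝ)
    linarith
  have h2 := h1.eventually (gt_mem_nhds hε)
  rw [Filter.eventually_atTop] at h2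
  obtain ⟨N0, hN0⟩ := h2
  refine ⟨N0 + 1, fun N hN => ?_⟩
  have hK' : 4 / ζ ^ 2 ≤ K := (Nat.le_ceil _).trans (by exact_mod_cast hK)
  have hKζ : 4 ≤ K * ζ ^ 2 := by
    rwa [div_le_iff₀ (by positivity)] at hK'
  have hNpos : 0 < N := by omega
  have hm : ((K * 2 ^ k * N : ℕ) : ℝ) / 2 ^ k = K * N := by
    push_cast
    field_simp
  rw [Set.ncard_eq_toFinset_card']
  have hsub : ({φ : Fin (K * 2 ^ k * N) → Cl k N | ∃ z : Fin N → Bool,
        (nf z φ : ℝ) < (1 - ζ) * (K * N)}).toFinset ⊆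
      (univ : Finset (Fin N → Bool)).biUnion fun z =>
        univ.filter fun φ : Fin (K * 2 ^ k * N) → Cl k N =>
          (nf z φ : ℝ) < (1 - ζ) * (((K * 2 ^ k * N : ℕ) : ℝ) / 2 ^ k) := by
    intro φ hφ
    rw [Set.mem_toFinset] at hφ
    obtain ⟨z, hz⟩ := hφ
    rw [mem_biUnion]
    refine ⟨z, mem_univ _, ?_⟩
    rw [mem_filter, hm]
    exact ⟨mem_univ _, hz⟩
  have hle : (({φ : Fin (K * 2 ^ k * N) → Cl k N | ∃ z : Fin N → Bool,
        (nf z φ : ℝ) < (1 - ζ) * (K * N)}).toFinset.card : ℝ) ≤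
      ∑ z : Fin N → Bool, Fintype.card (Fin (K * 2 ^ k * N) → Cl k N) * Real.exp (-(2 * N)) := by
    have h3 : (({φ : Fin (K * 2 ^ k * N) → Cl k N | ∃ z : Fin N → Bool,
        (nf z φ : ℝ) < (1 - ζ) * (K * N)}).toFinset.card : ℝ) ≤
        ∑ z : Fin N → Bool, ((univ.filter fun φ : Fin (K * 2 ^ k * N) → Cl k N =>
          (nf z φ : ℝ) < (1 - ζ) * (((K * 2 ^ k * N : ℕ) : ℝ) / 2 ^ k)).card : ℝ) := by
      exact_mod_cast (card_le_card hsub).trans card_biUnion_le
    refine h3.trans (sum_le_sum fun z _ => ?_)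
    refine (bad_z hNpos z hζ.le).trans ?_
    apply mul_le_mul_of_nonneg_left _ (by positivity)
    apply Real.exp_le_exp.mpr
    rw [hm]
    have hNr : (0 : ℝ) ≤ N := by positivity
    nlinarith [mul_nonneg hNr (by linarith : (0:ℝ) ≤ K * ζ ^ 2 - 4)]
  refine hle.trans ?_
  rw [sum_const, card_univ, nsmul_eq_mul]
  have hcard : (Fintype.card (Fin N → Bool) : ℝ) = 2 ^ N := by
    simp
  rw [hcard]
  have h5 : (2 : ℝ) ^ N * Real.exp (-(2 * N)) ≤ ε := by
    refine le_trans (le_of_eq ?_) (hN0 N (by omega)).le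
    rw [div_pow, div_eq_mul_inv]
    congr 1
    rw [← Real.exp_nat_mul, Real.exp_neg]
    congr 2
    ring
  calc (2 : ℝ) ^ N * (Fintype.card (Fin (K * 2 ^ k * N) → Cl k N) * Real.exp (-(2 * N)))
      = (2 ^ N * Real.exp (-(2 * N))) * Fintype.card (Fin (K * 2 ^ k * N) → Cl k N) := by ring
    _ ≤ ε * Fintype.card (Fin (K * 2 ^ k * N) → Cl k N) :=
        mul_le_mul_of_nonneg_right h5 (by positivity)

end H542.RK
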