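import Mathlib
import Pool.Agent.H542R2.RK.Defs
import Pool.Agent.H542R2.RK.Loc
import Pool.Agent.H542R2.BlockMoment

set_option autoImplicit false

/-! Stubs (statements only) of the project RK. -/

namespace H542.RK

open Finset

variable {k N m n : ℕ}

open Classical in
/-- LLL: symmetric local lemma, counting form, with the lower bound for the probability. -/
theorem lll {α ι : Type} (Ω : Finset α) (E : ι → α → Prop) (S : Finset ι) (nb : ι → Finset ι)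
    (D : ℕ) (q : ℝ) (hq : 0 ≤ q) (hDq : 4 * D * q ≤ 1) (hq2 : 2 * q ≤ 1)
    (hnb : ∀ i ∈ S, (nb i).card ≤ D)
    (hind : ∀ i ∈ S, ∀ T ⊆ S, (∀ j ∈ T, j ∉ nb i) →
      ((Ω.filter fun x => E i x ∧ ∀ j ∈ T, ¬ E j x).card : ℝ) ≤
        q * (Ω.filter fun x => ∀ j ∈ T, ¬ E j x).card) :
    (1 - 2 * q) ^ S.card * (Ω.card : ℝ) ≤ (Ω.filter fun x => ∀ j ∈ S, ¬ E j x).card := sorry

open Classical in
/-- G1C: many assignments satisfy all clauses with few alive positions. -/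
theorem g1_count (A : Finset (Fin N)) (φ : Fin m → Cl k N) (t h0 D smax : ℕ) (ht : 1 ≤ t)
    (hk : 5 * t ≤ k) (hD : D = 2 ^ (k - 5 * t)) (hk2 : 4 * k ^ 2 ≤ 2 ^ t) (hs : h0 + 1 ≤ smax)
    (hE : Ex t smax φ) (h1 : Dg A t h0 D φ) (h2 : Dg A t N D φ) :
    (2 : ℝ) ^ ((N : ℝ) - (k + 1) * h0 - 4 * N / 2 ^ t) ≤
      ((univ.filter fun x : Fin N → Bool => G1 A t x φ).card : ℝ) := sorry

open Classical in
/-- EXC: most formulas expand. -/
theorem ex_count (r smax : ℕ) (hr : r < k) (hN : (k - r) * smax ≤ N) (hN1 : 1 ≤ N) :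
    ((univ.filter fun φ : Fin m → Cl k N => ¬ Ex r smax φ).card : ℝ) ≤
      Fintype.card (Fin m → Cl k N) * ∑ s ∈ Icc 1 smax, (m.choose s : ℝ) *
        (N.choose ((k - r) * s)) * ((((k - r) * s : ℕ) : ℝ) / N) ^ (k * s) := sorry

open Classical in
/-- LOWC: number of clauses with few alive positions. -/
theorem low_count (A : Finset (Fin N)) (hA : A.card = n) (t : ℕ) :
    ((univ.filter fun c : Cl k N => na A c < t).card : ℝ) ≤ 2 ^ t * (2 * N - n) ^ k := sorry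

open Classical in
/-- DGC: in most formulas the degrees (with respect to clauses with few alive positions) are
bounded on average over sets of `h` variables. -/
theorem dg_count (A : Finset (Fin N)) (hA : A.card = n) (t h D : ℕ) (hk : 1 ≤ k) (hN : 1 ≤ N) :
    ((univ.filter fun φ : Fin m → Cl k N => ¬ Dg A t h D φ).card : ℝ) ≤
      Fintype.card (Fin m → Cl k N) * ((N.choose h : ℝ) * (m.choose (h * D)) *
        ((k * (2 * h) * (2 ^ t * (2 * N - n) ^ (k - 1))) / (2 * N) ^ k) ^ (h * D)) := sorry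

open Classical in
/-- RESAMP: one resampling step.  `F` is not changed if a clause in `B` is replaced by another
clause in `B`. -/
theorem resamp (B Q : Finset (Cl k N)) (hQ : Q ⊆ B) (S : Finset (Fin m))
    (F : (Fin m → Cl k N) → ℝ) (hF0 : ∀ φ, 0 ≤ F φ)
    (hF : ∀ φ (c : Fin m) (e : Cl k N), φ c ∈ B → e ∈ B → F (Function.update φ c e) = F φ) :
    (∑ φ : Fin m → Cl k N, if ∀ c ∈ S, φ c ∈ Q then F φ else 0) ≤
      ((Q.card : ℝ) / B.card) ^ S.card * ∑ φ : Fin m → Cl k N, F φ := sorry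

open Classical in
/-- HEXP: given that the clauses with few alive positions are satisfied, the residual formula
expands with high probability.  Uses `resamp`. -/
theorem hexp (A : Finset (Fin N)) (hA : A.card = n) (t d u0 : ℕ) (hd : 1 ≤ d) (ht : t = 4 * d)
    (htk : t ≤ k) (hN : 1 ≤ N) (hu : 3 * d * u0 ≤ n)
    (hlow : 2 * (univ.filter fun c : Cl k N => na A c < t).card ≤ Fintype.card (Cl k N)) :
    ∑ φ : Fin m → Cl k N,
      ((univ.filter fun x : Fin N → Bool => G1 A t x φ ∧ ¬ G2 A t d u0 x φ).card : ℝ) /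
        (univ.filter fun x : Fin N → Bool => G1 A t x φ).card ≤
      Fintype.card (Fin m → Cl k N) * ∑ s ∈ Icc 1 u0, (m.choose s : ℝ) *
        (n.choose (3 * d * s)) * (2 * ((k.choose t : ℝ) * (2 * (3 * d * s)) ^ t *
          (N + n) ^ (k - t)) / (2 * N) ^ k) ^ s := sorry

/-- SHR: exponential moment of the decision tree depth for formulas over `Fin N`; from
`H542.block_moment`, by substituting the values of the variables `≥ n * M`. -/
theorem shr (β : ℝ) (hβ : 1 ≤ β) (hβ2 : β < 3 / 2) : ∃ τ C : ℝ, 0 < τ ∧ τ ≤ 1 ∧ 0 < C ∧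
    ∀ (n M N : ℕ), 1 ≤ n → 1 ≤ M → n * M ≤ N → ∀ ψ : T (Fin N) ⊕ Bool,
      ∑ J : Fin n → Fin M, ∑ x : Fin N → Bool,
        Real.exp (τ * dep fun y => evs (rst J x y) ψ) ≤
      (M : ℝ) ^ n * 2 ^ N * Real.exp (C * leavess ψ / (M : ℝ) ^ β + τ) := sorry

/-- ALC -/
theorem al_card {M : ℕ} (hM : 1 ≤ M) (hnM : n * M ≤ N) (J : Fin n → Fin M) :
    (al J : Finset (Fin N)).card = n := sorry

/-- DET: the deterministic part.  Uses `no_refk` of RK/Loc.lean. -/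
theorem det {M : ℕ} (J : Fin n → Fin M) (hM : 1 ≤ M) (hnM : n * M ≤ N) (x : Fin N → Bool)
    (φ : Fin m → Cl k N) (t d u0 a h : ℕ) (hd : 1 ≤ d) (ht : t = 4 * d)
    (hah : (a + 1) * h + t ≤ d * u0) (hG1 : G1 (al J) t x φ) (hG2 : G2 (al J) t d u0 x φ)
    {S : ℕ} (g : Fin S → (Fin N → Bool) → Bool)
    (hdep : ∀ j, dep (fun y => g j (rst J x y)) ≤ h)
    (hs : ∀ j, (∃ c, ∀ z : Fin N → Bool, (∃ i, z (φ c i).1 = (φ c i).2) → g j z = true) ∨
      ∃ P : Finset (Fin S), P.card ≤ a ∧ (∀ p ∈ P, p < j) ∧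
        ∀ z, (∀ p ∈ P, g p z = true) → g j z = true) (j : Fin S) :
    ∃ z, g j z = true := sorry

open Classical in
/-- SATC -/
theorem sat_count (hN : 1 ≤ N) :
    ((univ.filter fun φ : Fin m → Cl k N => ∃ z : Fin N → Bool, ∀ c, ∃ i,
      z (φ c i).1 = (φ c i).2).card : ℝ) ≤
      Fintype.card (Fin m → Cl k N) * (2 ^ N * (1 - 1 / 2 ^ k) ^ m) := sorry

/-- NEX -/
theorem num_ex (k r K Q N m smax : ℕ) (hr3 : 3 ≤ r) (hrk : r < k) (hm : m ≤ K * 2 ^ k * N)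
    (hs : smax * (k * 2 ^ Q) ≤ N) (hN : 1 ≤ N)
    (hQ : 2 * Real.exp 1 * K * k * (2 * Real.exp 1) ^ k ≤ ((2 : ℝ) ^ Q) ^ (r - 2)) :
    ∑ s ∈ Icc 1 smax, (m.choose s : ℝ) * (N.choose ((k - r) * s)) *
      ((((k - r) * s : ℕ) : ℝ) / N) ^ (k * s) ≤ 2 * k / N := sorry

/-- NDG -/
theorem num_dg (k K N m n t h W D : ℕ) (hh : 1 ≤ h) (hhN : h ≤ N) (hn : n ≤ N) (hk : 1 ≤ k)
    (hm : m ≤ K * 2 ^ k * N) (hW : N ≤ h * W) (hD1 : 1 ≤ D)
    (hb : 2 * Real.exp 1 * K * k * 2 ^ k * 2 ^ t * (1 - (n : ℝ) / (2 * N)) ^ (k - 1) ≤ D)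
    (hD : 2 * Real.exp 1 * W ≤ 2 ^ D) :
    (N.choose h : ℝ) * (m.choose (h * D)) *
        ((k * (2 * h) * (2 ^ t * (2 * N - n) ^ (k - 1))) / (2 * N) ^ k) ^ (h * D) ≤
      (1 / 2) ^ h := sorry

/-- NHE -/
theorem num_hexp (k K L M N n m t d u0 : ℕ) (κ : ℝ)
    (hκ : κ = Real.exp 3 * (12 * Real.exp 1 * L * Real.exp (2 * L)) ^ 4) (hd : 2 ≤ d)
    (ht : t = 4 * d) (htk : t ≤ k) (hk : k ≤ 2 * L * M * t) (hM : 1 ≤ M) (hL : 1 ≤ L)
    (hn : 1 ≤ n) (hnM : n * M ≤ N) (hN : N ≤ 2 * n * M) (hm : m ≤ K * 2 ^ k * N)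
    (hu : 2 * κ * d * u0 ≤ n) (hK : 8 * Real.exp 1 * K * M * κ * d ≤ 2 ^ (d - 2)) :
    ∑ s ∈ Icc 1 u0, (m.choose s : ℝ) * (n.choose (3 * d * s)) *
      (2 * ((k.choose t : ℝ) * (2 * (3 * d * s)) ^ t * (N + n) ^ (k - t)) / (2 * N) ^ k) ^ s ≤
    κ * d / n := sorry

end H542.RK
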